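import Pool.Agent.Y959.Rs.Lq2

set_option autoImplicit false

/-!
# The `ℓ^q` inequality on random supports, conclusion
-/

namespace Pool.Agent.Y959.Rs

open Finset Pool.Agent.TH705.DL Pool.Agent.Y959.Her Pool.Agent.Y959.Smp

/-- the `ℓ^q` inequalities -/
def LqAll (N T : ℕ) (C ε : ℝ) (I : Finset ℕ) : Prop :=
  ∀ a : ℕ → ℂ, (∀ n, ‖a n‖ ≤ 1) → ∀ q : ℝ, 0 < q →
    ∑ t ∈ Icc 1 T, ‖∑ n ∈ I, a n * ph (t : ℝ) n‖ ^ q ≤
      C * (N : ℝ) ^ ε * (2 ^ q * ((N : ℝ) ^ q + T * (N : ℝ) ^ (q / 2)))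

theorem log2_le (N : ℕ) (hN : 1 ≤ N) : (Nat.log 2 N : ℝ) ≤ 2 * Real.log N := by
  have hN1 : (1 : ℝ) ≤ N := by exact_mod_cast hN
  have hlogs' : 0.6931471803 < Real.log 2 := Real.log_two_gt_d9
  have h2 : 2 ^ (Nat.log 2 N) ≤ N := Nat.pow_log_le_self 2 (by omega)
  have h3 : ((2 : ℝ)) ^ (Nat.log 2 N) ≤ N := by exact_mod_cast h2
  have h6 := Real.log_le_log (by positivity) h3
  rw [Real.log_pow] at h6
  have h0 : (0 : ℝ) ≤ (Nat.log 2 N : ℝ) := Nat.cast_nonneg _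
  nlinarith

open Classical in
theorem lq_count (ε A : ℝ) (hε : 0 < ε) (hA : 0 ≤ A) (Q j : ℕ) (hj : 1 ≤ j) :
    ∃ C : ℝ, 0 < C ∧ ∀ N T k : ℕ, 1 ≤ N → (N : ℝ) ^ j ≤ T → (T : ℝ) ≤ (N : ℝ) ^ Q →
      (k : ℝ) ≤ (N : ℝ) ^ (1 - (Real.sqrt (j + 1) - Real.sqrt j) ^ 2 / 2) →
      (((powersetCard k (Icc N (2 * N))).filter (fun I => ¬ LqAll N T C ε I)).card : ℝ) ≤
        (N : ℝ) ^ (-A) * ((powersetCard k (Icc N (2 * N))).card : ℝ) := by
  obtain ⟨r, hr⟩ : ∃ r : ℝ, r = (Real.sqrt (j + 1) - Real.sqrt j) ^ 2 := ⟨_, rfl⟩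
  have hrp : 0 < r := by
    rw [hr]
    have h1 : Real.sqrt j < Real.sqrt (j + 1) := Real.sqrt_lt_sqrt (by positivity) (by linarith)
    have : 0 < Real.sqrt (j + 1) - Real.sqrt j := by linarith
    positivity
  obtain ⟨ε1, hε1⟩ : ∃ ε1 : ℝ, ε1 = min (ε / 2) (r / 4) := ⟨_, rfl⟩
  have hε1p : 0 < ε1 := by rw [hε1]; exact lt_min (by positivity) (by positivity)
  have hε1a : ε1 ≤ ε / 2 := by rw [hε1]; exact min_le_left _ _
  have hε1b : ε1 ≤ r / 4 := by rw [hε1]; exact min_le_right _ _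
  obtain ⟨C, hC, hcount⟩ := good1_count ε1 A hε1p hA (Q + 1) (by omega)
  obtain ⟨C5, hC5, hlg⟩ := log_pow3 (ε / 2) (by positivity)
  obtain ⟨N0, hN0d⟩ : ∃ N0 : ℝ, N0 = C ^ (4 / r) + 2 := ⟨_, rfl⟩
  have hC0 : 0 < C := by linarith
  have hN00 : 2 ≤ N0 := by
    rw [hN0d]
    have : 0 ≤ C ^ (4 / r) := by positivity
    linarith
  obtain ⟨K, hK⟩ : ∃ K : ℝ, K = 1 + 8 * C * (4 ^ (Q + 1) + 2) * ((Q + 1) * 5 * C5) + N0 ^ Q := ⟨_, rfl⟩
  have hKp : 0 < K := by rw [hK]; positivity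
  refine ⟨K, hKp, ?_⟩
  intro N T k hN hjT hTQ hk
  have hN1 : (1 : ℝ) ≤ N := by exact_mod_cast hN
  have hNp : (0 : ℝ) < N := by linarith
  have hk0 : (0 : ℝ) ≤ k := Nat.cast_nonneg _
  have hTp : (0 : ℝ) < T := lt_of_lt_of_le (by positivity) hjT
  have hTQ1 : (T : ℝ) ≤ (N : ℝ) ^ (Q + 1) := hTQ.trans (pow_le_pow_right₀ hN1 (by omega))
  refine le_trans ?_ (hcount N T k hN hTQ1)
  have hsub : (powersetCard k (Icc N (2 * N))).filter (fun I => ¬ LqAll N T K ε I) ⊆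
      (powersetCard k (Icc N (2 * N))).filter (fun I => ¬ Good1 N T k (Q + 1) C ε1 I) := by
    intro I hI
    rw [mem_filter] at hI ⊢
    refine ⟨hI.1, fun hG => hI.2 ?_⟩
    have hIF := (mem_powersetCard.1 hI.1).1
    have hIk := (mem_powersetCard.1 hI.1).2
    intro a ha q hq
    have hP : 0 ≤ 2 ^ q * ((N : ℝ) ^ q + T * (N : ℝ) ^ (q / 2)) := by positivity
    have hNε : 1 ≤ (N : ℝ) ^ ε := Real.one_le_rpow hN1 hε.le
    rcases le_or_gt (N : ℝ) N0 with hs | hs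
    · -- small `N`
      have hkN : (k : ℝ) ≤ 2 * N := by
        have h1 : k ≤ N + 1 := by
          rw [← hIk]
          refine (card_le_card hIF).trans ?_
          rw [Nat.card_Icc]
          omega
        have h2 : (k : ℝ) ≤ N + 1 := by exact_mod_cast h1
        linarith
      have h1 : ∀ t : ℕ, ‖∑ n ∈ I, a n * ph (t : ℝ) n‖ ≤ 2 * N := by
        intro t
        refine le_trans ?_ hkN
        rw [← hIk]
        refine (norm_sum_le _ _).trans ?_
        calc ∑ n ∈ I, ‖a n * ph (t : ℝ) n‖ ≤ ∑ n ∈ I, (1 : ℝ) := by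
              apply sum_le_sum
              intro n _
              rw [norm_mul, ph_norm, mul_one]
              exact ha n
          _ = _ := by simp
      calc ∑ t ∈ Icc 1 T, ‖∑ n ∈ I, a n * ph (t : ℝ) n‖ ^ q ≤ ∑ t ∈ Icc 1 T, (2 * (N : ℝ)) ^ q :=
            sum_le_sum fun t _ => Real.rpow_le_rpow (norm_nonneg _) (h1 t) hq.le
        _ = T * (2 ^ q * (N : ℝ) ^ q) := by
            rw [sum_const, Nat.card_Icc, Nat.add_sub_cancel, nsmul_eq_mul,
              Real.mul_rpow (by norm_num) hNp.le]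
        _ ≤ N0 ^ Q * (2 ^ q * ((N : ℝ) ^ q + T * (N : ℝ) ^ (q / 2))) := by
            have h2 : (T : ℝ) ≤ N0 ^ Q := hTQ.trans (pow_le_pow_left₀ hNp.le hs Q)
            apply mul_le_mul h2 _ (by positivity) (by positivity)
            apply mul_le_mul_of_nonneg_left _ (by positivity)
            have : 0 ≤ T * (N : ℝ) ^ (q / 2) := by positivity
            linarith
        _ ≤ K * (N : ℝ) ^ ε * (2 ^ q * ((N : ℝ) ^ q + T * (N : ℝ) ^ (q / 2))) := by
            apply mul_le_mul_of_nonneg_right _ hP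
            have h3 : N0 ^ Q ≤ K := by
              rw [hK]
              have : 0 ≤ 8 * C * (4 ^ (Q + 1) + 2) * ((Q + 1) * 5 * C5) := by positivity
              linarith
            exact h3.trans (le_mul_of_one_le_right hKp.le hNε)
    · have hN2 : 2 ≤ N := by
        have h1 : (2 : ℝ) < N := by linarith
        have h2 : 2 < N := by exact_mod_cast h1
        omega
      have hNgt1 : (1 : ℝ) < N := by linarith
      obtain ⟨τ, hτ⟩ : ∃ τ : ℝ, τ = Real.logb N T := ⟨_, rfl⟩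
      have hTτ : (T : ℝ) = (N : ℝ) ^ τ := by
        rw [hτ, Real.rpow_logb hNp hNgt1.ne' hTp]
      have hjτ : (j : ℝ) ≤ τ := by
        rw [hτ, Real.le_logb_iff_rpow_le hNgt1 hTp, Real.rpow_natCast]
        exact hjT
      have hτQ : τ ≤ Q := by
        rw [hτ, Real.logb_le_iff_le_rpow hNgt1 hTp, Real.rpow_natCast]
        exact hTQ
      have hτ0 : 0 ≤ τ := by
        have : (0 : ℝ) ≤ j := Nat.cast_nonneg _
        linarith
      obtain ⟨κ, hκ⟩ : ∃ κ : ℕ, κ = ⌊τ⌋₊ := ⟨_, rfl⟩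
      have hκτ : (κ : ℝ) ≤ τ := by rw [hκ]; exact Nat.floor_le hτ0
      have hτκ : τ ≤ κ + 1 := by rw [hκ]; exact (Nat.lt_floor_add_one τ).le
      have hjκ : j ≤ κ := by rw [hκ]; exact Nat.le_floor hjτ
      have hκQ : κ ≤ Q := by
        have : (κ : ℝ) ≤ Q := hκτ.trans hτQ
        exact_mod_cast this
      have hbig : C * (N : ℝ) ^ ε1 * k < N := by
        have h1 : C < (N : ℝ) ^ (r / 4) := by
          have h2 : C ^ (4 / r) < N := by
            rw [hN0d] at hs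
            linarith
          have h3 : (C ^ (4 / r)) ^ (r / 4) < (N : ℝ) ^ (r / 4) :=
            Real.rpow_lt_rpow (by positivity) h2 (by positivity)
          rw [← Real.rpow_mul hC0.le] at h3
          have h4 : 4 / r * (r / 4) = 1 := by field_simp
          rwa [h4, Real.rpow_one] at h3
        rw [← hr] at hk
        calc C * (N : ℝ) ^ ε1 * k ≤ C * (N : ℝ) ^ (r / 4) * (N : ℝ) ^ (1 - r / 2) := by
              apply mul_le_mul _ hk hk0 (by positivity)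
              apply mul_le_mul_of_nonneg_left _ hC0.le
              exact Real.rpow_le_rpow_of_exponent_le hN1 hε1b
          _ < (N : ℝ) ^ (r / 4) * (N : ℝ) ^ (r / 4) * (N : ℝ) ^ (1 - r / 2) := by
              apply mul_lt_mul_of_pos_right _ (by positivity)
              exact mul_lt_mul_of_pos_right h1 (by positivity)
          _ = N := by
              rw [← Real.rpow_add hNp, ← Real.rpow_add hNp]
              have : r / 4 + r / 4 + (1 - r / 2) = 1 := by ring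
              rw [this, Real.rpow_one]
      have hmain := lq_sum Q N T k hN2 C ε1 hC κ j hj hjκ hκQ τ hTτ hκτ hτκ hk hbig I hIF hIk hG a ha q hq
      refine hmain.trans ?_
      apply mul_le_mul_of_nonneg_right _ hP
      have h1 : (4 : ℝ) ^ (κ + 1) + 2 ≤ 4 ^ (Q + 1) + 2 := by
        have : (4 : ℝ) ^ (κ + 1) ≤ 4 ^ (Q + 1) := pow_le_pow_right₀ (by norm_num) (by omega)
        linarith
      have hl0 : 0 ≤ Real.log N := Real.log_nonneg hN1
      have hQ0 : (0 : ℝ) ≤ Q := Nat.cast_nonneg _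
      have h2 : ((Q : ℝ) + 1) * (Nat.log 2 N + 2) + 1 ≤ (Q + 1) * 5 * C5 * (N : ℝ) ^ (ε / 2) := by
        have h3 := log2_le N hN
        have h4 : (Nat.log 2 N : ℝ) + 3 ≤ 5 * (1 + Real.log N) := by linarith
        have h5 : 1 + Real.log N ≤ (1 + Real.log N) ^ 3 := le_self_pow₀ (by linarith) (by norm_num)
        have h6 : (Nat.log 2 N : ℝ) + 3 ≤ 5 * (C5 * (N : ℝ) ^ (ε / 2)) := by
          have := hlg N hN
          linarith
        have h7 := mul_le_mul_of_nonneg_left h6 (by linarith : (0 : ℝ) ≤ Q + 1)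
        linarith
      have hNN : (N : ℝ) ^ ε1 * (N : ℝ) ^ (ε / 2) ≤ (N : ℝ) ^ ε := by
        rw [← Real.rpow_add hNp]
        exact Real.rpow_le_rpow_of_exponent_le hN1 (by linarith)
      have h3 : 8 * (C * (N : ℝ) ^ ε1) * (4 ^ (κ + 1) + 2) * (((Q : ℝ) + 1) * (Nat.log 2 N + 2) + 1) ≤
          8 * C * (4 ^ (Q + 1) + 2) * ((Q + 1) * 5 * C5) * (N : ℝ) ^ ε := by
        calc 8 * (C * (N : ℝ) ^ ε1) * (4 ^ (κ + 1) + 2) * (((Q : ℝ) + 1) * (Nat.log 2 N + 2) + 1)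
            ≤ 8 * (C * (N : ℝ) ^ ε1) * (4 ^ (Q + 1) + 2) * ((Q + 1) * 5 * C5 * (N : ℝ) ^ (ε / 2)) := by
              apply mul_le_mul _ h2 (by positivity) (by positivity)
              exact mul_le_mul_of_nonneg_left h1 (by positivity)
          _ = 8 * C * (4 ^ (Q + 1) + 2) * ((Q + 1) * 5 * C5) * ((N : ℝ) ^ ε1 * (N : ℝ) ^ (ε / 2)) := by
              ring
          _ ≤ _ := mul_le_mul_of_nonneg_left hNN (by positivity)
      have h4 : 0 ≤ N0 ^ Q * (N : ℝ) ^ ε := by positivity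
      rw [hK]
      linarith
  exact_mod_cast card_le_card hsub

end Pool.Agent.Y959.Rs
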