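import Pool.Agent.Y959.Rs.RealD

set_option autoImplicit false

/-!
# Random supports, `T ≤ N²`
-/

namespace Pool.Agent.Y959.Rs

open Finset Pool.Agent.TH705.DL Pool.Agent.Y959.Her Pool.Agent.Y959.Smp

theorem Sep.sub {W W' : Finset ℝ} (h : Sep W) (hs : W' ⊆ W) : Sep W' :=
  fun t ht u hu => h t (hs ht) u (hs hu)

/-- second moment -/
theorem two_a (N k : ℕ) (hN : 1 ≤ N) (C ε : ℝ) (hC : 1 ≤ C) (I : Finset ℕ)
    (hIk : I.card = k) (hI : GoodR N 2 k C ε I) (T : ℝ) (hT : 0 ≤ T) (hTQ : T ≤ (N : ℝ) ^ 2)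
    (W : Finset ℝ) (hW : ∀ t ∈ W, 0 ≤ t ∧ t ≤ T) (hsep : Sep W) (a : ℕ → ℂ) :
    ∑ t ∈ W, ‖∑ n ∈ I, a n * ph t n‖ ^ 2 ≤
      (4 * (C * (N : ℝ) ^ ε * (W.card + 2 * k + k / N * T)) * ((Nat.log 2 k : ℝ) + 2) + W.card) *
        ∑ n ∈ I, ‖a n‖ ^ 2 := by
  have hN1 : (1 : ℝ) ≤ N := by exact_mod_cast hN
  have hN0 : (0 : ℝ) < N := by linarith
  have hk0 : (0 : ℝ) ≤ k := Nat.cast_nonneg _
  apply lev_sum I k hIk a W _ (by positivity)
  intro V hV hGV
  obtain ⟨W', hW'⟩ : ∃ W' : Finset ℝ, W' = W.filter (fun t => V ≤ ‖∑ n ∈ I, a n * ph t n‖) := ⟨_, rfl⟩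
  rw [← hW']
  have hsub : W' ⊆ W := by rw [hW']; exact filter_subset _ _
  have hcard : (W'.card : ℝ) ≤ W.card := by exact_mod_cast card_le_card hsub
  have h1 := (hI T W' a hT hTQ (fun t ht => hW t (hsub ht)) (Sep.sub hsep hsub)).2 1 le_rfl (by norm_num) V hV
    (fun t ht => by
      rw [hW'] at ht
      exact (mem_filter.1 ht).2)
  obtain ⟨G, hG⟩ : ∃ G : ℝ, G = ∑ n ∈ I, ‖a n‖ ^ 2 := ⟨_, rfl⟩
  have hG0 : 0 ≤ G := by rw [hG]; exact sum_nonneg fun _ _ => sq_nonneg _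
  rw [← hG] at h1 ⊢
  obtain ⟨D0, hD0⟩ : ∃ D0 : ℝ, D0 = C * (N : ℝ) ^ ε := ⟨_, rfl⟩
  have hD00 : 0 ≤ D0 := by rw [hD0]; positivity
  rw [← hD0] at h1 ⊢
  have hw'0 : (0 : ℝ) ≤ W'.card := Nat.cast_nonneg _
  have hw0 : (0 : ℝ) ≤ W.card := Nat.cast_nonneg _
  have hpT : 0 ≤ k / N * T := by positivity
  rcases h1 with h2 | h2
  · calc V ^ 2 * (W'.card : ℝ) ≤ (D0 * G) * W.card := mul_le_mul h2 hcard hw'0 (by positivity)
      _ = D0 * W.card * G := by ring
      _ ≤ D0 * (W.card + 2 * k + k / N * T) * G := by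
          apply mul_le_mul_of_nonneg_right _ hG0
          apply mul_le_mul_of_nonneg_left _ hD00
          linarith
  · have hV2 : 0 < V ^ 2 := by positivity
    have h3 := mul_le_mul_of_nonneg_left h2 hV2.le
    refine h3.trans ?_
    have e1 : V ^ 2 * (D0 * (k * G / V ^ 2 + (T + (N : ℝ) ^ 1) * (k * G / (N * V ^ 2)) ^ 1)) =
        D0 * (2 * k + k / N * T) * G := by
      rw [pow_one, pow_one]
      field_simp
      ring
    rw [e1]
    apply mul_le_mul_of_nonneg_right _ hG0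
    apply mul_le_mul_of_nonneg_left _ hD00
    linarith

/-- fourth moment -/
theorem two_b (N k : ℕ) (hN : 1 ≤ N) (C ε : ℝ) (hC : 1 ≤ C) (hε : 0 ≤ ε) (I : Finset ℕ)
    (hIk : I.card = k) (hI : GoodR N 2 k C ε I) (T : ℝ) (hT : 0 ≤ T) (hTQ : T ≤ (N : ℝ) ^ 2)
    (W : Finset ℝ) (hW : ∀ t ∈ W, 0 ≤ t ∧ t ≤ T) (hsep : Sep W) (a : ℕ → ℂ) :
    ∑ t ∈ W, ‖∑ n ∈ I, a n * ph t n‖ ^ 2 ≤
      (4 * (C * (N : ℝ) ^ ε * (W.card + 3 * (k * Real.sqrt W.card))) * ((Nat.log 2 k : ℝ) + 2) + W.card) *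
        ∑ n ∈ I, ‖a n‖ ^ 2 := by
  have hN1 : (1 : ℝ) ≤ N := by exact_mod_cast hN
  have hN0 : (0 : ℝ) < N := by linarith
  have hk0 : (0 : ℝ) ≤ k := Nat.cast_nonneg _
  apply lev_sum I k hIk a W _ (by positivity)
  intro V hV hGV
  obtain ⟨W', hW'⟩ : ∃ W' : Finset ℝ, W' = W.filter (fun t => V ≤ ‖∑ n ∈ I, a n * ph t n‖) := ⟨_, rfl⟩
  rw [← hW']
  have hsub : W' ⊆ W := by rw [hW']; exact filter_subset _ _
  have hcard : (W'.card : ℝ) ≤ W.card := by exact_mod_cast card_le_card hsub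
  have h1 := (hI T W' a hT hTQ (fun t ht => hW t (hsub ht)) (Sep.sub hsep hsub)).2 2 (by norm_num) le_rfl V hV
    (fun t ht => by
      rw [hW'] at ht
      exact (mem_filter.1 ht).2)
  obtain ⟨G, hG⟩ : ∃ G : ℝ, G = ∑ n ∈ I, ‖a n‖ ^ 2 := ⟨_, rfl⟩
  have hG0 : 0 ≤ G := by rw [hG]; exact sum_nonneg fun _ _ => sq_nonneg _
  rw [← hG] at h1 ⊢
  obtain ⟨D0, hD0⟩ : ∃ D0 : ℝ, D0 = C * (N : ℝ) ^ ε := ⟨_, rfl⟩
  have hD01 : 1 ≤ D0 := by
    rw [hD0]
    exact one_le_mul_of_one_le_of_one_le hC (Real.one_le_rpow hN1 hε)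
  have hD00 : 0 ≤ D0 := by linarith
  rw [← hD0] at h1 ⊢
  have hw'0 : (0 : ℝ) ≤ W'.card := Nat.cast_nonneg _
  have hw0 : (0 : ℝ) ≤ W.card := Nat.cast_nonneg _
  have hs0 : 0 ≤ Real.sqrt (W.card : ℝ) := Real.sqrt_nonneg _
  rcases h1 with h2 | h2
  · calc V ^ 2 * (W'.card : ℝ) ≤ (D0 * G) * W.card := mul_le_mul h2 hcard hw'0 (by positivity)
      _ = D0 * W.card * G := by ring
      _ ≤ D0 * (W.card + 3 * (k * Real.sqrt W.card)) * G := by
          apply mul_le_mul_of_nonneg_right _ hG0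
          apply mul_le_mul_of_nonneg_left _ hD00
          have : 0 ≤ k * Real.sqrt (W.card : ℝ) := by positivity
          linarith
  · rcases W'.eq_empty_or_nonempty with h0 | hne
    · rw [h0]
      simp only [card_empty, Nat.cast_zero, mul_zero]
      positivity
    have hV2 : 0 < V ^ 2 := by positivity
    have hw1 : (1 : ℝ) ≤ W'.card := by exact_mod_cast card_pos.2 hne
    obtain ⟨x, hx⟩ : ∃ x : ℝ, x = k * G / V ^ 2 := ⟨_, rfl⟩
    have hx0 : 0 ≤ x := by rw [hx]; positivity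
    have h3 : (W'.card : ℝ) ≤ D0 * (x + 2 * x ^ 2) := by
      refine h2.trans ?_
      apply mul_le_mul_of_nonneg_left _ hD00
      rw [← hx]
      have e1 : (k * G / (N * V ^ 2)) ^ 2 = x ^ 2 / (N : ℝ) ^ 2 := by
        rw [hx]
        field_simp
      rw [e1]
      have e2 : (T + (N : ℝ) ^ 2) * (x ^ 2 / (N : ℝ) ^ 2) ≤ (2 * (N : ℝ) ^ 2) * (x ^ 2 / (N : ℝ) ^ 2) := by
        apply mul_le_mul_of_nonneg_right _ (by positivity)
        linarith
      have e3 : (2 * (N : ℝ) ^ 2) * (x ^ 2 / (N : ℝ) ^ 2) = 2 * x ^ 2 := by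
        field_simp
      linarith
    obtain ⟨s, hs⟩ : ∃ s : ℝ, s = Real.sqrt (W'.card : ℝ) := ⟨_, rfl⟩
    have hs2 : s ^ 2 = W'.card := by rw [hs]; exact Real.sq_sqrt hw'0
    have hs1 : 1 ≤ s := by
      rw [hs]
      exact Real.one_le_sqrt.2 hw1
    have h4 : (W'.card : ℝ) ≤ 3 * D0 * x * s := by
      rcases le_total x 1 with hx1 | hx1
      · have h5 : (W'.card : ℝ) ≤ 3 * D0 * x := by
          refine h3.trans ?_
          have h6 : x + 2 * x ^ 2 ≤ 3 * x := by nlinarith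
          have := mul_le_mul_of_nonneg_left h6 hD00
          linarith
        have h7 : 3 * D0 * x ≤ 3 * D0 * x * s := le_mul_of_one_le_right (by positivity) hs1
        linarith
      · have h5 : (W'.card : ℝ) ≤ 3 * D0 * x ^ 2 := by
          refine h3.trans ?_
          have h6 : x + 2 * x ^ 2 ≤ 3 * x ^ 2 := by nlinarith
          have := mul_le_mul_of_nonneg_left h6 hD00
          linarith
        have h6 : s ≤ 3 * D0 * x := by
          have h7 : s ^ 2 ≤ (3 * D0 * x) ^ 2 := by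
            rw [hs2]
            refine h5.trans ?_
            have h8 : 3 * D0 * x ^ 2 ≤ (3 * D0) * (3 * D0 * x ^ 2) :=
              le_mul_of_one_le_left (by positivity) (by linarith)
            linarith
          exact (abs_le_of_sq_le_sq' h7 (by positivity)).2
        calc (W'.card : ℝ) = s * s := by rw [← hs2]; ring
          _ ≤ (3 * D0 * x) * s := mul_le_mul_of_nonneg_right h6 (by linarith)
    have h5 : s ≤ Real.sqrt (W.card : ℝ) := by rw [hs]; exact Real.sqrt_le_sqrt hcard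
    calc V ^ 2 * (W'.card : ℝ) ≤ V ^ 2 * (3 * D0 * x * s) := mul_le_mul_of_nonneg_left h4 hV2.le
      _ = 3 * D0 * (k * G) * s := by
          rw [hx]
          field_simp
      _ ≤ 3 * D0 * (k * G) * Real.sqrt (W.card : ℝ) := mul_le_mul_of_nonneg_left h5 (by positivity)
      _ ≤ D0 * (W.card + 3 * (k * Real.sqrt W.card)) * G := by
          have : 0 ≤ D0 * W.card * G := by positivity
          linarith

/-- the combined inequality -/
def LS2 (N k : ℕ) (C ε : ℝ) (I : Finset ℕ) : Prop :=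
  ∀ (T : ℝ) (W : Finset ℝ) (a : ℕ → ℂ), 0 ≤ T → T ≤ (N : ℝ) ^ 2 → (∀ t ∈ W, 0 ≤ t ∧ t ≤ T) → Sep W →
    ∑ t ∈ W, ‖∑ n ∈ I, a n * ph t n‖ ^ 2 ≤
      C * (N : ℝ) ^ ε * (W.card + k + k / N * min T (min (N * Real.sqrt W.card)
        (W.card * Real.sqrt T))) * ∑ n ∈ I, ‖a n‖ ^ 2

open Classical in
theorem ls2_count (ε A : ℝ) (hε : 0 < ε) (hA : 0 ≤ A) :
    ∃ C : ℝ, 1 ≤ C ∧ ∀ N k : ℕ, 1 ≤ N →
    (((powersetCard k (Icc 1 N)).filter (fun I => ¬ LS2 N k C ε I)).card : ℝ) ≤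
      (N : ℝ) ^ (-A) * ((powersetCard k (Icc 1 N)).card : ℝ) := by
  obtain ⟨C, hC, hcount⟩ := goodR_count (ε / 2) A (by positivity) hA 2 (by norm_num)
  obtain ⟨C3, hC3, hlg⟩ := log_pow3 (ε / 2) (by positivity)
  refine ⟨30 * C * C3, by nlinarith, ?_⟩
  intro N k hN
  have hN1 : (1 : ℝ) ≤ N := by exact_mod_cast hN
  have hN0 : (0 : ℝ) < N := by linarith
  have hk0 : (0 : ℝ) ≤ k := Nat.cast_nonneg _
  refine le_trans ?_ (hcount N k hN)
  have hsub : (powersetCard k (Icc 1 N)).filter (fun I => ¬ LS2 N k (30 * C * C3) ε I) ⊆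
      (powersetCard k (Icc 1 N)).filter (fun I => ¬ GoodR N 2 k C (ε / 2) I) := by
    intro I hI
    rw [mem_filter] at hI ⊢
    refine ⟨hI.1, fun hB => hI.2 ?_⟩
    have hIF := (mem_powersetCard.1 hI.1).1
    have hIk := (mem_powersetCard.1 hI.1).2
    have hkN : k ≤ N := by
      rw [← hIk]
      refine (card_le_card hIF).trans ?_
      rw [Nat.card_Icc]
      omega
    intro T W a hT hTN hW hsep
    have h1 := two_a N k hN C (ε / 2) hC I hIk hB T hT hTN W hW hsep a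
    have h2 := two_b N k hN C (ε / 2) hC (by positivity) I hIk hB T hT hTN W hW hsep a
    have h3 := (hB T W a hT hTN hW hsep).1
    obtain ⟨G, hG⟩ : ∃ G : ℝ, G = ∑ n ∈ I, ‖a n‖ ^ 2 := ⟨_, rfl⟩
    have hG0 : 0 ≤ G := by rw [hG]; exact sum_nonneg fun _ _ => sq_nonneg _
    rw [← hG] at h1 h2 h3 ⊢
    obtain ⟨w, hw⟩ : ∃ w : ℝ, w = (W.card : ℝ) := ⟨_, rfl⟩
    have hw0 : 0 ≤ w := by rw [hw]; exact Nat.cast_nonneg _
    rw [← hw] at h1 h2 h3 ⊢
    obtain ⟨z, hz⟩ : ∃ z : ℝ, z = (N : ℝ) ^ (ε / 2) := ⟨_, rfl⟩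
    have hz1 : 1 ≤ z := by rw [hz]; exact Real.one_le_rpow hN1 (by positivity)
    have hzz : (N : ℝ) ^ ε = z * z := by
      rw [hz, ← Real.rpow_add hN0]
      congr 1
      ring
    rw [← hz] at h1 h2 h3
    rw [hzz]
    obtain ⟨g, hg⟩ : ∃ g : ℝ, g = (Nat.log 2 k : ℝ) + 2 := ⟨_, rfl⟩
    rw [← hg] at h1 h2
    have hg1 : 1 ≤ g := by
      rw [hg]
      have : (0 : ℝ) ≤ (Nat.log 2 k : ℝ) := Nat.cast_nonneg _
      linarith
    have hgz : g ≤ 2 * C3 * z := by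
      have h4 : (Nat.log 2 k : ℝ) ≤ (Nat.log 2 N : ℝ) := by exact_mod_cast Nat.log_mono_right hkN
      have h5 := log2_leR N hN
      have hl0 : 0 ≤ Real.log N := Real.log_nonneg hN1
      have h6 : 1 + Real.log N ≤ (1 + Real.log N) ^ 3 := le_self_pow₀ (by linarith) (by norm_num)
      have h7 := hlg N hN
      rw [← hz] at h7
      rw [hg]
      linarith
    have hCz : 1 ≤ C * z := one_le_mul_of_one_le_of_one_le hC hz1
    have hCzg : C * z * g ≤ 2 * C * C3 * (z * z) := by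
      have := mul_le_mul_of_nonneg_left hgz (by positivity : 0 ≤ C * z)
      linarith
    have hCzg1 : 1 ≤ C * z * g := one_le_mul_of_one_le_of_one_le hCz hg1
    have key : ∀ m : ℝ, 0 ≤ m → ∑ t ∈ W, ‖∑ n ∈ I, a n * ph t n‖ ^ 2 ≤
        15 * (C * z * g) * (w + k + k / N * m) * G →
        ∑ t ∈ W, ‖∑ n ∈ I, a n * ph t n‖ ^ 2 ≤
          30 * C * C3 * (z * z) * (w + k + k / N * m) * G := by
      intro m hm h
      refine h.trans ?_
      apply mul_le_mul_of_nonneg_right _ hG0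
      apply mul_le_mul_of_nonneg_right _ (by positivity)
      linarith
    have hsw : 0 ≤ Real.sqrt w := Real.sqrt_nonneg _
    have ha : ∑ t ∈ W, ‖∑ n ∈ I, a n * ph t n‖ ^ 2 ≤
        15 * (C * z * g) * (w + k + k / N * T) * G := by
      refine h1.trans (mul_le_mul_of_nonneg_right ?_ hG0)
      have hpT : 0 ≤ (k : ℝ) / N * T := by positivity
      have e1 : 4 * (C * z * (w + 2 * k + k / N * T)) * g = (C * z * g) * (4 * (w + 2 * k + k / N * T)) := by
        ring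
      rw [e1]
      have h4 : w ≤ (C * z * g) * w := le_mul_of_one_le_left hw0 hCzg1
      have h5 : (C * z * g) * (4 * (w + 2 * k + k / N * T)) + (C * z * g) * w ≤
          (C * z * g) * (15 * (w + k + k / N * T)) := by
        rw [← mul_add]
        apply mul_le_mul_of_nonneg_left _ (by linarith)
        linarith
      linarith
    have hb : ∑ t ∈ W, ‖∑ n ∈ I, a n * ph t n‖ ^ 2 ≤
        15 * (C * z * g) * (w + k + k / N * (N * Real.sqrt w)) * G := by
      refine h2.trans (mul_le_mul_of_nonneg_right ?_ hG0)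
      have e0 : (k : ℝ) / N * (N * Real.sqrt w) = k * Real.sqrt w := by
        field_simp
      rw [e0]
      have hpT : 0 ≤ (k : ℝ) * Real.sqrt w := by positivity
      have e1 : 4 * (C * z * (w + 3 * (k * Real.sqrt w))) * g =
          (C * z * g) * (4 * (w + 3 * (k * Real.sqrt w))) := by ring
      rw [e1]
      have h4 : w ≤ (C * z * g) * w := le_mul_of_one_le_left hw0 hCzg1
      have h5 : (C * z * g) * (4 * (w + 3 * (k * Real.sqrt w))) + (C * z * g) * w ≤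
          (C * z * g) * (15 * (w + k + k * Real.sqrt w)) := by
        rw [← mul_add]
        apply mul_le_mul_of_nonneg_left _ (by linarith)
        linarith
      linarith
    have hc : ∑ t ∈ W, ‖∑ n ∈ I, a n * ph t n‖ ^ 2 ≤
        15 * (C * z * g) * (w + k + k / N * (w * Real.sqrt T)) * G := by
      refine h3.trans (mul_le_mul_of_nonneg_right ?_ hG0)
      have hsT : 0 ≤ Real.sqrt T := Real.sqrt_nonneg _
      have e1 : k + w * (1 + k / N * Real.sqrt T) = w + k + k / N * (w * Real.sqrt T) := by ring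
      rw [e1]
      apply mul_le_mul_of_nonneg_right _ (by positivity)
      have : C * z ≤ C * z * g := le_mul_of_one_le_right (by linarith) hg1
      linarith
    have hm0 : 0 ≤ min T (min (N * Real.sqrt w) (w * Real.sqrt T)) :=
      le_min hT (le_min (by positivity) (by positivity))
    apply key _ hm0
    rcases min_choice T (min (N * Real.sqrt w) (w * Real.sqrt T)) with h | h
    · rw [h]
      exact ha
    · rw [h]
      rcases min_choice ((N : ℝ) * Real.sqrt w) (w * Real.sqrt T) with h' | h'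
      · rw [h']
        exact hb
      · rw [h']
        exact hc
  exact_mod_cast card_le_card hsub

/-- the inequality of Q1 -/
theorem ls2_q1 (N k : ℕ) (hN : 1 ≤ N) (C ε : ℝ) (hC : 0 ≤ C) (I : Finset ℕ) (hIF : I ⊆ Icc 1 N)
    (hIk : I.card = k) (hI : LS2 N k C ε I) (T : ℝ) (hT : 0 ≤ T) (hTN : T ≤ (N : ℝ) ^ 2)
    (W : Finset ℝ) (hW : ∀ t ∈ W, 0 ≤ t ∧ t ≤ T) (hsep : Sep W) (a : ℕ → ℂ) (ha : ∀ n, ‖a n‖ ≤ 1)
    (hk : (k : ℝ) ^ 4 ≤ (N : ℝ) ^ 3 ∨ (k : ℝ) ^ 2 * T ≤ (N : ℝ) ^ 3) :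
    ∑ t ∈ W, ‖∑ n ∈ I, a n * ph t n‖ ^ 2 ≤ 2 * C * (N : ℝ) ^ ε * (N + W.card) * N := by
  have hN1 : (1 : ℝ) ≤ N := by exact_mod_cast hN
  have hN0 : (0 : ℝ) < N := by linarith
  have hk0 : (0 : ℝ) ≤ k := Nat.cast_nonneg _
  have hkN : (k : ℝ) ≤ N := by
    have h1 : k ≤ N := by
      rw [← hIk]
      refine (card_le_card hIF).trans ?_
      rw [Nat.card_Icc]
      omega
    exact_mod_cast h1
  have hG : ∑ n ∈ I, ‖a n‖ ^ 2 ≤ k := by
    rw [← hIk]
    calc ∑ n ∈ I, ‖a n‖ ^ 2 ≤ ∑ n ∈ I, (1 : ℝ) :=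
          sum_le_sum fun n _ => pow_le_one₀ (norm_nonneg _) (ha n)
      _ = _ := by simp
  have h1 := hI T W a hT hTN hW hsep
  obtain ⟨w, hw⟩ : ∃ w : ℝ, w = (W.card : ℝ) := ⟨_, rfl⟩
  have hw0 : 0 ≤ w := by rw [hw]; exact Nat.cast_nonneg _
  rw [← hw] at h1 ⊢
  have hsw : 0 ≤ Real.sqrt w := Real.sqrt_nonneg _
  have hsw2 : Real.sqrt w ^ 2 = w := Real.sq_sqrt hw0
  obtain ⟨m, hm⟩ : ∃ m : ℝ, m = min T (min (N * Real.sqrt w) (w * Real.sqrt T)) := ⟨_, rfl⟩
  have hm0 : 0 ≤ m := by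
    rw [hm]
    exact le_min hT (le_min (by positivity) (by positivity))
  rw [← hm] at h1
  have h2 : (w + k + k / N * m) * (∑ n ∈ I, ‖a n‖ ^ 2) ≤ 2 * (N + w) * N := by
    have h3 : (w + k + k / N * m) * (∑ n ∈ I, ‖a n‖ ^ 2) ≤ (w + k + k / N * m) * k :=
      mul_le_mul_of_nonneg_left hG (by positivity)
    have h4 : (w + k) * k ≤ (w + N) * N := mul_le_mul (by linarith) hkN hk0 (by positivity)
    have h5 : k / N * m * k ≤ (N + w) * N := by
      rcases hk with h6 | h6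
      · have h7 : m ≤ N * Real.sqrt w := by
          rw [hm]
          exact (min_le_right _ _).trans (min_le_left _ _)
        have h8 : k / N * m * k ≤ k / N * (N * Real.sqrt w) * k := by
          apply mul_le_mul_of_nonneg_right _ hk0
          exact mul_le_mul_of_nonneg_left h7 (by positivity)
        have h9 : (k : ℝ) / N * (N * Real.sqrt w) * k = (k : ℝ) ^ 2 * Real.sqrt w := by
          field_simp
        rw [h9] at h8
        refine h8.trans ?_
        have h10 : ((k : ℝ) ^ 2 * Real.sqrt w) ^ 2 ≤ ((N + w) * N) ^ 2 := by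
          calc ((k : ℝ) ^ 2 * Real.sqrt w) ^ 2 = (k : ℝ) ^ 4 * w := by
                rw [mul_pow, hsw2]
                ring
            _ ≤ (N : ℝ) ^ 3 * w := mul_le_mul_of_nonneg_right h6 hw0
            _ ≤ ((N + w) * N) ^ 2 := by
                have h11 : 0 ≤ (N : ℝ) ^ 3 * w := by positivity
                have h12 : 0 ≤ (N : ℝ) ^ 4 + (N : ℝ) ^ 2 * w ^ 2 := by positivity
                have : ((N + w) * (N : ℝ)) ^ 2 = (N : ℝ) ^ 4 + (N : ℝ) ^ 2 * w ^ 2 + 2 * ((N : ℝ) ^ 3 * w) := by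
                  ring
                linarith
        exact (abs_le_of_sq_le_sq' h10 (by positivity)).2
      · have h7 : m ≤ T := by
          rw [hm]
          exact min_le_left _ _
        have h8 : k / N * m * k ≤ k / N * T * k := by
          apply mul_le_mul_of_nonneg_right _ hk0
          exact mul_le_mul_of_nonneg_left h7 (by positivity)
        have h9 : (k : ℝ) / N * T * k = ((k : ℝ) ^ 2 * T) / N := by
          field_simp
        rw [h9] at h8
        refine h8.trans ?_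
        rw [div_le_iff₀ hN0]
        refine h6.trans ?_
        have : 0 ≤ w * (N : ℝ) * N := by positivity
        have e : (N + w) * (N : ℝ) * N = (N : ℝ) ^ 3 + w * N * N := by ring
        rw [e]
        linarith
    have h6 : (w + k + k / N * m) * k = (w + k) * k + k / N * m * k := by ring
    rw [h6] at h3
    linarith
  calc ∑ t ∈ W, ‖∑ n ∈ I, a n * ph t n‖ ^ 2
      ≤ C * (N : ℝ) ^ ε * ((w + k + k / N * m) * ∑ n ∈ I, ‖a n‖ ^ 2) := by
        refine h1.trans (le_of_eq ?_)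
        ring
    _ ≤ C * (N : ℝ) ^ ε * (2 * (N + w) * N) := mul_le_mul_of_nonneg_left h2 (by positivity)
    _ = _ := by ring

end Pool.Agent.Y959.Rs
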