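import Pool.Agent.Y959.Rs.RealD

set_option autoImplicit false

/-!
# Random supports: the number of large values
-/

namespace Pool.Agent.Y959.Rs

open Finset Pool.Agent.TH705.DL Pool.Agent.Y959.Her Pool.Agent.Y959.Smp

/-- large values, coefficients bounded by `1` -/
theorem lv_hm (N Q k : ℕ) (hN : 1 ≤ N) (C ε : ℝ) (hC : 1 ≤ C) (I : Finset ℕ)
    (hIk : I.card = k) (hI : GoodR N Q k C ε I) (T : ℝ) (hT : 0 ≤ T) (hTQ : T ≤ (N : ℝ) ^ Q)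
    (W : Finset ℝ) (hW : ∀ t ∈ W, 0 ≤ t ∧ t ≤ T) (hsep : Sep W) (a : ℕ → ℂ) (ha : ∀ n, ‖a n‖ ≤ 1)
    (V : ℝ) (hV : 0 < V) (hVW : ∀ t ∈ W, V ≤ ‖∑ n ∈ I, a n * ph t n‖)
    (hbig : 2 * C * (N : ℝ) ^ ε * (k * (1 + k / N * Real.sqrt T)) ≤ V ^ 2) :
    (W.card : ℝ) * V ^ 2 ≤ 2 * C * (N : ℝ) ^ ε * (k : ℝ) ^ 2 := by
  have hN1 : (1 : ℝ) ≤ N := by exact_mod_cast hN
  have hN0 : (0 : ℝ) < N := by linarith
  have hk0 : (0 : ℝ) ≤ k := Nat.cast_nonneg _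
  have hG : ∑ n ∈ I, ‖a n‖ ^ 2 ≤ k := by
    rw [← hIk]
    calc ∑ n ∈ I, ‖a n‖ ^ 2 ≤ ∑ n ∈ I, (1 : ℝ) :=
          sum_le_sum fun n _ => pow_le_one₀ (norm_nonneg _) (ha n)
      _ = _ := by simp
  have h1 := (hI T W a hT hTQ hW hsep).1
  obtain ⟨w, hw⟩ : ∃ w : ℝ, w = (W.card : ℝ) := ⟨_, rfl⟩
  have hw0 : 0 ≤ w := by rw [hw]; exact Nat.cast_nonneg _
  obtain ⟨ν, hν⟩ : ∃ ν : ℝ, ν = 1 + k / N * Real.sqrt T := ⟨_, rfl⟩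
  have hν0 : 0 ≤ ν := by rw [hν]; positivity
  obtain ⟨D0, hD0⟩ : ∃ D0 : ℝ, D0 = C * (N : ℝ) ^ ε := ⟨_, rfl⟩
  have hD00 : 0 ≤ D0 := by rw [hD0]; positivity
  rw [← hw, ← hν, ← hD0] at h1
  rw [← hν] at hbig
  rw [← hw]
  have h2 : w * V ^ 2 ≤ ∑ t ∈ W, ‖∑ n ∈ I, a n * ph t n‖ ^ 2 := by
    calc w * V ^ 2 = ∑ t ∈ W, V ^ 2 := by rw [sum_const, nsmul_eq_mul, hw]
      _ ≤ _ := sum_le_sum fun t ht => pow_le_pow_left₀ hV.le (hVW t ht) 2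
  have h3 : D0 * (k + w * ν) * ∑ n ∈ I, ‖a n‖ ^ 2 ≤ D0 * (k + w * ν) * k :=
    mul_le_mul_of_nonneg_left hG (by positivity)
  have h4 : w * V ^ 2 ≤ D0 * (k : ℝ) ^ 2 + w * (D0 * (k * ν)) := by
    refine (h2.trans (h1.trans h3)).trans (le_of_eq ?_)
    ring
  have h5 : 2 * (w * (D0 * (k * ν))) ≤ w * V ^ 2 := by
    have : 2 * (w * (D0 * (k * ν))) = w * (2 * C * (N : ℝ) ^ ε * (k * ν)) := by rw [hD0]; ring
    rw [this]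
    exact mul_le_mul_of_nonneg_left hbig hw0
  have e1 : 2 * C * (N : ℝ) ^ ε * (k : ℝ) ^ 2 = 2 * (D0 * (k : ℝ) ^ 2) := by rw [hD0]; ring
  rw [e1]
  linarith

/-- large values from the moments, coefficients bounded by `1` -/
theorem lv_mom (N Q k : ℕ) (hN : 1 ≤ N) (C ε : ℝ) (hC : 1 ≤ C) (I : Finset ℕ) (hIF : I ⊆ Icc 1 N)
    (hIk : I.card = k) (hI : GoodR N Q k C ε I) (T : ℝ) (hT : 0 ≤ T) (hTQ : T ≤ (N : ℝ) ^ Q)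
    (W : Finset ℝ) (hW : ∀ t ∈ W, 0 ≤ t ∧ t ≤ T) (hsep : Sep W) (a : ℕ → ℂ) (ha : ∀ n, ‖a n‖ ≤ 1)
    (V : ℝ) (hV : 0 < V) (hVW : ∀ t ∈ W, V ≤ ‖∑ n ∈ I, a n * ph t n‖)
    (κ : ℕ) (hκ1 : 1 ≤ κ) (hκQ : κ ≤ Q) (hTκ : T ≤ (N : ℝ) ^ κ)
    (hk : (k : ℝ) ^ κ ≤ N * V ^ (κ - 1)) (hbig : C * (N : ℝ) ^ ε * k < V ^ 2) :
    (W.card : ℝ) * V ^ 2 ≤ 3 * C * (N : ℝ) ^ ε * (N : ℝ) ^ 2 := by
  have hN1 : (1 : ℝ) ≤ N := by exact_mod_cast hN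
  have hN0 : (0 : ℝ) < N := by linarith
  have hk0 : (0 : ℝ) ≤ k := Nat.cast_nonneg _
  have hkN : (k : ℝ) ≤ N := by
    have h1 : k ≤ N := by
      rw [← hIk]
      refine (card_le_card hIF).trans ?_
      rw [Nat.card_Icc]
      omega
    exact_mod_cast h1
  have hG : ∑ n ∈ I, ‖a n‖ ^ 2 ≤ k := by
    rw [← hIk]
    calc ∑ n ∈ I, ‖a n‖ ^ 2 ≤ ∑ n ∈ I, (1 : ℝ) :=
          sum_le_sum fun n _ => pow_le_one₀ (norm_nonneg _) (ha n)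
      _ = _ := by simp
  have hG0 : 0 ≤ ∑ n ∈ I, ‖a n‖ ^ 2 := sum_nonneg fun _ _ => sq_nonneg _
  have hV2 : 0 < V ^ 2 := by positivity
  have hD00 : 0 ≤ C * (N : ℝ) ^ ε := by positivity
  rcases (hI T W a hT hTQ hW hsep).2 κ hκ1 hκQ V hV hVW with h1 | h1
  · exfalso
    have := mul_le_mul_of_nonneg_left hG hD00
    linarith
  · obtain ⟨G, hGd⟩ : ∃ G : ℝ, G = ∑ n ∈ I, ‖a n‖ ^ 2 := ⟨_, rfl⟩
    rw [← hGd] at h1 hG hG0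
    have hkG : k * G ≤ (k : ℝ) ^ 2 := by
      rw [sq]
      exact mul_le_mul_of_nonneg_left hG hk0
    have h2 : (T + (N : ℝ) ^ κ) * (k * G / (N * V ^ 2)) ^ κ ≤ 2 * ((N : ℝ) ^ 2 / V ^ 2) := by
      have h3 : (k * G / (N * V ^ 2)) ^ κ ≤ ((k : ℝ) ^ 2 / (N * V ^ 2)) ^ κ := by
        apply pow_le_pow_left₀ (by positivity)
        exact div_le_div_of_nonneg_right hkG (by positivity)
      have h4 : ((k : ℝ) ^ 2 / (N * V ^ 2)) ^ κ ≤ (N : ℝ) ^ 2 / V ^ 2 / (N : ℝ) ^ κ := by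
        have h5 : ((k : ℝ) ^ 2) ^ κ ≤ (N : ℝ) ^ 2 * (V ^ 2) ^ (κ - 1) := by
          calc ((k : ℝ) ^ 2) ^ κ = ((k : ℝ) ^ κ) ^ 2 := by rw [← pow_mul, ← pow_mul, mul_comm]
            _ ≤ (N * V ^ (κ - 1)) ^ 2 := pow_le_pow_left₀ (by positivity) hk 2
            _ = _ := by rw [mul_pow, ← pow_mul, ← pow_mul, mul_comm 2]
        rw [div_pow, mul_pow, div_div, div_le_div_iff₀ (by positivity) (by positivity)]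
        obtain ⟨j, hj⟩ : ∃ j, κ = j + 1 := ⟨κ - 1, by omega⟩
        have h6 : (V ^ 2) ^ κ = (V ^ 2) ^ (κ - 1) * V ^ 2 := by
          rw [hj, Nat.add_sub_cancel, pow_succ]
        have h7 := mul_le_mul_of_nonneg_right h5 (by positivity : 0 ≤ V ^ 2 * (N : ℝ) ^ κ)
        calc ((k : ℝ) ^ 2) ^ κ * (V ^ 2 * (N : ℝ) ^ κ) ≤
              (N : ℝ) ^ 2 * (V ^ 2) ^ (κ - 1) * (V ^ 2 * (N : ℝ) ^ κ) := h7
          _ = (N : ℝ) ^ 2 * ((N : ℝ) ^ κ * (V ^ 2) ^ κ) := by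
              rw [h6]
              ring
      calc (T + (N : ℝ) ^ κ) * (k * G / (N * V ^ 2)) ^ κ
          ≤ (2 * (N : ℝ) ^ κ) * ((N : ℝ) ^ 2 / V ^ 2 / (N : ℝ) ^ κ) :=
            mul_le_mul (by linarith) (h3.trans h4) (by positivity) (by positivity)
        _ = 2 * ((N : ℝ) ^ 2 / V ^ 2) := by
            field_simp
    have h3 : k * G / V ^ 2 ≤ (N : ℝ) ^ 2 / V ^ 2 := by
      apply div_le_div_of_nonneg_right _ hV2.le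
      exact hkG.trans (pow_le_pow_left₀ hk0 hkN 2)
    have h4 : (W.card : ℝ) ≤ C * (N : ℝ) ^ ε * (3 * ((N : ℝ) ^ 2 / V ^ 2)) := by
      refine h1.trans (mul_le_mul_of_nonneg_left ?_ hD00)
      linarith
    calc (W.card : ℝ) * V ^ 2 ≤ (C * (N : ℝ) ^ ε * (3 * ((N : ℝ) ^ 2 / V ^ 2))) * V ^ 2 :=
          mul_le_mul_of_nonneg_right h4 hV2.le
      _ = 3 * C * (N : ℝ) ^ ε * (N : ℝ) ^ 2 := by
          field_simp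

/-- conjugation -/
theorem conj_norm (I : Finset ℕ) (a : ℕ → ℂ) (t : ℝ) :
    ‖∑ n ∈ I, a n * ph (-t) n‖ = ‖∑ n ∈ I, (starRingEnd ℂ) (a n) * ph t n‖ := by
  rw [← Complex.norm_conj, map_sum]
  congr 1
  apply sum_congr rfl
  intro n _
  rw [map_mul, ph_conj, neg_neg]

end Pool.Agent.Y959.Rs
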