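import Pool.Agent.Y959.Rs.Core

set_option autoImplicit false

/-!
# The moment estimates on random supports
-/

namespace Pool.Agent.Y959.Rs

open Finset Pool.Agent.TH705.DL Pool.Agent.Y959.Her Pool.Agent.Y959.Smp

/-- the moments on an arbitrary set of the integers `0, …, T` -/
theorem moment_W (δ : ℝ) (hδ : 0 < δ) (κ : ℕ) : ∃ K : ℝ, 0 < K ∧ ∀ N T : ℕ, 1 ≤ N →
    ∀ (W : Finset (Fin (T + 1))) (a : ℕ → ℂ),
      ∑ i ∈ W, ‖∑ n ∈ Icc N (2 * N), a n * ex T i n‖ ^ (2 * κ) ≤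
        K * (N : ℝ) ^ δ * (T + (N : ℝ) ^ κ) * (∑ n ∈ Icc N (2 * N), ‖a n‖ ^ 2) ^ κ := by
  classical
  obtain ⟨K1, hK1, hK2⟩ := consts δ hδ κ
  refine ⟨K1 * 2 ^ δ * 2 ^ (κ + 1), by positivity, ?_⟩
  intro N T hN W a
  have hN1 : (1 : ℝ) ≤ N := by exact_mod_cast hN
  have hN0 : (0 : ℝ) < N := by linarith
  have hT0 : (0 : ℝ) ≤ T := Nat.cast_nonneg _
  have h2N : 1 ≤ 2 * N := by omega
  obtain ⟨D, hD1, hD2⟩ := hK2 (2 * N) h2N
  obtain ⟨a', ha'⟩ : ∃ a' : ℕ → ℂ, a' = fun n => if n ∈ Icc N (2 * N) then a n else 0 := ⟨_, rfl⟩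
  have hsub : Icc N (2 * N) ⊆ Icc 1 (2 * N) := Icc_subset_Icc_left hN
  have hDP : ∀ t : ℝ, DP (2 * N) a' t = ∑ n ∈ Icc N (2 * N), a n * ph t n := by
    intro t
    unfold DP
    rw [← sum_subset hsub]
    · apply sum_congr rfl
      intro n hn
      rw [ha']
      simp only [if_pos hn]
    · intro n _ hn
      rw [ha']
      simp only [if_neg hn, zero_mul]
  have hl2 : ∑ n ∈ Icc 1 (2 * N), ‖a' n‖ ^ 2 = ∑ n ∈ Icc N (2 * N), ‖a n‖ ^ 2 := by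
    rw [← sum_subset hsub]
    · apply sum_congr rfl
      intro n hn
      rw [ha']
      simp only [if_pos hn]
    · intro n _ hn
      rw [ha']
      simp only [if_neg hn, norm_zero]
      norm_num
  have hm := momentL (2 * N) h2N a' κ D hD1 (T + 1) (by omega) 0
  rw [hl2] at hm
  have hm2 := hD2 ((T + 1 : ℕ) : ℝ) (Nat.cast_nonneg _)
  obtain ⟨G, hG⟩ : ∃ G : ℝ, G = ∑ n ∈ Icc N (2 * N), ‖a n‖ ^ 2 := ⟨_, rfl⟩
  rw [← hG] at hm ⊢
  have hG0 : 0 ≤ G := by rw [hG]; exact sum_nonneg fun _ _ => sq_nonneg _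
  have h1 : ∑ i ∈ W, ‖∑ n ∈ Icc N (2 * N), a n * ex T i n‖ ^ (2 * κ) ≤
      ∑ u : Fin (T + 1), ‖DP (2 * N) a' (0 + ((u : ℕ) : ℝ))‖ ^ (2 * κ) := by
    refine le_trans (sum_le_sum_of_subset_of_nonneg (subset_univ W)
      (fun _ _ _ => pow_nonneg (norm_nonneg _) _)) (le_of_eq ?_)
    apply sum_congr rfl
    intro i _
    rw [hDP, zero_add]
    rfl
  refine h1.trans (hm.trans ?_)
  have hGk : 0 ≤ G ^ κ := pow_nonneg hG0 _
  calc _ = ((2 + Real.log (((2 * N : ℕ) : ℝ) ^ κ) ^ 2) * (((T + 1 : ℕ) : ℝ) +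
        4 * ((2 * N : ℕ) : ℝ) ^ κ * (1 + Real.log (((2 * N : ℕ) : ℝ) ^ κ))) * D ^ κ) * G ^ κ := by ring
    _ ≤ (K1 * ((2 * N : ℕ) : ℝ) ^ δ * (((T + 1 : ℕ) : ℝ) + ((2 * N : ℕ) : ℝ) ^ κ)) * G ^ κ :=
        mul_le_mul_of_nonneg_right hm2 hGk
    _ ≤ _ := by
        apply mul_le_mul_of_nonneg_right _ hGk
        have e1 : ((2 * N : ℕ) : ℝ) ^ δ = 2 ^ δ * (N : ℝ) ^ δ := by
          push_cast
          rw [Real.mul_rpow (by norm_num) hN0.le]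
        rw [e1]
        have e2 : (((T + 1 : ℕ) : ℝ) + ((2 * N : ℕ) : ℝ) ^ κ) ≤ 2 ^ (κ + 1) * (T + (N : ℝ) ^ κ) := by
          push_cast
          rw [mul_pow, pow_succ]
          have h3 : (1 : ℝ) ≤ 2 ^ κ := one_le_pow₀ (by norm_num)
          have h4 : (1 : ℝ) ≤ (N : ℝ) ^ κ := one_le_pow₀ hN1
          nlinarith [mul_nonneg (by linarith : (0 : ℝ) ≤ 2 ^ κ - 1) hT0,
            mul_nonneg (by linarith : (0 : ℝ) ≤ 2 ^ κ - 1) (by linarith : (0 : ℝ) ≤ (N : ℝ) ^ κ)]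
        have h5 := mul_le_mul_of_nonneg_left e2 (by positivity : 0 ≤ K1 * (2 ^ δ * (N : ℝ) ^ δ))
        linarith

/-- large values from the moments -/
theorem bas_mom (N T k κ : ℕ) (hN : 1 ≤ N) (hκ : 1 ≤ κ) (B : ℝ) (hB : 0 < B) (I : Finset ℕ)
    (hI : Bas N T k B I) (Gk : ℝ) (hGk : 0 ≤ Gk)
    (hmom : ∀ (W : Finset (Fin (T + 1))) (a : ℕ → ℂ),
      ∑ i ∈ W, ‖∑ n ∈ Icc N (2 * N), a n * ex T i n‖ ^ (2 * κ) ≤
        Gk * (∑ n ∈ Icc N (2 * N), ‖a n‖ ^ 2) ^ κ)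
    (W : Finset (Fin (T + 1))) (a : ℕ → ℂ) (V : ℝ) (hV : 0 < V)
    (hVW : ∀ i ∈ W, V ≤ ‖∑ n ∈ I, a n * ex T i n‖) :
    V ^ 2 ≤ 3 * B * ∑ n ∈ I, ‖a n‖ ^ 2 ∨
      (W.card : ℝ) ≤ 3 * B * (k * (∑ n ∈ I, ‖a n‖ ^ 2) / V ^ 2) +
        (3 * B) ^ κ * Gk * (k * (∑ n ∈ I, ‖a n‖ ^ 2) / (N * V ^ 2)) ^ κ := by
  have hN1 : (1 : ℝ) ≤ N := by exact_mod_cast hN
  have hN0 : (0 : ℝ) < N := by linarith
  have hk0 : (0 : ℝ) ≤ k := Nat.cast_nonneg _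
  obtain ⟨G, hG⟩ : ∃ G : ℝ, G = ∑ n ∈ I, ‖a n‖ ^ 2 := ⟨_, rfl⟩
  have hG0 : 0 ≤ G := by rw [hG]; exact sum_nonneg fun _ _ => sq_nonneg _
  rw [← hG]
  by_cases hbig : V ^ 2 ≤ 3 * B * G
  · exact Or.inl hbig
  right
  push Not at hbig
  rcases W.eq_empty_or_nonempty with h0 | hne
  · rw [h0]
    simp only [card_empty, Nat.cast_zero]
    positivity
  obtain ⟨b, hb⟩ := hI W a V hne hV.le hVW
  have hmd := moment_dual (ex T) (Icc N (2 * N)) W κ hκ Gk (hmom W) hGk b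
  have hw1 : (1 : ℝ) ≤ W.card := by exact_mod_cast card_pos.2 hne
  obtain ⟨S, hS⟩ : ∃ S : ℝ, S = ∑ n ∈ Icc N (2 * N), ‖∑ i ∈ W, phs (b i) * ex T i n‖ ^ 2 := ⟨_, rfl⟩
  have hS0 : 0 ≤ S := by rw [hS]; exact sum_nonneg fun _ _ => sq_nonneg _
  rw [← hG, ← hS] at hb
  rw [← hS] at hmd
  obtain ⟨w, hw⟩ : ∃ w : ℝ, w = (W.card : ℝ) := ⟨_, rfl⟩
  rw [← hw] at hb hmd hw1 ⊢
  obtain ⟨p, hp⟩ : ∃ p : ℝ, p = (k : ℝ) / (N + 1) := ⟨_, rfl⟩
  rw [← hp] at hb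
  have hp0 : 0 ≤ p := by rw [hp]; positivity
  have hpN : p ≤ k / N := by
    rw [hp]
    exact div_le_div_of_nonneg_left hk0 hN0 (by linarith)
  have hw0 : 0 < w := by linarith
  have hV2 : 0 < V ^ 2 := by positivity
  have h1 : V ^ 2 * w ^ 2 ≤ 3 / 2 * (B * G * (p * S + k)) := by
    have h2 : 3 * B * G * w ^ 2 ≤ V ^ 2 * w ^ 2 := mul_le_mul_of_nonneg_right hbig.le (sq_nonneg _)
    linarith
  rcases le_total (p * S) k with hc | hc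
  · have h3 : V ^ 2 * w ^ 2 ≤ 3 * B * (k * G) := by
      have h4 : B * G * (p * S + k) ≤ B * G * (2 * k) := by
        apply mul_le_mul_of_nonneg_left _ (by positivity)
        linarith
      linarith
    have h5 : w ≤ w ^ 2 := by nlinarith
    have h6 : w ≤ 3 * B * (k * G / V ^ 2) := by
      rw [mul_div_assoc', le_div_iff₀ hV2]
      nlinarith
    have h7 : 0 ≤ (3 * B) ^ κ * Gk * (k * G / (N * V ^ 2)) ^ κ := by positivity
    linarith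
  · have h3 : V ^ 2 * w ^ 2 ≤ 3 * B * G * (p * S) := by
      have h4 : B * G * (p * S + k) ≤ B * G * (2 * (p * S)) := by
        apply mul_le_mul_of_nonneg_left _ (by positivity)
        linarith
      linarith
    have h4 : V ^ 2 * w ^ 2 ≤ (3 * B * G * (k / N)) * S := by
      refine h3.trans ?_
      have := mul_le_mul_of_nonneg_left (mul_le_mul_of_nonneg_right hpN hS0)
        (by positivity : 0 ≤ 3 * B * G)
      linarith
    have h5 : (V ^ 2 * w ^ 2) ^ κ ≤ (3 * B * G * (k / N)) ^ κ * (w ^ (2 * κ - 1) * Gk) := by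
      refine (pow_le_pow_left₀ (by positivity) h4 κ).trans ?_
      rw [mul_pow]
      exact mul_le_mul_of_nonneg_left hmd (by positivity)
    have h6 : w ≤ (3 * B) ^ κ * Gk * (k * G / (N * V ^ 2)) ^ κ := by
      have e1 : (V ^ 2 * w ^ 2) ^ κ = (V ^ 2) ^ κ * (w ^ (2 * κ - 1) * w) := by
        rw [mul_pow, ← pow_mul w 2 κ, ← pow_succ]
        congr 2
        omega
      rw [e1] at h5
      have h7 : (V ^ 2) ^ κ * w ≤ (3 * B * G * (k / N)) ^ κ * Gk := by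
        have h8 : ((V ^ 2) ^ κ * w) * w ^ (2 * κ - 1) ≤
            ((3 * B * G * (k / N)) ^ κ * Gk) * w ^ (2 * κ - 1) := by linarith
        exact le_of_mul_le_mul_right h8 (by positivity)
      have e2 : (3 * B) ^ κ * Gk * (k * G / (N * V ^ 2)) ^ κ =
          ((3 * B * G * (k / N)) ^ κ * Gk) / (V ^ 2) ^ κ := by
        have e3 : k * G / (N * V ^ 2) = (G * (k / N)) / V ^ 2 := by
          field_simp
        rw [e3, div_pow, mul_assoc (3 * B) G, mul_pow (3 * B)]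
        field_simp
      rw [e2, le_div_iff₀ (by positivity)]
      linarith
    have h7 : 0 ≤ 3 * B * (k * G / V ^ 2) := by positivity
    linarith

end Pool.Agent.Y959.Rs
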