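import Pool.Agent.Y959.Rs.Cons
import Pool.Agent.Y959.Rs.Mk

set_option autoImplicit false

/-!
# The theorems for random supports
-/

namespace Pool.Agent.Y959.Rs

open Finset Pool.Agent.TH705.DL Pool.Agent.Y959.Her Pool.Agent.Y959.Smp

/-- the large sieve inequalities and the large value estimates -/
def Good1 (N T k Q : ℕ) (C ε : ℝ) (I : Finset ℕ) : Prop :=
  ∀ (W : Finset ℕ) (a : ℕ → ℂ), (∀ t ∈ W, t ≤ T) →
    (∑ t ∈ W, ‖∑ n ∈ I, a n * ph (t : ℝ) n‖ ^ 2 ≤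
      C * (N : ℝ) ^ ε * (k + W.card * (1 + k * (N : ℝ) ^ (-(1 / (4 * Q * 2 ^ Q) : ℝ)))) *
        ∑ n ∈ I, ‖a n‖ ^ 2) ∧
    ((T : ℝ) ≤ (N : ℝ) ^ 2 → ∑ t ∈ W, ‖∑ n ∈ I, a n * ph (t : ℝ) n‖ ^ 2 ≤
      C * (N : ℝ) ^ ε * (k + W.card * (1 + k / N * Real.sqrt T)) * ∑ n ∈ I, ‖a n‖ ^ 2) ∧
    (∀ κ : ℕ, 1 ≤ κ → κ ≤ Q → ∀ V : ℝ, 0 < V → (∀ t ∈ W, V ≤ ‖∑ n ∈ I, a n * ph (t : ℝ) n‖) →
      V ^ 2 ≤ C * (N : ℝ) ^ ε * ∑ n ∈ I, ‖a n‖ ^ 2 ∨
        (W.card : ℝ) ≤ C * (N : ℝ) ^ ε * (k * (∑ n ∈ I, ‖a n‖ ^ 2) / V ^ 2 +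
          (T + (N : ℝ) ^ κ) * (k * (∑ n ∈ I, ‖a n‖ ^ 2) / (N * V ^ 2)) ^ κ))

theorem conv (T : ℕ) (W : Finset ℕ) (hW : ∀ t ∈ W, t ≤ T) : ∃ W' : Finset (Fin (T + 1)),
    (∀ i, i ∈ W' ↔ (i : ℕ) ∈ W) ∧ W'.card = W.card ∧
      ∀ f : ℕ → ℝ, ∑ t ∈ W, f t = ∑ i ∈ W', f (i : ℕ) := by
  classical
  obtain ⟨W', hW'⟩ : ∃ W' : Finset (Fin (T + 1)), W' = univ.filter (fun i : Fin (T + 1) => (i : ℕ) ∈ W) := ⟨_, rfl⟩
  have hinj : Function.Injective (fun i : Fin (T + 1) => (i : ℕ)) := Fin.val_injective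
  have him : W = W'.image (fun i : Fin (T + 1) => (i : ℕ)) := by
    ext t
    rw [mem_image, hW']
    constructor
    · intro ht
      exact ⟨⟨t, by have := hW t ht; omega⟩, mem_filter.2 ⟨mem_univ _, ht⟩, rfl⟩
    · rintro ⟨i, hi, rfl⟩
      exact (mem_filter.1 hi).2
  refine ⟨W', ?_, ?_, ?_⟩
  · intro i
    rw [hW', mem_filter]
    simp
  · conv_rhs => rw [him]
    rw [card_image_of_injective _ hinj]
  · intro f
    conv_lhs => rw [him]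
    rw [sum_image (fun _ _ _ _ h => hinj h)]

open Classical in
theorem good1_count (ε A : ℝ) (hε : 0 < ε) (hA : 0 ≤ A) (Q : ℕ) (hQ : 1 ≤ Q) :
    ∃ C : ℝ, 1 ≤ C ∧ ∀ N T k : ℕ, 1 ≤ N → (T : ℝ) ≤ (N : ℝ) ^ Q →
    (((powersetCard k (Icc N (2 * N))).filter (fun I => ¬ Good1 N T k Q C ε I)).card : ℝ) ≤
      (N : ℝ) ^ (-A) * ((powersetCard k (Icc N (2 * N))).card : ℝ) := by
  have hQ1 : (1 : ℝ) ≤ Q := by exact_mod_cast hQ
  obtain ⟨ε1, hε1⟩ : ∃ ε1 : ℝ, ε1 = ε / (2 * (Q + 1)) := ⟨_, rfl⟩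
  have hε1p : 0 < ε1 := by rw [hε1]; positivity
  have hε1q : (Q : ℝ) * ε1 ≤ ε / 2 := by
    rw [hε1, mul_div_assoc', div_le_div_iff₀ (by positivity) (by norm_num)]
    nlinarith
  have hε14 : ε1 ≤ ε / 4 := by
    rw [hε1]
    exact div_le_div_of_nonneg_left hε.le (by norm_num) (by linarith)
  obtain ⟨C1, hC1, hcount⟩ := bas_count ε1 A hε1p hA Q
  obtain ⟨C2, hC2, hab⟩ := absorb2 (ε / 4) (by positivity) Q
  obtain ⟨C3, hC3, hkQ⟩ := ker_Q Q hQ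
  obtain ⟨C4, hC4, hlg⟩ := log_pow3 (ε / 4) (by positivity)
  choose K hK hKm using moment_W (ε / 2) (by positivity)
  obtain ⟨K0, hK0⟩ : ∃ K0 : ℝ, K0 = ∑ κ ∈ Icc 1 Q, K κ := ⟨_, rfl⟩
  have hK0le : ∀ κ, 1 ≤ κ → κ ≤ Q → K κ ≤ K0 := fun κ h1 h2 => by
    rw [hK0]
    exact single_le_sum (f := K) (fun j _ => (hK j).le) (mem_Icc.2 ⟨h1, h2⟩)
  have hK0p : 0 < K0 := lt_of_lt_of_le (hK 1) (hK0le 1 le_rfl hQ)
  obtain ⟨C, hCd⟩ : ∃ C : ℝ, C = C1 * C2 * (1 + C3) + 14 * (C1 * C2 * C4) + 3 * C1 +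
    (3 * C1) ^ Q * K0 := ⟨_, rfl⟩
  have p1 : 0 ≤ C1 * C2 * (1 + C3) := by positivity
  have p2 : 0 ≤ 14 * (C1 * C2 * C4) := by positivity
  have p3 : 0 ≤ (3 * C1) ^ Q * K0 := by positivity
  refine ⟨C, by rw [hCd]; linarith, ?_⟩
  intro N T k hN hT
  have hN1 : (1 : ℝ) ≤ N := by exact_mod_cast hN
  have hN0 : (0 : ℝ) < N := by linarith
  have hT0 : (0 : ℝ) ≤ T := Nat.cast_nonneg _
  have hk0 : (0 : ℝ) ≤ k := Nat.cast_nonneg _
  refine le_trans ?_ (hcount N T k hN hT)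
  have hsub : (powersetCard k (Icc N (2 * N))).filter (fun I => ¬ Good1 N T k Q C ε I) ⊆
      (powersetCard k (Icc N (2 * N))).filter (fun I => ¬ Bas N T k (C1 * (N : ℝ) ^ ε1) I) := by
    intro I hI
    rw [mem_filter] at hI ⊢
    refine ⟨hI.1, fun hB => hI.2 ?_⟩
    have hIF := (mem_powersetCard.1 hI.1).1
    have hIk := (mem_powersetCard.1 hI.1).2
    have hkN : k ≤ N + 1 := by
      rw [← hIk]
      refine (card_le_card hIF).trans ?_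
      rw [Nat.card_Icc]
      omega
    have hB1 : 1 ≤ C1 * (N : ℝ) ^ ε1 :=
      one_le_mul_of_one_le_of_one_le hC1 (Real.one_le_rpow hN1 hε1p.le)
    intro W a hW
    obtain ⟨W', hW'1, hW'2, hW'3⟩ := conv T W hW
    have hW'2' : (W'.card : ℝ) = W.card := by rw [hW'2]
    obtain ⟨G, hG⟩ : ∃ G : ℝ, G = ∑ n ∈ I, ‖a n‖ ^ 2 := ⟨_, rfl⟩
    have hG0 : 0 ≤ G := by rw [hG]; exact sum_nonneg fun _ _ => sq_nonneg _
    obtain ⟨w, hw⟩ : ∃ w : ℝ, w = (W.card : ℝ) := ⟨_, rfl⟩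
    have hw0 : 0 ≤ w := by rw [hw]; exact Nat.cast_nonneg _
    have hsum : ∑ t ∈ W, ‖∑ n ∈ I, a n * ph (t : ℝ) n‖ ^ 2 =
        ∑ i ∈ W', ‖∑ n ∈ I, a n * ex T i n‖ ^ 2 :=
      hW'3 (fun t => ‖∑ n ∈ I, a n * ph (t : ℝ) n‖ ^ 2)
    have hab' := hab N T k hN hT hkN
    have hls : ∀ μ : ℝ, 0 ≤ μ → Ker N T μ → ∑ t ∈ W, ‖∑ n ∈ I, a n * ph (t : ℝ) n‖ ^ 2 ≤
        C1 * C2 * ((N : ℝ) ^ (ε / 4) * (N : ℝ) ^ ε1) * (k + w * (1 + k / N * μ)) * G := by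
      intro μ hμ hK
      have h1 := bas_ls N T k hN (C1 * (N : ℝ) ^ ε1) hB1 I hB hIk μ hμ hK W' a
      rw [← hG, hW'2', ← hw] at h1
      rw [hsum]
      refine h1.trans ?_
      apply mul_le_mul_of_nonneg_right _ hG0
      have h2 : (k : ℝ) / (N + 1) * μ ≤ k / N * μ :=
        mul_le_mul_of_nonneg_right (div_le_div_of_nonneg_left hk0 hN0 (by linarith)) hμ
      have h3 : k + w * (1 + (k : ℝ) / (N + 1) * μ) ≤ k + w * (1 + k / N * μ) := by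
        have := mul_le_mul_of_nonneg_left h2 hw0
        linarith
      have h4 : 0 ≤ k + w * (1 + (k : ℝ) / (N + 1) * μ) := by positivity
      refine mul_le_mul ?_ h3 h4 (by positivity)
      calc 345 * (((Nat.log 2 k : ℝ) + 2) * (1 + Real.log ((T : ℝ) + 1))) * (C1 * (N : ℝ) ^ ε1)
          ≤ (C2 * (N : ℝ) ^ (ε / 4)) * (C1 * (N : ℝ) ^ ε1) :=
            mul_le_mul_of_nonneg_right hab' (by positivity)
        _ = _ := by ring
    have hNN1 : (N : ℝ) ^ (ε / 4) * (N : ℝ) ^ ε1 ≤ (N : ℝ) ^ ε := by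
      rw [← Real.rpow_add hN0]
      exact Real.rpow_le_rpow_of_exponent_le hN1 (by linarith)
    have hNN2 : (N : ℝ) ^ (ε / 4) * ((N : ℝ) ^ (ε / 4) * (N : ℝ) ^ ε1) ≤ (N : ℝ) ^ ε := by
      rw [← Real.rpow_add hN0, ← Real.rpow_add hN0]
      exact Real.rpow_le_rpow_of_exponent_le hN1 (by linarith)
    have hNε : 0 < (N : ℝ) ^ ε := Real.rpow_pos_of_pos hN0 _
    rw [← hG, ← hw]
    refine ⟨?_, ?_, ?_⟩
    · obtain ⟨η, hη⟩ : ∃ η : ℝ, η = 1 / (4 * Q * 2 ^ Q) := ⟨_, rfl⟩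
      have h1 := hls (C3 * (N : ℝ) ^ (1 - (1 / (4 * Q * 2 ^ Q) : ℝ))) (by positivity) (hkQ N hN T hT)
      rw [← hη] at h1 ⊢
      refine h1.trans ?_
      apply mul_le_mul_of_nonneg_right _ hG0
      have e1 : (k : ℝ) / N * (C3 * (N : ℝ) ^ (1 - η)) = C3 * (k * (N : ℝ) ^ (-η)) := by
        have : (N : ℝ) ^ (1 - η) = N * (N : ℝ) ^ (-η) := by
          rw [sub_eq_add_neg, Real.rpow_add hN0, Real.rpow_one]
        rw [this]
        field_simp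
      rw [e1]
      obtain ⟨y, hy⟩ : ∃ y : ℝ, y = k * (N : ℝ) ^ (-η) := ⟨_, rfl⟩
      have hy0 : 0 ≤ y := by rw [hy]; positivity
      rw [← hy]
      have h2 : k + w * (1 + C3 * y) ≤ (1 + C3) * (k + w * (1 + y)) := by
        have q1 := mul_nonneg hw0 hy0
        have q2 := mul_nonneg hC3.le hk0
        have q3 := mul_nonneg hC3.le hw0
        linarith only [q1, q2, q3]
      calc C1 * C2 * ((N : ℝ) ^ (ε / 4) * (N : ℝ) ^ ε1) * (k + w * (1 + C3 * y))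
          ≤ C1 * C2 * (N : ℝ) ^ ε * ((1 + C3) * (k + w * (1 + y))) := by
            apply mul_le_mul _ h2 (by positivity) (by positivity)
            exact mul_le_mul_of_nonneg_left hNN1 (by positivity)
        _ = (C1 * C2 * (1 + C3)) * (N : ℝ) ^ ε * (k + w * (1 + y)) := by ring
        _ ≤ C * (N : ℝ) ^ ε * (k + w * (1 + y)) := by
            apply mul_le_mul_of_nonneg_right _ (by positivity)
            apply mul_le_mul_of_nonneg_right _ hNε.le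
            rw [hCd]
            linarith only [p1, p2, p3, hC1]
    · intro hT2
      have h1 := hls (14 * Real.sqrt (T * (1 + Real.log N))) (by positivity) (ker_sqrt N hN T hT2)
      refine h1.trans ?_
      apply mul_le_mul_of_nonneg_right _ hG0
      have hl0 : 0 ≤ Real.log N := Real.log_nonneg hN1
      have h2 : Real.sqrt (T * (1 + Real.log N)) ≤ C4 * (N : ℝ) ^ (ε / 4) * Real.sqrt T := by
        rw [Real.sqrt_mul hT0, mul_comm]
        apply mul_le_mul_of_nonneg_right _ (Real.sqrt_nonneg _)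
        refine le_trans ?_ (hlg N hN)
        apply Real.sqrt_le_iff.2
        refine ⟨by positivity, ?_⟩
        have h3 : 1 ≤ 1 + Real.log N := by linarith
        calc 1 + Real.log N ≤ (1 + Real.log N) ^ 6 := le_self_pow₀ h3 (by norm_num)
          _ = _ := by ring
      obtain ⟨y, hy⟩ : ∃ y : ℝ, y = k / N * Real.sqrt T := ⟨_, rfl⟩
      have hy0 : 0 ≤ y := by rw [hy]; positivity
      obtain ⟨z, hz⟩ : ∃ z : ℝ, z = (N : ℝ) ^ (ε / 4) := ⟨_, rfl⟩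
      have hz1 : 1 ≤ z := by rw [hz]; exact Real.one_le_rpow hN1 (by positivity)
      rw [← hy]
      rw [← hz] at h2 hNN2 hNN1 ⊢
      have h3 : (k : ℝ) / N * (14 * Real.sqrt (T * (1 + Real.log N))) ≤ 14 * C4 * z * y := by
        rw [hy]
        have := mul_le_mul_of_nonneg_left h2 (by positivity : 0 ≤ 14 * ((k : ℝ) / N))
        linarith only [this]
      have hCz : 1 ≤ 14 * C4 * z :=
        one_le_mul_of_one_le_of_one_le (by linarith only [hC4]) hz1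
      have h4 : k + w * (1 + (k : ℝ) / N * (14 * Real.sqrt (T * (1 + Real.log N)))) ≤
          14 * C4 * z * (k + w * (1 + y)) := by
        have h5 := mul_le_mul_of_nonneg_left h3 hw0
        have h6 : (k : ℝ) ≤ 14 * C4 * z * k := le_mul_of_one_le_left hk0 hCz
        have h7 : w ≤ 14 * C4 * z * w := le_mul_of_one_le_left hw0 hCz
        linarith only [h5, h6, h7]
      calc C1 * C2 * (z * (N : ℝ) ^ ε1) *
            (k + w * (1 + (k : ℝ) / N * (14 * Real.sqrt (T * (1 + Real.log N)))))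
          ≤ C1 * C2 * (z * (N : ℝ) ^ ε1) * (14 * C4 * z * (k + w * (1 + y))) :=
            mul_le_mul_of_nonneg_left h4 (by positivity)
        _ = (14 * (C1 * C2 * C4)) * (z * (z * (N : ℝ) ^ ε1)) * (k + w * (1 + y)) := by ring
        _ ≤ (14 * (C1 * C2 * C4)) * (N : ℝ) ^ ε * (k + w * (1 + y)) := by
            apply mul_le_mul_of_nonneg_right _ (by positivity)
            exact mul_le_mul_of_nonneg_left hNN2 p2
        _ ≤ C * (N : ℝ) ^ ε * (k + w * (1 + y)) := by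
            apply mul_le_mul_of_nonneg_right _ (by positivity)
            apply mul_le_mul_of_nonneg_right _ hNε.le
            rw [hCd]
            linarith only [p1, p2, p3, hC1]
    · intro κ hκ1 hκQ V hV hVW
      have hmom : ∀ (W : Finset (Fin (T + 1))) (a : ℕ → ℂ),
          ∑ i ∈ W, ‖∑ n ∈ Icc N (2 * N), a n * ex T i n‖ ^ (2 * κ) ≤
            (K κ * (N : ℝ) ^ (ε / 2) * (T + (N : ℝ) ^ κ)) * (∑ n ∈ Icc N (2 * N), ‖a n‖ ^ 2) ^ κ :=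
        fun W a => hKm κ N T hN W a
      have hKκ := (hK κ).le
      have h1 := bas_mom N T k κ hN hκ1 (C1 * (N : ℝ) ^ ε1) (by positivity) I hB
        (K κ * (N : ℝ) ^ (ε / 2) * (T + (N : ℝ) ^ κ)) (by positivity) hmom W' a V hV
        (fun i hi => hVW i ((hW'1 i).1 hi))
      rw [← hG, hW'2', ← hw] at h1
      have hNe : (N : ℝ) ^ ε1 ≤ (N : ℝ) ^ ε := Real.rpow_le_rpow_of_exponent_le hN1 (by linarith)
      have h3C : 3 * (C1 * (N : ℝ) ^ ε1) ≤ C * (N : ℝ) ^ ε := by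
        calc 3 * (C1 * (N : ℝ) ^ ε1) = (3 * C1) * (N : ℝ) ^ ε1 := by ring
          _ ≤ C * (N : ℝ) ^ ε := by
            apply mul_le_mul _ hNe (by positivity) (by rw [hCd]; positivity)
            rw [hCd]
            linarith only [p1, p2, p3, hC1]
      rcases h1 with h2 | h2
      · left
        exact h2.trans (mul_le_mul_of_nonneg_right h3C hG0)
      · right
        refine h2.trans ?_
        rw [mul_add (C * (N : ℝ) ^ ε)]
        have hx : 0 ≤ k * G / V ^ 2 := by positivity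
        refine add_le_add (mul_le_mul_of_nonneg_right h3C hx) ?_
        obtain ⟨y, hy⟩ : ∃ y : ℝ, y = (k * G / (N * V ^ 2)) ^ κ := ⟨_, rfl⟩
        have hy0 : 0 ≤ y := by rw [hy]; positivity
        rw [← hy]
        have e1 : (3 * (C1 * (N : ℝ) ^ ε1)) ^ κ = (3 * C1) ^ κ * (N : ℝ) ^ (κ * ε1) := by
          rw [← mul_assoc, mul_pow, ← Real.rpow_natCast ((N : ℝ) ^ ε1) κ, ← Real.rpow_mul hN0.le]
          congr 2
          ring
        rw [e1]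
        have h4 : (3 * C1) ^ κ ≤ (3 * C1) ^ Q := pow_le_pow_right₀ (by linarith) hκQ
        have h5 : (N : ℝ) ^ (κ * ε1) * (N : ℝ) ^ (ε / 2) ≤ (N : ℝ) ^ ε := by
          rw [← Real.rpow_add hN0]
          apply Real.rpow_le_rpow_of_exponent_le hN1
          have h6 : (κ : ℝ) * ε1 ≤ Q * ε1 :=
            mul_le_mul_of_nonneg_right (by exact_mod_cast hκQ) hε1p.le
          linarith
        have h6 : (3 * C1) ^ κ * K κ ≤ (3 * C1) ^ Q * K0 :=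
          mul_le_mul h4 (hK0le κ hκ1 hκQ) hKκ (by positivity)
        calc (3 * C1) ^ κ * (N : ℝ) ^ (κ * ε1) * (K κ * (N : ℝ) ^ (ε / 2) * (T + (N : ℝ) ^ κ)) * y
            = ((3 * C1) ^ κ * K κ) * ((N : ℝ) ^ (κ * ε1) * (N : ℝ) ^ (ε / 2)) *
                ((T + (N : ℝ) ^ κ) * y) := by ring
          _ ≤ ((3 * C1) ^ Q * K0) * (N : ℝ) ^ ε * ((T + (N : ℝ) ^ κ) * y) := by
              apply mul_le_mul_of_nonneg_right _ (by positivity)
              exact mul_le_mul h6 h5 (by positivity) p3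
          _ ≤ C * (N : ℝ) ^ ε * ((T + (N : ℝ) ^ κ) * y) := by
              apply mul_le_mul_of_nonneg_right _ (by positivity)
              apply mul_le_mul_of_nonneg_right _ hNε.le
              rw [hCd]
              linarith only [p1, p2, p3, hC1]
  exact_mod_cast card_le_card hsub

/-- Montgomery's bound for the sparse random supports -/
theorem mont1 (ε : ℝ) (hε : 0 < ε) (Q : ℕ) (hQ : 1 ≤ Q) (C : ℝ) (hC : 1 ≤ C) (N T k : ℕ) (hN : 1 ≤ N)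
    (hT : (T : ℝ) ≤ (N : ℝ) ^ Q) (I : Finset ℕ) (hIF : I ⊆ Icc N (2 * N)) (hIk : I.card = k)
    (hI : Good1 N T k Q C ε I) (W : Finset ℕ) (hW : ∀ t ∈ W, t ≤ T) (a : ℕ → ℂ) (ha : ∀ n, ‖a n‖ ≤ 1)
    (σ : ℝ) (hσ : 1 / 2 + ε ≤ σ) (κ : ℕ) (hκ1 : 1 ≤ κ) (hκQ : κ ≤ Q) (hTκ : (T : ℝ) ≤ (N : ℝ) ^ κ)
    (hk : (k : ℝ) ≤ (N : ℝ) ^ (1 - (1 - 1 / (κ : ℝ)) * (1 - σ)))
    (hVW : ∀ t ∈ W, (N : ℝ) ^ σ < ‖∑ n ∈ I, a n * ph (t : ℝ) n‖) :
    (W.card : ℝ) ≤ (8 * (2 * C) ^ ((Q : ℝ) / ε) + 6 * C) * (N : ℝ) ^ (2 - 2 * σ + ε) := by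
  have hN1 : (1 : ℝ) ≤ N := by exact_mod_cast hN
  have hN0 : (0 : ℝ) < N := by linarith
  have hk0 : (0 : ℝ) ≤ k := Nat.cast_nonneg _
  have hκ1' : (1 : ℝ) ≤ κ := by exact_mod_cast hκ1
  have hkN : (k : ℝ) ≤ 2 * N := by
    have h1 : k ≤ N + 1 := by
      rw [← hIk]
      refine (card_le_card hIF).trans ?_
      rw [Nat.card_Icc]
      omega
    have h2 : (k : ℝ) ≤ N + 1 := by exact_mod_cast h1
    linarith
  rcases W.eq_empty_or_nonempty with h0 | ⟨t0, ht0⟩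
  · rw [h0]
    simp only [card_empty, Nat.cast_zero]
    positivity
  have hG : ∑ n ∈ I, ‖a n‖ ^ 2 ≤ k := by
    rw [← hIk]
    calc ∑ n ∈ I, ‖a n‖ ^ 2 ≤ ∑ n ∈ I, (1 : ℝ) :=
          sum_le_sum fun n _ => pow_le_one₀ (norm_nonneg _) (ha n)
      _ = _ := by simp
  have hG0 : 0 ≤ ∑ n ∈ I, ‖a n‖ ^ 2 := sum_nonneg fun _ _ => sq_nonneg _
  obtain ⟨G, hGd⟩ : ∃ G : ℝ, G = ∑ n ∈ I, ‖a n‖ ^ 2 := ⟨_, rfl⟩
  have hV2 : ((N : ℝ) ^ σ) ^ 2 = (N : ℝ) ^ (2 * σ) := by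
    rw [← Real.rpow_natCast ((N : ℝ) ^ σ) 2, ← Real.rpow_mul hN0.le]
    congr 1
    push_cast
    ring
  have hVp : 0 < (N : ℝ) ^ σ := Real.rpow_pos_of_pos hN0 _
  have hquart : 1 / 4 ≤ (N : ℝ) ^ (2 - 2 * σ) := by
    have h1 : ‖∑ n ∈ I, a n * ph (t0 : ℝ) n‖ ≤ k := by
      rw [← hIk]
      refine (norm_sum_le _ _).trans ?_
      calc ∑ n ∈ I, ‖a n * ph (t0 : ℝ) n‖ ≤ ∑ n ∈ I, (1 : ℝ) := by
            apply sum_le_sum
            intro n _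
            rw [norm_mul, ph_norm, mul_one]
            exact ha n
        _ = _ := by simp
    have h2 : (N : ℝ) ^ σ ≤ 2 * N := ((hVW t0 ht0).le.trans h1).trans hkN
    have h3 : (N : ℝ) ^ (2 * σ) ≤ 4 * (N : ℝ) ^ 2 := by
      rw [← hV2]
      calc ((N : ℝ) ^ σ) ^ 2 ≤ (2 * (N : ℝ)) ^ 2 := pow_le_pow_left₀ hVp.le h2 2
        _ = _ := by ring
    have h4 : (N : ℝ) ^ (2 - 2 * σ) = (N : ℝ) ^ 2 / (N : ℝ) ^ (2 * σ) := by
      rw [Real.rpow_sub hN0]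
      congr 1
      rw [← Real.rpow_natCast]
      norm_num
    rw [h4, div_le_div_iff₀ (by norm_num) (by positivity)]
    linarith
  have hsplit : (N : ℝ) ^ (2 - 2 * σ + ε) = (N : ℝ) ^ (2 - 2 * σ) * (N : ℝ) ^ ε := Real.rpow_add hN0 _ _
  have hNε1 : 1 ≤ (N : ℝ) ^ ε := Real.one_le_rpow hN1 hε.le
  have hC0 : 0 < C := by linarith
  have hbp : 0 ≤ (2 * C) ^ ((Q : ℝ) / ε) := by positivity
  rcases (hI W a hW).2.2 κ hκ1 hκQ ((N : ℝ) ^ σ) hVp (fun t ht => (hVW t ht).le) with h1 | h1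
  · -- bounded `N`
    rw [hV2] at h1
    have h2 : (N : ℝ) ^ ε ≤ 2 * C := by
      have h3 : (N : ℝ) ^ (1 + 2 * ε) ≤ (2 * C) * (N : ℝ) ^ (1 + ε) := by
        calc (N : ℝ) ^ (1 + 2 * ε) ≤ (N : ℝ) ^ (2 * σ) :=
              Real.rpow_le_rpow_of_exponent_le hN1 (by linarith)
          _ ≤ C * (N : ℝ) ^ ε * (2 * N) := by
              refine h1.trans (mul_le_mul_of_nonneg_left (hG.trans hkN) (by positivity))
          _ = (2 * C) * (N : ℝ) ^ (1 + ε) := by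
              rw [Real.rpow_add hN0, Real.rpow_one]
              ring
      have h4 : (N : ℝ) ^ (1 + 2 * ε) = (N : ℝ) ^ ε * (N : ℝ) ^ (1 + ε) := by
        rw [← Real.rpow_add hN0]
        congr 1
        ring
      rw [h4] at h3
      exact le_of_mul_le_mul_right h3 (by positivity)
    have h3 : (N : ℝ) ^ Q ≤ (2 * C) ^ ((Q : ℝ) / ε) := by
      have h4 : (N : ℝ) ^ Q = ((N : ℝ) ^ ε) ^ ((Q : ℝ) / ε) := by
        rw [← Real.rpow_mul hN0.le, ← Real.rpow_natCast]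
        congr 1
        field_simp
      rw [h4]
      exact Real.rpow_le_rpow (by positivity) h2 (by positivity)
    have h4 : (W.card : ℝ) ≤ T + 1 := by
      have h5 : W ⊆ range (T + 1) := fun t ht => mem_range.2 (by have := hW t ht; omega)
      have := card_le_card h5
      rw [card_range] at this
      exact_mod_cast this
    have hNQ : (1 : ℝ) ≤ (N : ℝ) ^ Q := one_le_pow₀ hN1
    have h5 : (W.card : ℝ) ≤ 2 * (2 * C) ^ ((Q : ℝ) / ε) := by linarith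
    rw [hsplit]
    have h6 : 1 / 4 ≤ (N : ℝ) ^ (2 - 2 * σ) * (N : ℝ) ^ ε := by nlinarith
    have h7 : 0 ≤ 6 * C * ((N : ℝ) ^ (2 - 2 * σ) * (N : ℝ) ^ ε) := by positivity
    nlinarith [mul_le_mul_of_nonneg_left h6 (by positivity : 0 ≤ 8 * (2 * C) ^ ((Q : ℝ) / ε))]
  · rw [← hGd] at h1 hG hG0
    rw [hV2] at h1
    have hP : 0 < (N : ℝ) ^ (2 * σ) := Real.rpow_pos_of_pos hN0 _
    have h2 : k * G / (N : ℝ) ^ (2 * σ) ≤ 4 * (N : ℝ) ^ (2 - 2 * σ) := by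
      have h3 : (k : ℝ) * G ≤ 4 * (N : ℝ) ^ 2 := by
        calc (k : ℝ) * G ≤ (2 * N) * (2 * N) := mul_le_mul hkN (hG.trans hkN) hG0 (by positivity)
          _ = _ := by ring
      have h4 : (N : ℝ) ^ (2 - 2 * σ) = (N : ℝ) ^ 2 / (N : ℝ) ^ (2 * σ) := by
        rw [Real.rpow_sub hN0]
        congr 1
        rw [← Real.rpow_natCast]
        norm_num
      rw [h4, mul_div_assoc']
      exact div_le_div_of_nonneg_right h3 hP.le
    have h3 : (T + (N : ℝ) ^ κ) * (k * G / (N * (N : ℝ) ^ (2 * σ))) ^ κ ≤ 2 * (N : ℝ) ^ (2 - 2 * σ) := by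
      obtain ⟨θ, hθ⟩ : ∃ θ : ℝ, θ = 1 - (1 - 1 / (κ : ℝ)) * (1 - σ) := ⟨_, rfl⟩
      rw [← hθ] at hk
      have h4 : (k : ℝ) * G ≤ (N : ℝ) ^ (2 * θ) := by
        have h5 : (N : ℝ) ^ (2 * θ) = (N : ℝ) ^ θ * (N : ℝ) ^ θ := by
          rw [← Real.rpow_add hN0]
          congr 1
          ring
        rw [h5]
        exact mul_le_mul hk (hG.trans hk) hG0 (by positivity)
      have h6 : k * G / (N * (N : ℝ) ^ (2 * σ)) ≤ (N : ℝ) ^ (2 * θ - 1 - 2 * σ) := by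
        rw [Real.rpow_sub hN0, Real.rpow_sub hN0, Real.rpow_one, div_div]
        exact div_le_div_of_nonneg_right h4 (by positivity)
      have h7 : (k * G / (N * (N : ℝ) ^ (2 * σ))) ^ κ ≤ (N : ℝ) ^ ((2 * θ - 1 - 2 * σ) * κ) := by
        rw [Real.rpow_mul hN0.le (2 * θ - 1 - 2 * σ) (κ : ℝ), Real.rpow_natCast _ κ]
        exact pow_le_pow_left₀ (by positivity) h6 κ
      have h8 : (T + (N : ℝ) ^ κ) ≤ 2 * (N : ℝ) ^ ((κ : ℝ)) := by
        rw [Real.rpow_natCast]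
        linarith
      calc (T + (N : ℝ) ^ κ) * (k * G / (N * (N : ℝ) ^ (2 * σ))) ^ κ
          ≤ (2 * (N : ℝ) ^ ((κ : ℝ))) * (N : ℝ) ^ ((2 * θ - 1 - 2 * σ) * κ) :=
            mul_le_mul h8 h7 (by positivity) (by positivity)
        _ = 2 * ((N : ℝ) ^ ((κ : ℝ)) * (N : ℝ) ^ ((2 * θ - 1 - 2 * σ) * κ)) := by ring
        _ = 2 * (N : ℝ) ^ (2 - 2 * σ) := by
            rw [← Real.rpow_add hN0]
            congr 2
            rw [hθ]
            field_simp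
            ring
    rw [hsplit]
    have h9 : C * (N : ℝ) ^ ε * (k * G / (N : ℝ) ^ (2 * σ) +
        (T + (N : ℝ) ^ κ) * (k * G / (N * (N : ℝ) ^ (2 * σ))) ^ κ) ≤
        C * (N : ℝ) ^ ε * (6 * (N : ℝ) ^ (2 - 2 * σ)) := by
      apply mul_le_mul_of_nonneg_left _ (by positivity)
      linarith
    refine (h1.trans h9).trans ?_
    have h10 : 0 ≤ 8 * (2 * C) ^ ((Q : ℝ) / ε) * ((N : ℝ) ^ (2 - 2 * σ) * (N : ℝ) ^ ε) := by positivity
    linarith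

end Pool.Agent.Y959.Rs
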