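import Pool.Agent.Y959.Smp.Pr

set_option autoImplicit false

/-!
# Random subsets of fixed size
-/

namespace Pool.Agent.Y959.Rs

open Finset Pool.Agent.Y959.Her

theorem choose_step (N k r : ℕ) (hk : k ≤ N) (hr : r ≤ k) :
    (((N - r).choose (k - r) : ℕ) : ℝ) * (N : ℝ) ^ r ≤ (k : ℝ) ^ r * ((N.choose k : ℕ) : ℝ) := by
  induction r with
  | zero => simp
  | succ r ih =>
    have ih' := ih (by omega)
    obtain ⟨a, ha⟩ : ∃ a, N - r = a + 1 := ⟨N - r - 1, by omega⟩
    obtain ⟨b, hb⟩ : ∃ b, k - r = b + 1 := ⟨k - r - 1, by omega⟩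
    have ha' : N - (r + 1) = a := by omega
    have hb' : k - (r + 1) = b := by omega
    rw [ha', hb']
    rw [ha, hb] at ih'
    have h1 := Nat.add_one_mul_choose_eq a b
    have h1' : ((a : ℝ) + 1) * ((a.choose b : ℕ) : ℝ) =
        (((a + 1).choose (b + 1) : ℕ) : ℝ) * ((b : ℝ) + 1) := by
      exact_mod_cast h1
    have ha1 : (a : ℝ) + 1 = N - r := by
      have : ((a + 1 : ℕ) : ℝ) = ((N - r : ℕ) : ℝ) := by rw [ha]
      rw [Nat.cast_sub (by omega)] at this
      push_cast at this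
      linarith
    have hb1 : (b : ℝ) + 1 = k - r := by
      have : ((b + 1 : ℕ) : ℝ) = ((k - r : ℕ) : ℝ) := by rw [hb]
      rw [Nat.cast_sub (by omega)] at this
      push_cast at this
      linarith
    have hk' : (k : ℝ) ≤ N := by exact_mod_cast hk
    have ha0 : (0 : ℝ) < (a : ℝ) + 1 := by positivity
    have h2 : (N : ℝ) * ((b : ℝ) + 1) ≤ k * ((a : ℝ) + 1) := by
      rw [ha1, hb1]
      have : (0 : ℝ) ≤ r := Nat.cast_nonneg _
      nlinarith
    -- N choose' ≤ k choose
    have h3 : (N : ℝ) * ((a.choose b : ℕ) : ℝ) ≤ k * (((a + 1).choose (b + 1) : ℕ) : ℝ) := by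
      have h4 : ((a : ℝ) + 1) * (N * ((a.choose b : ℕ) : ℝ)) ≤
          ((a : ℝ) + 1) * (k * (((a + 1).choose (b + 1) : ℕ) : ℝ)) := by
        calc ((a : ℝ) + 1) * (N * ((a.choose b : ℕ) : ℝ)) = N * (((a : ℝ) + 1) * ((a.choose b : ℕ) : ℝ)) := by
              ring
          _ = (N * ((b : ℝ) + 1)) * (((a + 1).choose (b + 1) : ℕ) : ℝ) := by rw [h1']; ring
          _ ≤ (k * ((a : ℝ) + 1)) * (((a + 1).choose (b + 1) : ℕ) : ℝ) :=
              mul_le_mul_of_nonneg_right h2 (Nat.cast_nonneg _)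
          _ = _ := by ring
      exact le_of_mul_le_mul_left h4 ha0
    calc (((a.choose b : ℕ) : ℝ)) * (N : ℝ) ^ (r + 1) = (N * ((a.choose b : ℕ) : ℝ)) * (N : ℝ) ^ r := by
          ring
      _ ≤ (k * (((a + 1).choose (b + 1) : ℕ) : ℝ)) * (N : ℝ) ^ r :=
          mul_le_mul_of_nonneg_right h3 (by positivity)
      _ = k * ((((a + 1).choose (b + 1) : ℕ) : ℝ) * (N : ℝ) ^ r) := by ring
      _ ≤ k * ((k : ℝ) ^ r * ((N.choose k : ℕ) : ℝ)) :=
          mul_le_mul_of_nonneg_left ih' (Nat.cast_nonneg _)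
      _ = _ := by ring

theorem superset_count (F : Finset ℕ) (k : ℕ) (Q : Finset ℕ) (hQ : Q ⊆ F) :
    (((powersetCard k F).filter (fun I => Q ⊆ I)).card : ℝ) * (F.card : ℝ) ^ Q.card ≤
      (k : ℝ) ^ Q.card * ((F.card.choose k : ℕ) : ℝ) := by
  by_cases h : Q.card ≤ k ∧ k ≤ F.card
  · have h1 : ((powersetCard k F).filter (fun I => Q ⊆ I)).card ≤
        (F.card - Q.card).choose (k - Q.card) := by
      have h2 : (powersetCard (k - Q.card) (F \ Q)).card = (F.card - Q.card).choose (k - Q.card) := by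
        rw [card_powersetCard, card_sdiff_of_subset hQ]
      rw [← h2]
      apply card_le_card_of_injOn (fun I => I \ Q)
      · intro I hI
        rw [mem_coe, mem_filter, mem_powersetCard] at hI
        rw [mem_coe, mem_powersetCard]
        refine ⟨sdiff_subset_sdiff hI.1.1 (Subset.refl _), ?_⟩
        rw [card_sdiff_of_subset hI.2, hI.1.2]
      · intro I hI I' hI' he
        rw [mem_coe, mem_filter] at hI hI'
        have he' : I \ Q = I' \ Q := he
        rw [← sdiff_union_of_subset hI.2, ← sdiff_union_of_subset hI'.2, he']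
    have h3 : (((powersetCard k F).filter (fun I => Q ⊆ I)).card : ℝ) ≤
        (((F.card - Q.card).choose (k - Q.card) : ℕ) : ℝ) := by exact_mod_cast h1
    exact (mul_le_mul_of_nonneg_right h3 (by positivity)).trans
      (choose_step F.card k Q.card h.2 h.1)
  · have h1 : (powersetCard k F).filter (fun I => Q ⊆ I) = ∅ := by
      rw [filter_eq_empty_iff]
      intro I hI hQI
      rw [mem_powersetCard] at hI
      apply h
      have h2 := card_le_card hQI
      have h3 := card_le_card hI.1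
      omega
    rw [h1]
    simp only [card_empty, Nat.cast_zero, zero_mul]
    positivity

/-- few sets `I` meet a given set `B` in many points -/
theorem bad_one (F : Finset ℕ) (hF : F.Nonempty) (k : ℕ) (B : Finset ℕ) (hB : B ⊆ F) (r : ℕ)
    (hr : 9 * ((k : ℝ) / F.card * B.card) ≤ r) :
    (((powersetCard k F).filter (fun I => r ≤ (I ∩ B).card)).card : ℝ) ≤
      ((3 : ℝ)⁻¹) ^ r * ((F.card.choose k : ℕ) : ℝ) := by
  have hFc : (0 : ℝ) < F.card := by exact_mod_cast card_pos.2 hF
  have hsub : (powersetCard k F).filter (fun I => r ≤ (I ∩ B).card) ⊆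
      (powersetCard r B).biUnion (fun Q => (powersetCard k F).filter (fun I => Q ⊆ I)) := by
    intro I hI
    rw [mem_filter] at hI
    obtain ⟨Q, hQ, hQc⟩ := exists_subset_card_eq hI.2
    rw [mem_biUnion]
    exact ⟨Q, mem_powersetCard.2 ⟨hQ.trans inter_subset_right, hQc⟩,
      mem_filter.2 ⟨hI.1, hQ.trans inter_subset_left⟩⟩
  have h1 : (((powersetCard k F).filter (fun I => r ≤ (I ∩ B).card)).card : ℝ) ≤
      ∑ Q ∈ powersetCard r B, (((powersetCard k F).filter (fun I => Q ⊆ I)).card : ℝ) := by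
    exact_mod_cast (card_le_card hsub).trans card_biUnion_le
  have h2 : ∀ Q ∈ powersetCard r B, (((powersetCard k F).filter (fun I => Q ⊆ I)).card : ℝ) ≤
      ((k : ℝ) / F.card) ^ r * ((F.card.choose k : ℕ) : ℝ) := by
    intro Q hQ
    rw [mem_powersetCard] at hQ
    have h3 := superset_count F k Q (hQ.1.trans hB)
    rw [hQ.2] at h3
    rw [div_pow, div_mul_eq_mul_div, le_div_iff₀ (by positivity)]
    exact h3
  refine h1.trans ((sum_le_sum h2).trans ?_)
  rw [sum_const, nsmul_eq_mul, card_powersetCard]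
  have h4 : ((B.card.choose r : ℕ) : ℝ) ≤ (B.card : ℝ) ^ r / r.factorial :=
    Nat.choose_le_pow_div r B.card
  have h5 := Pool.Agent.Y959.Smp.fact_bound r ((k : ℝ) / F.card * B.card) (by positivity) 3
    (by norm_num) (by linarith)
  calc ((B.card.choose r : ℕ) : ℝ) * (((k : ℝ) / F.card) ^ r * ((F.card.choose k : ℕ) : ℝ))
      ≤ ((B.card : ℝ) ^ r / r.factorial) * (((k : ℝ) / F.card) ^ r * ((F.card.choose k : ℕ) : ℝ)) :=
        mul_le_mul_of_nonneg_right h4 (by positivity)
    _ = (((k : ℝ) / F.card * B.card) ^ r / r.factorial) * ((F.card.choose k : ℕ) : ℝ) := by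
        rw [mul_pow]; ring
    _ ≤ _ := mul_le_mul_of_nonneg_right h5 (by positivity)

section good

variable {ι : Type*} [Fintype ι]

/-- the sum belonging to a code -/
noncomputable def gsum (e : ι → ℕ → ℂ) {m : ℕ} (c : Fin m → ι × Fin 4) (n : ℕ) : ℂ :=
  ∑ l, phs (c l).2 * e (c l).1 n

open Classical in
/-- the good sets of frequencies -/
def GoodI (F : Finset ℕ) (e : ι → ℕ → ℂ) (k : ℕ) (Lam : ℝ) (I : Finset ℕ) : Prop :=
  ∀ (m : ℕ) (c : Fin m → ι × Fin 4) (v : ℝ), 1 ≤ m →
    ((I.filter (fun n => v ≤ ‖gsum e c n‖)).card : ℝ) ≤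
      9 * ((k : ℝ) / F.card * ((F.filter (fun n => v ≤ ‖gsum e c n‖)).card : ℝ)) + m * Lam + 1

open Classical in
theorem good_count (F : Finset ℕ) (hF : F.Nonempty) (e : ι → ℕ → ℂ) (k : ℕ) (δ : ℝ) (hδ : 0 < δ)
    (hδ1 : δ ≤ 1) (hι : 1 ≤ Fintype.card ι) :
    (((powersetCard k F).filter (fun I => ¬ GoodI F e k
      (Real.log (8 * Fintype.card ι * F.card ^ 2 / δ)) I)).card : ℝ) ≤
        δ * ((F.card.choose k : ℕ) : ℝ) := by
  have hFc : (1 : ℝ) ≤ F.card := by exact_mod_cast card_pos.2 hF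
  have hιc : (1 : ℝ) ≤ Fintype.card ι := by exact_mod_cast hι
  obtain ⟨Lam, hLam⟩ : ∃ Lam, Lam = Real.log (8 * Fintype.card ι * F.card ^ 2 / δ) := ⟨_, rfl⟩
  rw [← hLam]
  have harg : (8 : ℝ) ≤ 8 * Fintype.card ι * F.card ^ 2 / δ := by
    rw [le_div_iff₀ hδ]
    have h1 : (1 : ℝ) ≤ Fintype.card ι * F.card ^ 2 :=
      one_le_mul_of_one_le_of_one_le hιc (one_le_pow₀ hFc)
    nlinarith
  have hLam2 : 1 ≤ Lam := by
    rw [hLam, Real.le_log_iff_exp_le (by linarith)]
    have := Real.exp_one_lt_d9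
    linarith
  have hexp : Real.exp (-Lam) = δ / (8 * Fintype.card ι * F.card ^ 2) := by
    rw [Real.exp_neg, hLam, Real.exp_log (by linarith), inv_div]
  -- the superlevel sets
  set B : (m : ℕ) → (Fin m → ι × Fin 4) → ℕ → Finset ℕ := fun m c n0 =>
    F.filter (fun n => ‖gsum e c n0‖ ≤ ‖gsum e c n‖) with hB
  set rr : (m : ℕ) → (Fin m → ι × Fin 4) → ℕ → ℕ := fun m c n0 =>
    ⌈9 * ((k : ℝ) / F.card * ((B m c n0).card : ℝ)) + m * Lam⌉₊ with hrr
  have hsub : (powersetCard k F).filter (fun I => ¬ GoodI F e k Lam I) ⊆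
      (Icc 1 F.card).biUnion (fun m => (univ : Finset (Fin m → ι × Fin 4)).biUnion (fun c =>
        F.biUnion (fun n0 => (powersetCard k F).filter (fun I => rr m c n0 ≤ (I ∩ B m c n0).card)))) := by
    intro I hI
    rw [mem_filter] at hI
    obtain ⟨hIk, hbad⟩ := hI
    have hIF := (mem_powersetCard.1 hIk).1
    unfold GoodI at hbad
    push Not at hbad
    obtain ⟨m, c, v, hm, hlt⟩ := hbad
    have hkF : (0 : ℝ) ≤ 9 * ((k : ℝ) / F.card * ((F.filter (fun n => v ≤ ‖gsum e c n‖)).card : ℝ)) := by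
      positivity
    have hmL : (m : ℝ) ≤ m * Lam := by
      have : (0 : ℝ) ≤ m := Nat.cast_nonneg _
      nlinarith
    have hIpos : 0 < (I.filter (fun n => v ≤ ‖gsum e c n‖)).card := by
      have h1 : (0 : ℝ) < ((I.filter (fun n => v ≤ ‖gsum e c n‖)).card : ℝ) := by
        have : (0 : ℝ) ≤ m := Nat.cast_nonneg _
        linarith
      exact_mod_cast h1
    have hsubF : I.filter (fun n => v ≤ ‖gsum e c n‖) ⊆ F.filter (fun n => v ≤ ‖gsum e c n‖) :=
      filter_subset_filter _ hIF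
    have hne : (F.filter (fun n => v ≤ ‖gsum e c n‖)).Nonempty :=
      (card_pos.1 hIpos).mono hsubF
    obtain ⟨n0, hn0, hmin⟩ := exists_min_image _ (fun n => ‖gsum e c n‖) hne
    have hBe : B m c n0 = F.filter (fun n => v ≤ ‖gsum e c n‖) := by
      rw [hB]
      ext n
      rw [mem_filter, mem_filter]
      constructor
      · rintro ⟨h1, h2⟩
        exact ⟨h1, (mem_filter.1 hn0).2.trans h2⟩
      · rintro ⟨h1, h2⟩
        exact ⟨h1, hmin n (mem_filter.2 ⟨h1, h2⟩)⟩
    have hIB : I ∩ B m c n0 = I.filter (fun n => v ≤ ‖gsum e c n‖) := by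
      rw [hBe]
      ext n
      rw [mem_inter, mem_filter, mem_filter]
      constructor
      · rintro ⟨h1, h2, h3⟩
        exact ⟨h1, h3⟩
      · rintro ⟨h1, h2⟩
        exact ⟨h1, hIF h1, h2⟩
    have hmF : m ≤ F.card := by
      have h1 : ((I.filter (fun n => v ≤ ‖gsum e c n‖)).card : ℝ) ≤ F.card := by
        exact_mod_cast (card_le_card hsubF).trans (card_filter_le _ _)
      have h2 : (m : ℝ) ≤ F.card := by linarith
      exact_mod_cast h2
    rw [mem_biUnion]
    refine ⟨m, mem_Icc.2 ⟨hm, hmF⟩, ?_⟩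
    rw [mem_biUnion]
    refine ⟨c, mem_univ _, ?_⟩
    rw [mem_biUnion]
    refine ⟨n0, (mem_filter.1 hn0).1, mem_filter.2 ⟨hIk, ?_⟩⟩
    rw [hIB, hrr]
    simp only
    rw [hBe]
    apply Nat.ceil_le.2
    linarith
  have h1 : (((powersetCard k F).filter (fun I => ¬ GoodI F e k Lam I)).card : ℝ) ≤
      ∑ m ∈ Icc 1 F.card, ∑ c : Fin m → ι × Fin 4, ∑ n0 ∈ F,
        (((powersetCard k F).filter (fun I => rr m c n0 ≤ (I ∩ B m c n0).card)).card : ℝ) := by
    have h2 := (card_le_card hsub).trans card_biUnion_le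
    refine le_trans (by exact_mod_cast h2 : _ ≤ ((∑ m ∈ Icc 1 F.card,
      ((univ : Finset (Fin m → ι × Fin 4)).biUnion (fun c =>
        F.biUnion (fun n0 => (powersetCard k F).filter
          (fun I => rr m c n0 ≤ (I ∩ B m c n0).card)))).card : ℕ) : ℝ)) ?_
    push_cast
    apply sum_le_sum
    intro m _
    refine le_trans (by exact_mod_cast card_biUnion_le : _ ≤ ((∑ c : Fin m → ι × Fin 4,
      (F.biUnion (fun n0 => (powersetCard k F).filter
          (fun I => rr m c n0 ≤ (I ∩ B m c n0).card))).card : ℕ) : ℝ)) ?_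
    push_cast
    apply sum_le_sum
    intro c _
    exact_mod_cast card_biUnion_le
  refine h1.trans ?_
  obtain ⟨Ck, hCk⟩ : ∃ Ck : ℝ, Ck = ((F.card.choose k : ℕ) : ℝ) := ⟨_, rfl⟩
  have hCk0 : 0 ≤ Ck := by rw [hCk]; exact Nat.cast_nonneg _
  rw [← hCk]
  have h2 : ∀ m ∈ Icc 1 F.card, ∑ c : Fin m → ι × Fin 4, ∑ n0 ∈ F,
        (((powersetCard k F).filter (fun I => rr m c n0 ≤ (I ∩ B m c n0).card)).card : ℝ) ≤
      δ / F.card * Ck := by
    intro m hm
    have hm1 := (mem_Icc.1 hm).1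
    have h3 : ∀ (c : Fin m → ι × Fin 4), ∀ n0 ∈ F,
        (((powersetCard k F).filter (fun I => rr m c n0 ≤ (I ∩ B m c n0).card)).card : ℝ) ≤
          (δ / (8 * Fintype.card ι * F.card ^ 2)) ^ m * Ck := by
      intro c n0 _
      have h4 := bad_one F hF k (B m c n0) (filter_subset _ _) (rr m c n0) (by
        refine le_trans ?_ (Nat.le_ceil _)
        have : 0 ≤ (m : ℝ) * Lam := by positivity
        linarith)
      rw [← hCk] at h4
      refine h4.trans (mul_le_mul_of_nonneg_right ?_ hCk0)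
      rw [← hexp, ← Real.exp_nat_mul]
      have h5 : (3 : ℝ)⁻¹ ≤ Real.exp (-1) := by
        rw [Real.exp_neg]
        exact inv_anti₀ (Real.exp_pos _) (by linarith [Real.exp_one_lt_d9])
      calc ((3 : ℝ)⁻¹) ^ (rr m c n0) ≤ (Real.exp (-1)) ^ (rr m c n0) :=
            pow_le_pow_left₀ (by norm_num) h5 _
        _ = Real.exp (-(rr m c n0 : ℝ)) := by
            rw [← Real.exp_nat_mul]
            congr 1
            ring
        _ ≤ Real.exp (m * -Lam) := by
            apply Real.exp_le_exp.2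
            have h6 : (m : ℝ) * Lam ≤ rr m c n0 := by
              refine le_trans ?_ (Nat.le_ceil _)
              have : (0 : ℝ) ≤ 9 * ((k : ℝ) / F.card * ((B m c n0).card : ℝ)) := by positivity
              linarith
            linarith
    calc ∑ c : Fin m → ι × Fin 4, ∑ n0 ∈ F,
          (((powersetCard k F).filter (fun I => rr m c n0 ≤ (I ∩ B m c n0).card)).card : ℝ)
        ≤ ∑ c : Fin m → ι × Fin 4, ∑ n0 ∈ F, (δ / (8 * Fintype.card ι * F.card ^ 2)) ^ m * Ck :=
          sum_le_sum fun c _ => sum_le_sum (h3 c)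
      _ = (4 * Fintype.card ι : ℝ) ^ m * (F.card * ((δ / (8 * Fintype.card ι * F.card ^ 2)) ^ m * Ck)) := by
          rw [sum_const, sum_const, nsmul_eq_mul, nsmul_eq_mul, card_univ, Fintype.card_fun,
            Fintype.card_prod, Fintype.card_fin, Fintype.card_fin]
          push_cast
          rw [mul_comm (4 : ℝ)]
      _ = (δ / (2 * F.card ^ 2)) ^ m * (F.card * Ck) := by
          have e : (4 * Fintype.card ι : ℝ) ^ m * (δ / (8 * Fintype.card ι * F.card ^ 2)) ^ m =
              (δ / (2 * F.card ^ 2)) ^ m := by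
            rw [← mul_pow]
            congr 1
            have : (Fintype.card ι : ℝ) ≠ 0 := by linarith
            field_simp
            ring
          rw [← e]
          ring
      _ ≤ (δ / (2 * F.card ^ 2)) * (F.card * Ck) := by
          apply mul_le_mul_of_nonneg_right _ (by positivity)
          have h7 : δ / (2 * (F.card : ℝ) ^ 2) ≤ 1 := by
            rw [div_le_one (by positivity)]
            have : (1 : ℝ) ≤ (F.card : ℝ) ^ 2 := one_le_pow₀ hFc
            linarith
          exact pow_le_of_le_one (by positivity) h7 (by omega)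
      _ ≤ δ / F.card * Ck := by
          have e : δ / (2 * (F.card : ℝ) ^ 2) * (F.card * Ck) = (δ / F.card * Ck) / 2 := by
            field_simp
          rw [e]
          have : 0 ≤ δ / F.card * Ck := by positivity
          linarith
  refine (sum_le_sum h2).trans ?_
  rw [sum_const, nsmul_eq_mul, Nat.card_Icc, Nat.add_sub_cancel]
  have : (F.card : ℝ) * (δ / F.card * Ck) = δ * Ck := by
    field_simp
  rw [this]

end good

end Pool.Agent.Y959.Rs
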