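import Pool.Agent.Y959.Rs.Core

set_option autoImplicit false

/-!
# Consequences: the large sieve and the large value estimates on random supports
-/

namespace Pool.Agent.Y959.Rs

open Finset Pool.Agent.TH705.DL Pool.Agent.Y959.Her

theorem absorb2 (ε : ℝ) (hε : 0 < ε) (Q : ℕ) : ∃ C : ℝ, 1 ≤ C ∧ ∀ N T k : ℕ, 1 ≤ N →
    (T : ℝ) ≤ (N : ℝ) ^ Q → k ≤ N + 1 →
      345 * (((Nat.log 2 k : ℝ) + 2) * (1 + Real.log ((T : ℝ) + 1))) ≤ C * (N : ℝ) ^ ε := by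
  obtain ⟨C, hC, h⟩ := log_pow3 ε hε
  refine ⟨345 * (4 * (2 + Q)) * C, ?_, ?_⟩
  · have h1 : (0 : ℝ) ≤ Q := Nat.cast_nonneg _
    nlinarith
  intro N T k hN hT hk
  have hN1 : (1 : ℝ) ≤ N := by exact_mod_cast hN
  have hN0 : (0 : ℝ) < N := by linarith
  have hQ0 : (0 : ℝ) ≤ Q := Nat.cast_nonneg _
  have hlogs : Real.log 2 < 0.6931471808 := Real.log_two_lt_d9
  have hlogs' : 0.6931471803 < Real.log 2 := Real.log_two_gt_d9
  have hl0 : 0 ≤ Real.log N := Real.log_nonneg hN1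
  obtain ⟨L, hL⟩ : ∃ L : ℝ, L = 1 + Real.log N := ⟨_, rfl⟩
  have hL1 : 1 ≤ L := by linarith
  have hT0 : (0 : ℝ) ≤ T := Nat.cast_nonneg _
  have a1 : (Nat.log 2 k : ℝ) + 2 ≤ 4 * L := by
    rcases Nat.eq_zero_or_pos k with h0 | h0
    · rw [h0]
      simp only [Nat.log_zero_right, Nat.cast_zero]
      linarith
    · have h2 : 2 ^ (Nat.log 2 k) ≤ k := Nat.pow_log_le_self 2 (by omega)
      have h3 : ((2 : ℝ)) ^ (Nat.log 2 k) ≤ 2 * N := by
        have h4 : ((2 : ℝ)) ^ (Nat.log 2 k) ≤ k := by exact_mod_cast h2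
        have h5 : (k : ℝ) ≤ N + 1 := by exact_mod_cast hk
        linarith
      have h6 := Real.log_le_log (by positivity) h3
      rw [Real.log_pow, Real.log_mul (by norm_num) hN0.ne'] at h6
      have h7 : (Nat.log 2 k : ℝ) ≤ 1 + 2 * Real.log N := by
        by_contra hcon
        push Not at hcon
        nlinarith
      linarith
  have a2 : 1 + Real.log ((T : ℝ) + 1) ≤ (2 + Q) * L := by
    have hNQ : (1 : ℝ) ≤ (N : ℝ) ^ Q := one_le_pow₀ hN1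
    have h1 := Real.log_le_log (by positivity) (by linarith : (T : ℝ) + 1 ≤ 2 * (N : ℝ) ^ Q)
    rw [Real.log_mul (by norm_num) (by positivity), Real.log_pow] at h1
    have h4 : 0 ≤ (Q : ℝ) * (L - Real.log N) := mul_nonneg hQ0 (by linarith)
    nlinarith
  have a2' : 0 ≤ 1 + Real.log ((T : ℝ) + 1) := by
    have := Real.log_nonneg (by linarith : 1 ≤ (T : ℝ) + 1)
    linarith
  calc 345 * (((Nat.log 2 k : ℝ) + 2) * (1 + Real.log ((T : ℝ) + 1))) ≤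
        345 * ((4 * L) * ((2 + Q) * L)) := by
        apply mul_le_mul_of_nonneg_left _ (by norm_num)
        exact mul_le_mul a1 a2 a2' (by positivity)
    _ = 345 * (4 * (2 + Q)) * L ^ 2 := by ring
    _ ≤ 345 * (4 * (2 + Q)) * L ^ 3 := by
        apply mul_le_mul_of_nonneg_left _ (by positivity)
        exact pow_le_pow_right₀ hL1 (by norm_num)
    _ ≤ 345 * (4 * (2 + Q)) * (C * (N : ℝ) ^ ε) := by
        apply mul_le_mul_of_nonneg_left _ (by positivity)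
        rw [hL]
        exact h N hN
    _ = _ := by ring

/-- large values from the kernel -/
theorem bas_lv (N T k : ℕ) (hN : 1 ≤ N) (B : ℝ) (hB : 0 ≤ B) (I : Finset ℕ) (hI : Bas N T k B I)
    (μ : ℝ) (hμ : 0 ≤ μ) (hK : Ker N T μ) (W : Finset (Fin (T + 1))) (a : ℕ → ℂ) (V : ℝ) (hV : 0 ≤ V)
    (hVW : ∀ i ∈ W, V ≤ ‖∑ n ∈ I, a n * ex T i n‖) :
    V ^ 2 * W.card ≤ B * (∑ n ∈ I, ‖a n‖ ^ 2) *
      (86 * (1 + Real.log ((T : ℝ) + 1)) * k + W.card * (1 + (k : ℝ) / (N + 1) * μ)) := by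
  have hN1 : (1 : ℝ) ≤ N := by exact_mod_cast hN
  have hG0 : 0 ≤ ∑ n ∈ I, ‖a n‖ ^ 2 := sum_nonneg fun _ _ => sq_nonneg _
  have hT0 : (0 : ℝ) ≤ T := Nat.cast_nonneg _
  have hk0 : (0 : ℝ) ≤ k := Nat.cast_nonneg _
  obtain ⟨Lg, hLg⟩ : ∃ Lg : ℝ, Lg = 1 + Real.log ((T : ℝ) + 1) := ⟨_, rfl⟩
  have hLg1 : 1 ≤ Lg := by
    rw [hLg]
    have := Real.log_nonneg (by linarith : 1 ≤ (T : ℝ) + 1)
    linarith
  rw [← hLg]
  rcases W.eq_empty_or_nonempty with h0 | hne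
  · rw [h0]
    simp only [card_empty, Nat.cast_zero, mul_zero, zero_mul, add_zero]
    exact mul_nonneg (mul_nonneg hB hG0) (by positivity)
  obtain ⟨b, hb⟩ := hI W a V hne hV hVW
  have hw1 : (1 : ℝ) ≤ W.card := by exact_mod_cast card_pos.2 hne
  have h1 := halasz N T μ hμ hK W b
  rw [← hLg] at h1
  obtain ⟨w, hw⟩ : ∃ w : ℝ, w = (W.card : ℝ) := ⟨_, rfl⟩
  rw [← hw] at h1 hb hw1 ⊢
  obtain ⟨S, hS⟩ : ∃ S : ℝ, S = ∑ n ∈ Icc N (2 * N), ‖∑ i ∈ W, phs (b i) * ex T i n‖ ^ 2 := ⟨_, rfl⟩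
  have h1' : S ≤ w * (N + 1 + 84 * N * Lg + w * μ) := by
    rw [hS]
    exact h1
  rw [← hS] at hb
  obtain ⟨p, hp⟩ : ∃ p : ℝ, p = (k : ℝ) / (N + 1) := ⟨_, rfl⟩
  rw [← hp] at hb ⊢
  have hp0 : 0 ≤ p := by rw [hp]; positivity
  have hpN : p * (N + 1) = k := by
    rw [hp]
    field_simp
  have h2 : p * S ≤ w * (85 * Lg * k + w * (p * μ)) := by
    have h3 := mul_le_mul_of_nonneg_left h1' hp0
    have h4 : p * (w * (N + 1 + 84 * N * Lg + w * μ)) = w * (p * (N + 1) + 84 * (p * N) * Lg + w * (p * μ)) := by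
      ring
    rw [h4, hpN] at h3
    have h5 : p * N ≤ k := by
      rw [← hpN]
      nlinarith
    have h6 : 84 * (p * N) * Lg ≤ 84 * k * Lg := by
      apply mul_le_mul_of_nonneg_right _ (by linarith)
      linarith
    have h7 : (k : ℝ) ≤ k * Lg := le_mul_of_one_le_right hk0 hLg1
    refine h3.trans ?_
    apply mul_le_mul_of_nonneg_left _ (by linarith)
    linarith
  have h8 : (k : ℝ) ≤ w * (Lg * k) := by
    have h9 : (k : ℝ) ≤ Lg * k := le_mul_of_one_le_left hk0 hLg1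
    have h10 : Lg * k ≤ w * (Lg * k) := le_mul_of_one_le_left (by positivity) hw1
    linarith
  have h11 : p * S + w ^ 2 + k ≤ w * (86 * Lg * k + w * (1 + p * μ)) := by
    have : w * (86 * Lg * k + w * (1 + p * μ)) = w * (85 * Lg * k + w * (p * μ)) + w ^ 2 + w * (Lg * k) := by
      ring
    rw [this]
    linarith
  have h12 := hb.trans (mul_le_mul_of_nonneg_left h11 (mul_nonneg hB hG0))
  have h13 : (V ^ 2 * w) * w ≤ (B * (∑ n ∈ I, ‖a n‖ ^ 2) * (86 * Lg * k + w * (1 + p * μ))) * w := by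
    calc (V ^ 2 * w) * w = V ^ 2 * w ^ 2 := by ring
      _ ≤ _ := h12
      _ = _ := by ring
  exact le_of_mul_le_mul_right h13 (by linarith)

/-- the large sieve from the kernel -/
theorem bas_ls (N T k : ℕ) (hN : 1 ≤ N) (B : ℝ) (hB : 1 ≤ B) (I : Finset ℕ) (hI : Bas N T k B I)
    (hIk : I.card = k)
    (μ : ℝ) (hμ : 0 ≤ μ) (hK : Ker N T μ) (W : Finset (Fin (T + 1))) (a : ℕ → ℂ) :
    ∑ i ∈ W, ‖∑ n ∈ I, a n * ex T i n‖ ^ 2 ≤
      345 * (((Nat.log 2 k : ℝ) + 2) * (1 + Real.log ((T : ℝ) + 1))) * B *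
        (k + W.card * (1 + (k : ℝ) / (N + 1) * μ)) * ∑ n ∈ I, ‖a n‖ ^ 2 := by
  classical
  have hT0 : (0 : ℝ) ≤ T := Nat.cast_nonneg _
  have hk0 : (0 : ℝ) ≤ k := Nat.cast_nonneg _
  have hN0 : (0 : ℝ) ≤ N := Nat.cast_nonneg _
  obtain ⟨Lg, hLg⟩ : ∃ Lg : ℝ, Lg = 1 + Real.log ((T : ℝ) + 1) := ⟨_, rfl⟩
  have hLg1 : 1 ≤ Lg := by
    rw [hLg]
    have := Real.log_nonneg (by linarith : 1 ≤ (T : ℝ) + 1)
    linarith
  obtain ⟨G, hG⟩ : ∃ G : ℝ, G = ∑ n ∈ I, ‖a n‖ ^ 2 := ⟨_, rfl⟩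
  have hG0 : 0 ≤ G := by rw [hG]; exact sum_nonneg fun _ _ => sq_nonneg _
  -- the trivial bound
  have htriv : ∀ i, ‖∑ n ∈ I, a n * ex T i n‖ ^ 2 ≤ k * G := by
    intro i
    have h1 : ‖∑ n ∈ I, a n * ex T i n‖ ≤ ∑ n ∈ I, ‖a n‖ := by
      refine (norm_sum_le _ _).trans (le_of_eq ?_)
      apply sum_congr rfl
      intro n _
      rw [norm_mul]
      unfold ex
      rw [ph_norm, mul_one]
    have h2 := sq_sum_le_card_mul_sum_sq (s := I) (f := fun n => ‖a n‖)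
    rw [hIk, ← hG] at h2
    exact (pow_le_pow_left₀ (norm_nonneg _) h1 2).trans h2
  obtain ⟨w, hw⟩ : ∃ w : ℝ, w = (W.card : ℝ) := ⟨_, rfl⟩
  have hw0 : 0 ≤ w := by rw [hw]; exact Nat.cast_nonneg _
  obtain ⟨g, hg⟩ : ∃ g : ℝ, g = (Nat.log 2 k : ℝ) + 2 := ⟨_, rfl⟩
  have hg1 : 1 ≤ g := by
    rw [hg]
    have : (0 : ℝ) ≤ (Nat.log 2 k : ℝ) := Nat.cast_nonneg _
    linarith
  obtain ⟨ν, hν⟩ : ∃ ν : ℝ, ν = 1 + (k : ℝ) / (N + 1) * μ := ⟨_, rfl⟩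
  have hν1 : 1 ≤ ν := by
    rw [hν]
    have : 0 ≤ (k : ℝ) / (N + 1) * μ := mul_nonneg (by positivity) hμ
    linarith
  rw [← hLg, ← hG, ← hw, ← hg, ← hν]
  have hRHS : 0 ≤ 345 * (g * Lg) * B * (k + w * ν) * G := by positivity
  rcases hG0.lt_or_eq with hGp | hGz
  swap
  · calc ∑ i ∈ W, ‖∑ n ∈ I, a n * ex T i n‖ ^ 2 ≤ ∑ i ∈ W, (k * G) := sum_le_sum fun i _ => htriv i
      _ = 0 := by rw [← hGz]; simp
      _ ≤ _ := hRHS
  have hsq : 0 < Real.sqrt G := Real.sqrt_pos.2 hGp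
  obtain ⟨A0, hA0⟩ : ∃ A0 : ℝ, A0 = B * G * (86 * Lg * k + w * ν) := ⟨_, rfl⟩
  have hlev : ∀ V, Real.sqrt G ≤ V → V ^ 2 *
      ((W.filter (fun i => V ≤ ‖∑ n ∈ I, a n * ex T i n‖)).card : ℝ) ≤ A0 := by
    intro V hV
    have h1 := bas_lv N T k hN B (by linarith) I hI μ hμ hK
      (W.filter (fun i => V ≤ ‖∑ n ∈ I, a n * ex T i n‖)) a V (hsq.le.trans hV)
      (fun i hi => (mem_filter.1 hi).2)
    refine h1.trans ?_
    rw [← hLg, ← hG, ← hν, hA0]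
    apply mul_le_mul_of_nonneg_left _ (by positivity)
    have h2 : ((W.filter (fun i => V ≤ ‖∑ n ∈ I, a n * ex T i n‖)).card : ℝ) ≤ w := by
      rw [hw]
      exact_mod_cast card_filter_le _ _
    have h3 := mul_le_mul_of_nonneg_right h2 (by linarith : (0 : ℝ) ≤ ν)
    linarith
  have hmax : ∀ i ∈ W, ‖∑ n ∈ I, a n * ex T i n‖ ≤ 2 ^ (Nat.log 2 k + 1) * Real.sqrt G := by
    intro i _
    have h1 : ‖∑ n ∈ I, a n * ex T i n‖ ≤ Real.sqrt (k * G) := Real.le_sqrt_of_sq_le (htriv i)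
    refine h1.trans ?_
    rw [Real.sqrt_mul hk0]
    apply mul_le_mul_of_nonneg_right _ hsq.le
    have h2 : k < 2 ^ (Nat.log 2 k + 1) := Nat.lt_pow_succ_log_self (by norm_num) _
    have h3 : (k : ℝ) ≤ 2 ^ (Nat.log 2 k + 1) := by exact_mod_cast h2.le
    have h4 : (1 : ℝ) ≤ 2 ^ (Nat.log 2 k + 1) := one_le_pow₀ (by norm_num)
    apply Real.sqrt_le_iff.2
    refine ⟨by positivity, ?_⟩
    nlinarith
  have hdy := dyadic W (fun i => ‖∑ n ∈ I, a n * ex T i n‖) (Real.sqrt G) A0 hsq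
    (Nat.log 2 k + 1) hmax hlev
  have hsmall : ∑ i ∈ W.filter (fun i => ¬ Real.sqrt G ≤ ‖∑ n ∈ I, a n * ex T i n‖),
      ‖∑ n ∈ I, a n * ex T i n‖ ^ 2 ≤ w * G := by
    calc ∑ i ∈ W.filter (fun i => ¬ Real.sqrt G ≤ ‖∑ n ∈ I, a n * ex T i n‖),
          ‖∑ n ∈ I, a n * ex T i n‖ ^ 2
        ≤ ∑ i ∈ W.filter (fun i => ¬ Real.sqrt G ≤ ‖∑ n ∈ I, a n * ex T i n‖), G := by
          apply sum_le_sum
          intro i hi
          have h1 := (mem_filter.1 hi).2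
          push Not at h1
          calc ‖∑ n ∈ I, a n * ex T i n‖ ^ 2 ≤ (Real.sqrt G) ^ 2 :=
                pow_le_pow_left₀ (norm_nonneg _) h1.le 2
            _ = G := Real.sq_sqrt hG0
      _ ≤ w * G := by
          rw [sum_const, nsmul_eq_mul, hw]
          apply mul_le_mul_of_nonneg_right _ hG0
          exact_mod_cast card_filter_le _ _
  rw [← sum_filter_add_sum_filter_not W (fun i => Real.sqrt G ≤ ‖∑ n ∈ I, a n * ex T i n‖)]
  refine (add_le_add hdy hsmall).trans ?_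
  have hgg : ((Nat.log 2 k + 1 : ℕ) : ℝ) + 1 = g := by
    rw [hg]
    push_cast
    ring
  rw [hgg, hA0]
  have h1 : w * G ≤ g * Lg * B * (k + w * ν) * G := by
    apply mul_le_mul_of_nonneg_right _ hG0
    have h2 : 1 ≤ g * Lg * B := one_le_mul_of_one_le_of_one_le (one_le_mul_of_one_le_of_one_le hg1 hLg1) hB
    have h3 : w ≤ k + w * ν := by nlinarith
    calc w ≤ k + w * ν := h3
      _ ≤ g * Lg * B * (k + w * ν) := le_mul_of_one_le_left (by positivity) h2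
  have h2 : 4 * (B * G * (86 * Lg * k + w * ν)) * g ≤ 344 * (g * Lg) * B * (k + w * ν) * G := by
    have h3 : w * ν ≤ 86 * Lg * (w * ν) := by
      apply le_mul_of_one_le_left (by positivity)
      linarith
    have h4 : 86 * Lg * k + w * ν ≤ 86 * Lg * (k + w * ν) := by linarith
    have h5 := mul_le_mul_of_nonneg_left h4 (by positivity : 0 ≤ 4 * B * G * g)
    linarith
  linarith

end Pool.Agent.Y959.Rs
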