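import Pool.Agent.Y959.Rs.Zeta
import Pool.Agent.Y884.AD.VdcU
import Pool.Agent.Y959.Her.Prob

set_option autoImplicit false

/-!
# The inequality of Halász and Montgomery
-/

namespace Pool.Agent.Y959.Rs

open Finset Pool.Agent.H469R2.NK Pool.Agent.TH705.DL Pool.Agent.Y959.Her

/-- the bound for the kernel -/
def Ker (N T : ℕ) (μ : ℝ) : Prop :=
  ∀ d : ℕ, 1 ≤ d → d ≤ T → ‖∑ n ∈ Icc N (2 * N), ph (d : ℝ) n‖ ≤ 42 * N / d + μ

theorem ker_sqrt (N : ℕ) (hN : 1 ≤ N) (T : ℕ) (hT : (T : ℝ) ≤ (N : ℝ) ^ 2) :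
    Ker N T (14 * Real.sqrt (T * (1 + Real.log N))) := by
  intro d hd hdT
  have hN1 : (1 : ℝ) ≤ N := by exact_mod_cast hN
  have hd0 : (0 : ℝ) < d := by exact_mod_cast hd
  have hdT' : (d : ℝ) ≤ T := by exact_mod_cast hdT
  refine (ker_two N hN d hd0 (hdT'.trans hT)).trans ?_
  have hlog : 0 ≤ Real.log N := Real.log_nonneg hN1
  have h1 : Real.sqrt (d * (1 + Real.log N)) ≤ Real.sqrt (T * (1 + Real.log N)) :=
    Real.sqrt_le_sqrt (mul_le_mul_of_nonneg_right hdT' (by linarith))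
  linarith

theorem triv (N : ℕ) (t : ℝ) : ‖∑ n ∈ Icc N (2 * N), ph t n‖ ≤ N + 1 := by
  refine (norm_sum_le _ _).trans ?_
  rw [sum_congr rfl fun n _ => ph_norm t n, sum_const, Nat.card_Icc, nsmul_eq_mul, mul_one]
  have : 2 * N + 1 - N = N + 1 := by omega
  rw [this]
  push_cast
  exact le_rfl

theorem ker_Q (Q : ℕ) (hQ : 1 ≤ Q) : ∃ C : ℝ, 0 < C ∧ ∀ (N : ℕ), 1 ≤ N → ∀ T : ℕ,
    (T : ℝ) ≤ (N : ℝ) ^ Q → Ker N T (C * (N : ℝ) ^ (1 - (1 / (4 * Q * 2 ^ Q) : ℝ))) := by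
  obtain ⟨M0, hM0⟩ : ∃ M0 : ℝ, M0 = 16 + ((2 * Q.factorial : ℕ) : ℝ) ^ 2 := ⟨_, rfl⟩
  have hM16 : 16 ≤ M0 := by rw [hM0]; have := sq_nonneg ((2 * Q.factorial : ℕ) : ℝ); linarith
  have hC1 := Pool.Agent.Y884.AD.C1_pos
  have hQ' : (1 : ℝ) ≤ Q := by exact_mod_cast hQ
  have hη : (1 : ℝ) / (4 * Q * 2 ^ Q) ≤ 1 := by
    rw [div_le_one (by positivity)]
    have : (1 : ℝ) ≤ 2 ^ Q := one_le_pow₀ (by norm_num)
    nlinarith
  refine ⟨M0 + 1 + (7 + Pool.Agent.Y884.AD.C1), by positivity, ?_⟩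
  intro N hN T hT d hd hdT
  have hN1 : (1 : ℝ) ≤ N := by exact_mod_cast hN
  have hN0 : (0 : ℝ) < N := by linarith
  have hd1 : (1 : ℝ) ≤ d := by exact_mod_cast hd
  have hd0 : (0 : ℝ) < d := by linarith
  have hdT' : (d : ℝ) ≤ T := by exact_mod_cast hdT
  have hx1 : (1 : ℝ) ≤ (N : ℝ) ^ (1 - (1 / (4 * Q * 2 ^ Q) : ℝ)) :=
    Real.one_le_rpow hN1 (by linarith)
  have hpos : 0 ≤ 42 * (N : ℝ) / d := by positivity
  rcases lt_or_ge (N : ℝ) M0 with hs | hs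
  · refine (triv N d).trans ?_
    have : (M0 + 1) * 1 ≤ (M0 + 1 + (7 + Pool.Agent.Y884.AD.C1)) *
        (N : ℝ) ^ (1 - (1 / (4 * Q * 2 ^ Q) : ℝ)) := by
      apply mul_le_mul _ hx1 (by norm_num) (by positivity)
      linarith
    linarith
  have hpi := Real.pi_gt_three
  have hpi2 := Real.pi_lt_d2
  have hh : 0 < (d : ℝ) / (2 * Real.pi) := by positivity
  rcases le_or_gt (2 * ((d : ℝ) / (2 * Real.pi))) N with h1 | h1
  · rw [ph_sum]
    have h2 := ker_kl hh hN h1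
    refine h2.trans ?_
    have e : 6 * (N : ℝ) / (d / (2 * Real.pi)) = (12 * Real.pi) * N / d := by
      field_simp
      ring
    rw [e]
    have h3 : (12 * Real.pi) * N / d ≤ 42 * N / d := by
      apply div_le_div_of_nonneg_right _ hd0.le
      nlinarith
    have h4 : 0 ≤ (M0 + 1 + (7 + Pool.Agent.Y884.AD.C1)) *
        (N : ℝ) ^ (1 - (1 / (4 * Q * 2 ^ Q) : ℝ)) := by positivity
    linarith
  · rw [ph_sum, sum_range_succ]
    have h5 : (d : ℝ) / (2 * Real.pi) ≤ d := by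
      rw [div_le_iff₀ (by positivity)]
      nlinarith
    have habs : |(d : ℝ) / (2 * Real.pi)| = (d : ℝ) / (2 * Real.pi) := abs_of_pos hh
    have h6 := Pool.Agent.Y884.AD.vdc_logU Q hQ N N (N : ℝ) ((d : ℝ) / (2 * Real.pi)) (by linarith)
      (by rw [hM0] at hs; linarith) le_rfl le_rfl (by linarith) (by
        rw [habs]
        have h7 : (N : ℝ) ^ (1 / 2 : ℝ) ≤ N / 2 := by
          rw [← Real.sqrt_eq_rpow]
          apply Real.sqrt_le_iff.2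
          exact ⟨by positivity, by nlinarith⟩
        linarith) (by
        rw [habs]
        linarith)
    have h8 : ‖e ((d : ℝ) / (2 * Real.pi) * Real.log ((N : ℝ) + (N : ℕ)))‖ = 1 := norm_e _
    refine (norm_add_le _ _).trans ?_
    rw [h8]
    have h9 : (0 : ℝ) ≤ (M0 + 1) * (N : ℝ) ^ (1 - (1 / (4 * Q * 2 ^ Q) : ℝ)) := by positivity
    nlinarith

theorem harm_one (T : ℕ) (W : Finset (Fin (T + 1))) (i : Fin (T + 1)) :
    ∑ j ∈ W.erase i, 1 / |((i : ℕ) : ℝ) - ((j : ℕ) : ℝ)| ≤ 2 * (1 + Real.log (T + 1)) := by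
  classical
  have hsplit : ∑ j ∈ W.erase i, 1 / |((i : ℕ) : ℝ) - ((j : ℕ) : ℝ)| =
      ∑ j ∈ (W.erase i).filter (fun j : Fin (T + 1) => (j : ℕ) < i), 1 / |((i : ℕ) : ℝ) - ((j : ℕ) : ℝ)| +
      ∑ j ∈ (W.erase i).filter (fun j : Fin (T + 1) => ¬ (j : ℕ) < i), 1 / |((i : ℕ) : ℝ) - ((j : ℕ) : ℝ)| :=
    (sum_filter_add_sum_filter_not _ _ _).symm
  have hH : ∑ l ∈ Ico 1 (T + 1), (1 : ℝ) / l ≤ 1 + Real.log (T + 1) := by
    have := harm_le (T + 1)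
    push_cast at this
    exact this
  have h1 : ∑ j ∈ (W.erase i).filter (fun j : Fin (T + 1) => (j : ℕ) < i), 1 / |((i : ℕ) : ℝ) - ((j : ℕ) : ℝ)| ≤
      ∑ l ∈ Ico 1 (T + 1), (1 : ℝ) / l := by
    have hinj : Set.InjOn (fun j : Fin (T + 1) => (i : ℕ) - (j : ℕ))
        ((W.erase i).filter (fun j : Fin (T + 1) => (j : ℕ) < i)) := by
      intro a ha b hb hab
      rw [mem_coe, mem_filter] at ha hb
      have h2 : (i : ℕ) - (a : ℕ) = (i : ℕ) - (b : ℕ) := hab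
      exact Fin.ext (by omega)
    have h3 : ∑ j ∈ (W.erase i).filter (fun j : Fin (T + 1) => (j : ℕ) < i), 1 / |((i : ℕ) : ℝ) - ((j : ℕ) : ℝ)| =
        ∑ l ∈ ((W.erase i).filter (fun j : Fin (T + 1) => (j : ℕ) < i)).image (fun j : Fin (T + 1) => (i : ℕ) - (j : ℕ)),
          (1 : ℝ) / l := by
      rw [sum_image hinj]
      apply sum_congr rfl
      intro j hj
      have hj2 := (mem_filter.1 hj).2
      rw [Nat.cast_sub hj2.le, abs_of_pos]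
      have : ((j : ℕ) : ℝ) < ((i : ℕ) : ℝ) := by exact_mod_cast hj2
      linarith
    rw [h3]
    apply sum_le_sum_of_subset_of_nonneg
    · intro l hl
      rw [mem_image] at hl
      obtain ⟨j, hj, rfl⟩ := hl
      have hj2 := (mem_filter.1 hj).2
      have hi := i.2
      rw [mem_Ico]
      omega
    · intro _ _ _
      positivity
  have h2 : ∑ j ∈ (W.erase i).filter (fun j : Fin (T + 1) => ¬ (j : ℕ) < i), 1 / |((i : ℕ) : ℝ) - ((j : ℕ) : ℝ)| ≤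
      ∑ l ∈ Ico 1 (T + 1), (1 : ℝ) / l := by
    have hlt : ∀ j ∈ (W.erase i).filter (fun j : Fin (T + 1) => ¬ (j : ℕ) < i), (i : ℕ) < j := by
      intro j hj
      rw [mem_filter, mem_erase] at hj
      have h3 : (j : ℕ) ≠ (i : ℕ) := fun h => hj.1.1 (Fin.ext h)
      omega
    have hinj : Set.InjOn (fun j : Fin (T + 1) => (j : ℕ) - (i : ℕ))
        ((W.erase i).filter (fun j : Fin (T + 1) => ¬ (j : ℕ) < i)) := by
      intro a ha b hb hab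
      have ha' := hlt a ha
      have hb' := hlt b hb
      have h2 : (a : ℕ) - (i : ℕ) = (b : ℕ) - (i : ℕ) := hab
      exact Fin.ext (by omega)
    have h3 : ∑ j ∈ (W.erase i).filter (fun j : Fin (T + 1) => ¬ (j : ℕ) < i), 1 / |((i : ℕ) : ℝ) - ((j : ℕ) : ℝ)| =
        ∑ l ∈ ((W.erase i).filter (fun j : Fin (T + 1) => ¬ (j : ℕ) < i)).image (fun j : Fin (T + 1) => (j : ℕ) - (i : ℕ)),
          (1 : ℝ) / l := by
      rw [sum_image hinj]
      apply sum_congr rfl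
      intro j hj
      have hj2 := hlt j hj
      rw [Nat.cast_sub hj2.le, abs_sub_comm, abs_of_pos]
      have : ((i : ℕ) : ℝ) < ((j : ℕ) : ℝ) := by exact_mod_cast hj2
      linarith
    rw [h3]
    apply sum_le_sum_of_subset_of_nonneg
    · intro l hl
      rw [mem_image] at hl
      obtain ⟨j, hj, rfl⟩ := hl
      have hj2 := hlt j hj
      have hi := j.2
      rw [mem_Ico]
      omega
    · intro _ _ _
      positivity
  rw [hsplit]
  linarith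

theorem ker_abs (N T : ℕ) (μ : ℝ) (hK : Ker N T μ) (i j : Fin (T + 1)) (hij : i ≠ j) :
    ‖∑ n ∈ Icc N (2 * N), ph (((i : ℕ) : ℝ) - ((j : ℕ) : ℝ)) n‖ ≤
      42 * N * (1 / |((i : ℕ) : ℝ) - ((j : ℕ) : ℝ)|) + μ := by
  have hne : (i : ℕ) ≠ (j : ℕ) := fun h => hij (Fin.ext h)
  have hi := i.2
  have hj := j.2
  rcases lt_or_gt_of_ne hne with h | h
  · have h1 := hK ((j : ℕ) - (i : ℕ)) (by omega) (by omega)
    rw [Nat.cast_sub h.le] at h1
    have h2 : ((i : ℕ) : ℝ) - ((j : ℕ) : ℝ) = -(((j : ℕ) : ℝ) - ((i : ℕ) : ℝ)) := by ring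
    rw [h2, ph_sum_neg, abs_neg, abs_of_pos]
    · rw [mul_one_div]
      exact h1
    · have : ((i : ℕ) : ℝ) < ((j : ℕ) : ℝ) := by exact_mod_cast h
      linarith
  · have h1 := hK ((i : ℕ) - (j : ℕ)) (by omega) (by omega)
    rw [Nat.cast_sub h.le] at h1
    rw [abs_of_pos]
    · rw [mul_one_div]
      exact h1
    · have : ((j : ℕ) : ℝ) < ((i : ℕ) : ℝ) := by exact_mod_cast h
      linarith

/-- **Halász–Montgomery.** -/
theorem halasz (N T : ℕ) (μ : ℝ) (hμ : 0 ≤ μ) (hK : Ker N T μ) (W : Finset (Fin (T + 1)))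
    (b : Fin (T + 1) → Fin 4) :
    ∑ n ∈ Icc N (2 * N), ‖∑ i ∈ W, phs (b i) * ph (((i : ℕ) : ℝ)) n‖ ^ 2 ≤
      W.card * (N + 1 + 84 * N * (1 + Real.log (T + 1)) + W.card * μ) := by
  classical
  have h1 : ((∑ n ∈ Icc N (2 * N), ‖∑ i ∈ W, phs (b i) * ph (((i : ℕ) : ℝ)) n‖ ^ 2 : ℝ) : ℂ) =
      ∑ i ∈ W, ∑ j ∈ W, phs (b i) * (starRingEnd ℂ) (phs (b j)) *
        ∑ n ∈ Icc N (2 * N), ph (((i : ℕ) : ℝ) - ((j : ℕ) : ℝ)) n := by
    push_cast
    have h2 : ∀ n ∈ Icc N (2 * N), ((‖∑ i ∈ W, phs (b i) * ph (((i : ℕ) : ℝ)) n‖ : ℂ)) ^ 2 =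
        ∑ i ∈ W, ∑ j ∈ W, phs (b i) * (starRingEnd ℂ) (phs (b j)) *
          ph (((i : ℕ) : ℝ) - ((j : ℕ) : ℝ)) n := by
      intro n _
      rw [← Complex.mul_conj', map_sum, sum_mul_sum]
      apply sum_congr rfl
      intro i _
      apply sum_congr rfl
      intro j _
      rw [map_mul, ← ph_sub]
      ring
    rw [sum_congr rfl h2, sum_comm]
    apply sum_congr rfl
    intro i _
    rw [sum_comm]
    apply sum_congr rfl
    intro j _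
    rw [mul_sum]
  have h3 : ∑ n ∈ Icc N (2 * N), ‖∑ i ∈ W, phs (b i) * ph (((i : ℕ) : ℝ)) n‖ ^ 2 ≤
      ∑ i ∈ W, ∑ j ∈ W, ‖∑ n ∈ Icc N (2 * N), ph (((i : ℕ) : ℝ) - ((j : ℕ) : ℝ)) n‖ := by
    have h0 : 0 ≤ ∑ n ∈ Icc N (2 * N), ‖∑ i ∈ W, phs (b i) * ph (((i : ℕ) : ℝ)) n‖ ^ 2 :=
      sum_nonneg fun _ _ => sq_nonneg _
    rw [← Real.norm_of_nonneg h0, ← Complex.norm_real, h1]
    refine (norm_sum_le _ _).trans (sum_le_sum fun i _ => ?_)
    refine (norm_sum_le _ _).trans (sum_le_sum fun j _ => ?_)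
    rw [norm_mul, norm_mul, RCLike.norm_conj, (phs_isPh _).norm, (phs_isPh _).norm, one_mul, one_mul]
  refine h3.trans ?_
  have h4 : ∀ i ∈ W, ∑ j ∈ W, ‖∑ n ∈ Icc N (2 * N), ph (((i : ℕ) : ℝ) - ((j : ℕ) : ℝ)) n‖ ≤
      N + 1 + 84 * N * (1 + Real.log (T + 1)) + W.card * μ := by
    intro i hi
    rw [← add_sum_erase W _ hi]
    have h5 : ∑ j ∈ W.erase i, ‖∑ n ∈ Icc N (2 * N), ph (((i : ℕ) : ℝ) - ((j : ℕ) : ℝ)) n‖ ≤
        ∑ j ∈ W.erase i, (42 * N * (1 / |((i : ℕ) : ℝ) - ((j : ℕ) : ℝ)|) + μ) := by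
      apply sum_le_sum
      intro j hj
      exact ker_abs N T μ hK i j (ne_of_mem_erase hj).symm
    rw [sum_add_distrib, ← mul_sum, sum_const, nsmul_eq_mul] at h5
    have h6 := mul_le_mul_of_nonneg_left (harm_one T W i) (by positivity : (0 : ℝ) ≤ 42 * N)
    have h7 := triv N (((i : ℕ) : ℝ) - ((i : ℕ) : ℝ))
    have h8 : ((W.erase i).card : ℝ) * μ ≤ W.card * μ := by
      apply mul_le_mul_of_nonneg_right _ hμ
      exact_mod_cast card_le_card (erase_subset _ _)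
    linarith
  calc ∑ i ∈ W, ∑ j ∈ W, ‖∑ n ∈ Icc N (2 * N), ph (((i : ℕ) : ℝ) - ((j : ℕ) : ℝ)) n‖
      ≤ ∑ i ∈ W, ((N : ℝ) + 1 + 84 * N * (1 + Real.log (T + 1)) + W.card * μ) := sum_le_sum h4
    _ = _ := by rw [sum_const, nsmul_eq_mul]

end Pool.Agent.Y959.Rs
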