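import Pool.Agent.Y959.Rs.Det
import Pool.Agent.Y959.Rs.Hal
import Pool.Agent.Y959.Smp.Mo

set_option autoImplicit false

/-!
# Dirichlet polynomials supported on random sets
-/

namespace Pool.Agent.Y959.Rs

open Finset Pool.Agent.TH705.DL Pool.Agent.Y959.Her

/-- the exponentials -/
noncomputable def ex (T : ℕ) (i : Fin (T + 1)) (n : ℕ) : ℂ := ph (((i : ℕ) : ℝ)) n

theorem log_pow3 (ε : ℝ) (hε : 0 < ε) : ∃ C : ℝ, 1 ≤ C ∧ ∀ N : ℕ, 1 ≤ N →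
    (1 + Real.log N) ^ 3 ≤ C * (N : ℝ) ^ ε := by
  refine ⟨(1 + 3 / ε) ^ 3, one_le_pow₀ (by have : 0 < 3 / ε := by positivity
                                           linarith), ?_⟩
  intro N hN
  have hN1 : (1 : ℝ) ≤ N := by exact_mod_cast hN
  have hl0 : 0 ≤ Real.log N := Real.log_nonneg hN1
  have h1 : 1 + Real.log N ≤ (1 + 3 / ε) * (N : ℝ) ^ (ε / 3) := by
    have h2 : Real.log N ≤ (N : ℝ) ^ (ε / 3) / (ε / 3) :=
      Real.log_le_rpow_div (by linarith) (by positivity)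
    have h3 : 1 ≤ (N : ℝ) ^ (ε / 3) := Real.one_le_rpow hN1 (by positivity)
    calc 1 + Real.log N ≤ (N : ℝ) ^ (ε / 3) + (N : ℝ) ^ (ε / 3) / (ε / 3) := add_le_add h3 h2
      _ = (1 + 3 / ε) * (N : ℝ) ^ (ε / 3) := by
          field_simp
  calc (1 + Real.log N) ^ 3 ≤ ((1 + 3 / ε) * (N : ℝ) ^ (ε / 3)) ^ 3 :=
        pow_le_pow_left₀ (by linarith) h1 3
    _ = (1 + 3 / ε) ^ 3 * (N : ℝ) ^ ε := by
        rw [mul_pow, ← Real.rpow_natCast ((N : ℝ) ^ (ε / 3)) 3, ← Real.rpow_mul (by linarith)]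
        congr 2
        push_cast
        ring

/-- the logarithms -/
theorem absorb (ε A : ℝ) (hε : 0 < ε) (hA : 0 ≤ A) (Q : ℕ) : ∃ C : ℝ, 1 ≤ C ∧ ∀ N T : ℕ, 1 ≤ N →
    (T : ℝ) ≤ (N : ℝ) ^ Q → ∀ w : ℕ, w ≤ T + 1 →
      3000 * (Real.log (4 * ((N : ℝ) + 1)) *
        (Real.log (8 * ((T : ℝ) + 1) * ((N : ℝ) + 1) ^ 2 / (N : ℝ) ^ (-A)) + 1) *
        ((Nat.log 2 w : ℝ) + 2)) ≤ C * (N : ℝ) ^ ε := by
  obtain ⟨C, hC, h⟩ := log_pow3 ε hε
  refine ⟨3000 * (3 * (8 + Q + A) * (3 + 2 * Q)) * C, ?_, ?_⟩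
  · have h1 : (0 : ℝ) ≤ Q := Nat.cast_nonneg _
    nlinarith [mul_nonneg h1 hA, mul_nonneg h1 h1]
  intro N T hN hT w hw
  have hN1 : (1 : ℝ) ≤ N := by exact_mod_cast hN
  have hN0 : (0 : ℝ) < N := by linarith
  have hQ0 : (0 : ℝ) ≤ Q := Nat.cast_nonneg _
  obtain ⟨L, hL⟩ : ∃ L : ℝ, L = 1 + Real.log N := ⟨_, rfl⟩
  have hl0 : 0 ≤ Real.log N := Real.log_nonneg hN1
  have hL1 : 1 ≤ L := by linarith
  have hT0 : (0 : ℝ) ≤ T := Nat.cast_nonneg _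
  have hNQ : (1 : ℝ) ≤ (N : ℝ) ^ Q := one_le_pow₀ hN1
  have hlogs : Real.log 2 < 0.6931471808 := Real.log_two_lt_d9
  have hlogs' : 0.6931471803 < Real.log 2 := Real.log_two_gt_d9
  have a1 : Real.log (4 * ((N : ℝ) + 1)) ≤ 3 * L := by
    have h1 : Real.log (4 * ((N : ℝ) + 1)) ≤ Real.log (2 ^ 3 * N) :=
      Real.log_le_log (by positivity) (by linarith)
    rw [Real.log_mul (by norm_num) hN0.ne', Real.log_pow] at h1
    push_cast at h1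
    linarith
  have a1' : 0 ≤ Real.log (4 * ((N : ℝ) + 1)) := Real.log_nonneg (by linarith)
  have a2 : Real.log (8 * ((T : ℝ) + 1) * ((N : ℝ) + 1) ^ 2 / (N : ℝ) ^ (-A)) + 1 ≤ (8 + Q + A) * L := by
    have h1 : Real.log (8 * ((T : ℝ) + 1) * ((N : ℝ) + 1) ^ 2 / (N : ℝ) ^ (-A)) ≤
        Real.log (2 ^ 6 * (N : ℝ) ^ Q * (N : ℝ) ^ 2 * (N : ℝ) ^ A) := by
      apply Real.log_le_log (by positivity)
      rw [Real.rpow_neg hN0.le, div_inv_eq_mul]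
      apply mul_le_mul_of_nonneg_right _ (by positivity)
      have h2 : (T : ℝ) + 1 ≤ 2 * (N : ℝ) ^ Q := by linarith
      have h3 : ((N : ℝ) + 1) ^ 2 ≤ 4 * (N : ℝ) ^ 2 := by nlinarith
      calc 8 * ((T : ℝ) + 1) * ((N : ℝ) + 1) ^ 2 ≤ 8 * (2 * (N : ℝ) ^ Q) * (4 * (N : ℝ) ^ 2) := by
            apply mul_le_mul (by linarith) h3 (by positivity) (by positivity)
        _ = _ := by ring
    rw [Real.log_mul (by positivity) (by positivity), Real.log_mul (by positivity) (by positivity),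
      Real.log_mul (by positivity) (by positivity), Real.log_pow, Real.log_pow, Real.log_pow,
      Real.log_rpow hN0] at h1
    push_cast at h1
    have h4 : 0 ≤ (Q + A) * (L - Real.log N) := mul_nonneg (by linarith) (by linarith)
    nlinarith
  have a2' : 0 ≤ Real.log (8 * ((T : ℝ) + 1) * ((N : ℝ) + 1) ^ 2 / (N : ℝ) ^ (-A)) + 1 := by
    have : 0 ≤ Real.log (8 * ((T : ℝ) + 1) * ((N : ℝ) + 1) ^ 2 / (N : ℝ) ^ (-A)) := by
      apply Real.log_nonneg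
      rw [Real.rpow_neg hN0.le, div_inv_eq_mul]
      have h5 : 1 ≤ (N : ℝ) ^ A := Real.one_le_rpow hN1 hA
      have h6 : (1 : ℝ) ≤ ((N : ℝ) + 1) ^ 2 := by nlinarith
      have h7 : 1 ≤ 8 * ((T : ℝ) + 1) * ((N : ℝ) + 1) ^ 2 := by nlinarith
      nlinarith
    linarith
  have a3 : ((Nat.log 2 w : ℝ) + 2) ≤ (3 + 2 * Q) * L := by
    have h1 : ((2 : ℝ)) ^ (Nat.log 2 w) ≤ 2 * (N : ℝ) ^ Q := by
      rcases Nat.eq_zero_or_pos w with h0 | h0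
      · rw [h0]
        simp only [Nat.log_zero_right, pow_zero]
        linarith
      · have h2 : 2 ^ (Nat.log 2 w) ≤ w := Nat.pow_log_le_self 2 (by omega)
        have h3 : ((2 : ℝ)) ^ (Nat.log 2 w) ≤ w := by exact_mod_cast h2
        have h4 : (w : ℝ) ≤ T + 1 := by exact_mod_cast hw
        linarith
    have h2 := Real.log_le_log (by positivity) h1
    rw [Real.log_pow, Real.log_mul (by norm_num) (by positivity), Real.log_pow] at h2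
    have h3 : (Nat.log 2 w : ℝ) ≤ 1 + 2 * (Q * Real.log N) := by
      have h5 : (0 : ℝ) ≤ Q * Real.log N := mul_nonneg hQ0 hl0
      by_contra hcon
      push Not at hcon
      nlinarith
    have h4 : 0 ≤ (Q : ℝ) * (L - Real.log N) := mul_nonneg hQ0 (by linarith)
    nlinarith
  have a3' : (0 : ℝ) ≤ (Nat.log 2 w : ℝ) + 2 := by positivity
  calc 3000 * (Real.log (4 * ((N : ℝ) + 1)) *
        (Real.log (8 * ((T : ℝ) + 1) * ((N : ℝ) + 1) ^ 2 / (N : ℝ) ^ (-A)) + 1) *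
        ((Nat.log 2 w : ℝ) + 2)) ≤ 3000 * ((3 * L) * ((8 + Q + A) * L) * ((3 + 2 * Q) * L)) := by
        apply mul_le_mul_of_nonneg_left _ (by norm_num)
        apply mul_le_mul _ a3 a3' (by positivity)
        exact mul_le_mul a1 a2 a2' (by positivity)
    _ = 3000 * (3 * (8 + Q + A) * (3 + 2 * Q)) * (1 + Real.log N) ^ 3 := by
        rw [hL]
        ring
    _ ≤ 3000 * (3 * (8 + Q + A) * (3 + 2 * Q)) * (C * (N : ℝ) ^ ε) :=
        mul_le_mul_of_nonneg_left (h N hN) (by positivity)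
    _ = _ := by ring

/-- the basic property of a random set -/
def Bas (N T k : ℕ) (B : ℝ) (I : Finset ℕ) : Prop :=
  ∀ (W : Finset (Fin (T + 1))) (a : ℕ → ℂ) (V : ℝ), W.Nonempty → 0 ≤ V →
    (∀ i ∈ W, V ≤ ‖∑ n ∈ I, a n * ex T i n‖) → ∃ b : Fin (T + 1) → Fin 4,
      V ^ 2 * (W.card : ℝ) ^ 2 ≤ B * (∑ n ∈ I, ‖a n‖ ^ 2) *
        ((k : ℝ) / (N + 1) * ∑ n ∈ Icc N (2 * N), ‖∑ i ∈ W, phs (b i) * ex T i n‖ ^ 2 +
          (W.card : ℝ) ^ 2 + k)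

open Classical in
theorem bas_count (ε A : ℝ) (hε : 0 < ε) (hA : 0 ≤ A) (Q : ℕ) : ∃ C : ℝ, 1 ≤ C ∧ ∀ N T k : ℕ, 1 ≤ N →
    (T : ℝ) ≤ (N : ℝ) ^ Q →
    (((powersetCard k (Icc N (2 * N))).filter (fun I => ¬ Bas N T k (C * (N : ℝ) ^ ε) I)).card : ℝ) ≤
      (N : ℝ) ^ (-A) * ((powersetCard k (Icc N (2 * N))).card : ℝ) := by
  obtain ⟨C, hC, hab⟩ := absorb ε A hε hA Q
  refine ⟨C, hC, ?_⟩
  intro N T k hN hT
  have hN1 : (1 : ℝ) ≤ N := by exact_mod_cast hN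
  have hN0 : (0 : ℝ) < N := by linarith
  obtain ⟨F, hF⟩ : ∃ F : Finset ℕ, F = Icc N (2 * N) := ⟨_, rfl⟩
  have hFc : F.card = N + 1 := by
    rw [hF, Nat.card_Icc]
    omega
  have hFc' : (F.card : ℝ) = N + 1 := by rw [hFc]; push_cast; rfl
  have hFne : F.Nonempty := card_pos.1 (by omega)
  have hδ : 0 < (N : ℝ) ^ (-A) := Real.rpow_pos_of_pos hN0 _
  have hδ1 : (N : ℝ) ^ (-A) ≤ 1 := Real.rpow_le_one_of_one_le_of_nonpos hN1 (by linarith)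
  have hgc := good_count F hFne (ex T) k ((N : ℝ) ^ (-A)) hδ hδ1 (by rw [Fintype.card_fin]; omega)
  rw [Fintype.card_fin] at hgc
  have hT1 : ((T + 1 : ℕ) : ℝ) = T + 1 := by push_cast; rfl
  rw [hT1, hFc'] at hgc
  obtain ⟨Lam, hLam⟩ : ∃ Lam : ℝ, Lam = Real.log (8 * ((T : ℝ) + 1) * ((N : ℝ) + 1) ^ 2 / (N : ℝ) ^ (-A)) :=
    ⟨_, rfl⟩
  rw [← hLam] at hgc
  rw [card_powersetCard, ← hF]
  refine le_trans ?_ hgc
  have hsub : (powersetCard k F).filter (fun I => ¬ Bas N T k (C * (N : ℝ) ^ ε) I) ⊆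
      (powersetCard k F).filter (fun I => ¬ GoodI F (ex T) k Lam I) := by
    intro I hI
    rw [mem_filter] at hI ⊢
    refine ⟨hI.1, fun hG => hI.2 ?_⟩
    have hIF := (mem_powersetCard.1 hI.1).1
    have hIk := (mem_powersetCard.1 hI.1).2
    intro W a V hW hV hVW
    obtain ⟨b, hb⟩ := dual_bound (ex T) I a V W hV hVW
    refine ⟨b, hb.trans ?_⟩
    have hT0 : (0 : ℝ) ≤ T := Nat.cast_nonneg _
    have hLam0 : 0 ≤ Lam := by
      rw [hLam]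
      apply Real.log_nonneg
      rw [le_div_iff₀ hδ]
      have h6 : (1 : ℝ) ≤ ((N : ℝ) + 1) ^ 2 := by nlinarith
      nlinarith
    have h1 := main_det F hFne (ex T) (fun i n _ => (ph_norm _ _).le) k Lam hLam0 I hIF hG hIk W hW b
    rw [hFc'] at h1
    have hwT : W.card ≤ T + 1 := by
      have := card_le_univ W
      rwa [Fintype.card_fin] at this
    have h2 := hab N T hN hT W.card hwT
    rw [← hLam] at h2
    obtain ⟨X, hX⟩ : ∃ X : ℝ, X = (k : ℝ) / (N + 1) * ∑ n ∈ F, ‖∑ i ∈ W, phs (b i) * ex T i n‖ ^ 2 :=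
      ⟨_, rfl⟩
    have hX0 : 0 ≤ X := by
      rw [hX]
      exact mul_nonneg (by positivity) (sum_nonneg fun _ _ => sq_nonneg _)
    rw [← hX] at h1
    rw [← hF, ← hX]
    have hG0 : 0 ≤ ∑ n ∈ I, ‖a n‖ ^ 2 := sum_nonneg fun _ _ => sq_nonneg _
    obtain ⟨ℓ, hℓ⟩ : ∃ ℓ : ℝ, ℓ = Real.log (4 * ((N : ℝ) + 1)) := ⟨_, rfl⟩
    rw [← hℓ] at h1 h2
    have hℓ1 : 1 ≤ ℓ := by
      rw [hℓ, Real.le_log_iff_exp_le (by linarith)]
      have := Real.exp_one_lt_d9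
      linarith
    obtain ⟨g, hg⟩ : ∃ g : ℝ, g = (Nat.log 2 W.card : ℝ) + 2 := ⟨_, rfl⟩
    rw [← hg] at h1 h2
    have hg1 : 1 ≤ g := by
      rw [hg]
      have : (0 : ℝ) ≤ (Nat.log 2 W.card : ℝ) := Nat.cast_nonneg _
      linarith
    obtain ⟨w, hw⟩ : ∃ w : ℝ, w = (W.card : ℝ) := ⟨_, rfl⟩
    rw [← hw] at h1 ⊢
    have hk0 : (0 : ℝ) ≤ k := Nat.cast_nonneg _
    have hM1 : 1 ≤ ℓ * (Lam + 1) := one_le_mul_of_one_le_of_one_le hℓ1 (by linarith)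
    have hP1 : 1 ≤ ℓ * (Lam + 1) * g := one_le_mul_of_one_le_of_one_le hM1 hg1
    have h3 : ∑ n ∈ I, ‖∑ i ∈ W, phs (b i) * ex T i n‖ ^ 2 ≤
        1092 * (ℓ * (Lam + 1) * g) * (X + w ^ 2 + k) := by
      refine h1.trans ?_
      have h4 : X * g ≤ ℓ * (Lam + 1) * g * X := by
        have := mul_le_mul_of_nonneg_right hM1 (mul_nonneg hX0 (by linarith : (0 : ℝ) ≤ g))
        linarith
      have h5 : (k : ℝ) ≤ ℓ * (Lam + 1) * g * k := by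
        have := mul_le_mul_of_nonneg_right hP1 hk0
        linarith
      have h6 : 0 ≤ ℓ * (Lam + 1) * g * X := by
        exact mul_nonneg (by linarith) hX0
      have h7 : 0 ≤ ℓ * (Lam + 1) * g * k := by
        exact mul_nonneg (by linarith) hk0
      nlinarith
    have h8 : 0 ≤ X + w ^ 2 + k := by
      have := sq_nonneg w
      linarith
    calc 100 / 49 * (∑ n ∈ I, ‖a n‖ ^ 2) * ∑ n ∈ I, ‖∑ i ∈ W, phs (b i) * ex T i n‖ ^ 2
        ≤ 100 / 49 * (∑ n ∈ I, ‖a n‖ ^ 2) * (1092 * (ℓ * (Lam + 1) * g) * (X + w ^ 2 + k)) :=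
          mul_le_mul_of_nonneg_left h3 (by positivity)
      _ = (100 / 49 * 1092 * (ℓ * (Lam + 1) * g)) * ((∑ n ∈ I, ‖a n‖ ^ 2) * (X + w ^ 2 + k)) := by ring
      _ ≤ (C * (N : ℝ) ^ ε) * ((∑ n ∈ I, ‖a n‖ ^ 2) * (X + w ^ 2 + k)) := by
          apply mul_le_mul_of_nonneg_right _ (mul_nonneg hG0 h8)
          refine le_trans ?_ h2
          nlinarith
      _ = _ := by ring
  exact_mod_cast card_le_card hsub

end Pool.Agent.Y959.Rs
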