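import Pool.Agent.Y959.Rs.Maurey
import Pool.Agent.Y959.Rs.Cnt
import Pool.Agent.Y959.Her.Lq

set_option autoImplicit false

/-!
# Sums over good sets of frequencies
-/

namespace Pool.Agent.Y959.Rs

open Finset Pool.Agent.Y959.Her

variable {ι : Type*}

open Classical in
/-- one level -/
theorem level (F : Finset ℕ) (hF : F.Nonempty) (e : ι → ℕ → ℂ) (he : ∀ i, ∀ n ∈ F, ‖e i n‖ ≤ 1)
    (k : ℕ) (Lam : ℝ) (hLam : 0 ≤ Lam) (I : Finset ℕ) (hIF : I ⊆ F) (hI : GoodI F e k Lam I)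
    (W : Finset ι) (hW : W.Nonempty) (b : ι → Fin 4) (u : ℝ) (hu : 0 < u) :
    u ^ 2 * ((I.filter (fun n => u ≤ ‖∑ i ∈ W, phs (b i) * e i n‖)).card : ℝ) ≤
      36 * ((k : ℝ) / F.card * ∑ n ∈ F, ‖∑ i ∈ W, phs (b i) * e i n‖ ^ 2) +
        272 * (W.card : ℝ) ^ 2 * Real.log (4 * F.card) * Lam + u ^ 2 * (Lam + 1) := by
  have hwc : (0 : ℝ) < W.card := by exact_mod_cast card_pos.2 hW
  have hFc : (1 : ℝ) ≤ F.card := by exact_mod_cast card_pos.2 hF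
  have hℓ0 : 0 < Real.log (4 * F.card) := Real.log_pos (by linarith)
  obtain ⟨ℓ, hℓd⟩ : ∃ ℓ, ℓ = Real.log (4 * F.card) := ⟨_, rfl⟩
  rw [← hℓd] at hℓ0 ⊢
  obtain ⟨f, hf⟩ : ∃ f : ℕ → ℂ, f = fun n => ∑ i ∈ W, phs (b i) * e i n := ⟨_, rfl⟩
  have hf' : ∀ n, ∑ i ∈ W, phs (b i) * e i n = f n := fun n => by rw [hf]
  simp only [hf']
  -- the length of the sample
  obtain ⟨m, hmd⟩ : ∃ m : ℕ, m = ⌈272 * (W.card : ℝ) ^ 2 * ℓ / u ^ 2⌉₊ := ⟨_, rfl⟩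
  have hm1 : 1 ≤ m := by
    rw [hmd]
    exact Nat.one_le_ceil_iff.2 (by positivity)
  have hm0 : (0 : ℝ) < m := by exact_mod_cast hm1
  have hmge : 272 * (W.card : ℝ) ^ 2 * ℓ ≤ m * u ^ 2 := by
    have h1 : 272 * (W.card : ℝ) ^ 2 * ℓ / u ^ 2 ≤ m := by rw [hmd]; exact Nat.le_ceil _
    rwa [div_le_iff₀ (by positivity)] at h1
  have hmle : m * u ^ 2 ≤ 272 * (W.card : ℝ) ^ 2 * ℓ + u ^ 2 := by
    have h1 : (m : ℝ) < 272 * (W.card : ℝ) ^ 2 * ℓ / u ^ 2 + 1 := by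
      rw [hmd]
      exact Nat.ceil_lt_add_one (by positivity)
    have h2 := mul_le_mul_of_nonneg_right h1.le (sq_nonneg u)
    have h3 : (272 * (W.card : ℝ) ^ 2 * ℓ / u ^ 2 + 1) * u ^ 2 = 272 * (W.card : ℝ) ^ 2 * ℓ + u ^ 2 := by
      rw [add_mul, div_mul_cancel₀ _ (by positivity), one_mul]
    linarith
  obtain ⟨s, hs, hs2⟩ := maurey W hW F hF (fun i n => phs (b i) * e i n) (fun i _ n hn => by
    rw [norm_mul, (phs_isPh _).norm, one_mul]; exact he i n hn) m hm1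
  -- the code
  obtain ⟨c, hc⟩ : ∃ c : Fin m → ι × Fin 4, c = fun l : Fin m => (s (l : ℕ), b (s (l : ℕ))) := ⟨_, rfl⟩
  have hg : ∀ n, gsum e c n = ∑ l ∈ range m, phs (b (s l)) * e (s l) n := by
    intro n
    unfold gsum
    rw [hc, ← Fin.sum_univ_eq_sum_range (fun l => phs (b (s l)) * e (s l) n)]
  obtain ⟨κ, hκ⟩ : ∃ κ : ℝ, κ = (m : ℝ) / W.card := ⟨_, rfl⟩
  have hκ0 : 0 < κ := by rw [hκ]; positivity
  have happ : ∀ n ∈ F, ‖gsum e c n - (κ : ℂ) * f n‖ ≤ κ * u / 4 := by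
    intro n hn
    rw [hg, ← hf', hκ]
    refine (hs2 n hn).trans ?_
    rw [← hℓd]
    apply Real.sqrt_le_iff.2
    refine ⟨by positivity, ?_⟩
    have h1 : ((m : ℝ) / W.card * u / 4) ^ 2 = (m * u ^ 2) * m / (16 * (W.card : ℝ) ^ 2) := by
      field_simp
      ring
    rw [h1, le_div_iff₀ (by positivity)]
    nlinarith [mul_le_mul_of_nonneg_right hmge hm0.le]
  have hκf : ∀ n, ‖(κ : ℂ) * f n‖ = κ * ‖f n‖ := by
    intro n
    rw [norm_mul, Complex.norm_real, Real.norm_of_nonneg hκ0.le]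
  have hG := hI m c (3 / 4 * κ * u) hm1
  have hsub1 : I.filter (fun n => u ≤ ‖f n‖) ⊆ I.filter (fun n => 3 / 4 * κ * u ≤ ‖gsum e c n‖) := by
    intro n hn
    rw [mem_filter] at hn ⊢
    refine ⟨hn.1, ?_⟩
    have h1 := happ n (hIF hn.1)
    have h2 : κ * u ≤ ‖(κ : ℂ) * f n‖ := by
      rw [hκf]
      exact mul_le_mul_of_nonneg_left hn.2 hκ0.le
    have h3 := norm_sub_norm_le ((κ : ℂ) * f n) (gsum e c n)
    rw [norm_sub_rev] at h3
    linarith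
  have hsub2 : F.filter (fun n => 3 / 4 * κ * u ≤ ‖gsum e c n‖) ⊆ F.filter (fun n => u / 2 ≤ ‖f n‖) := by
    intro n hn
    rw [mem_filter] at hn ⊢
    refine ⟨hn.1, ?_⟩
    have h1 := happ n hn.1
    have h3 := norm_sub_norm_le (gsum e c n) ((κ : ℂ) * f n)
    rw [hκf] at h3
    have h4 : κ * (u / 2) ≤ κ * ‖f n‖ := by linarith [hn.2]
    exact le_of_mul_le_mul_left h4 hκ0
  have h1 : ((I.filter (fun n => u ≤ ‖f n‖)).card : ℝ) ≤
      9 * ((k : ℝ) / F.card * ((F.filter (fun n => u / 2 ≤ ‖f n‖)).card : ℝ)) + m * Lam + 1 := by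
    have h2 : ((I.filter (fun n => u ≤ ‖f n‖)).card : ℝ) ≤
        ((I.filter (fun n => 3 / 4 * κ * u ≤ ‖gsum e c n‖)).card : ℝ) := by
      exact_mod_cast card_le_card hsub1
    have h3 : ((F.filter (fun n => 3 / 4 * κ * u ≤ ‖gsum e c n‖)).card : ℝ) ≤
        ((F.filter (fun n => u / 2 ≤ ‖f n‖)).card : ℝ) := by
      exact_mod_cast card_le_card hsub2
    have h4 : 9 * ((k : ℝ) / F.card * ((F.filter (fun n => 3 / 4 * κ * u ≤ ‖gsum e c n‖)).card : ℝ)) ≤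
        9 * ((k : ℝ) / F.card * ((F.filter (fun n => u / 2 ≤ ‖f n‖)).card : ℝ)) := by
      apply mul_le_mul_of_nonneg_left _ (by norm_num)
      exact mul_le_mul_of_nonneg_left h3 (by positivity)
    linarith
  have h2 : u ^ 2 * ((F.filter (fun n => u / 2 ≤ ‖f n‖)).card : ℝ) ≤ 4 * ∑ n ∈ F, ‖f n‖ ^ 2 := by
    calc u ^ 2 * ((F.filter (fun n => u / 2 ≤ ‖f n‖)).card : ℝ)
        = ∑ n ∈ F.filter (fun n => u / 2 ≤ ‖f n‖), u ^ 2 := by rw [sum_const, nsmul_eq_mul]; ring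
      _ ≤ ∑ n ∈ F.filter (fun n => u / 2 ≤ ‖f n‖), 4 * ‖f n‖ ^ 2 := by
          apply sum_le_sum
          intro n hn
          have h3 := (mem_filter.1 hn).2
          have h4 : (u / 2) ^ 2 ≤ ‖f n‖ ^ 2 := pow_le_pow_left₀ (by positivity) h3 2
          linarith
      _ ≤ ∑ n ∈ F, 4 * ‖f n‖ ^ 2 :=
          sum_le_sum_of_subset_of_nonneg (filter_subset _ _) (fun _ _ _ => by positivity)
      _ = 4 * ∑ n ∈ F, ‖f n‖ ^ 2 := by rw [mul_sum]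
  have h3 := mul_le_mul_of_nonneg_left h1 (sq_nonneg u)
  refine h3.trans ?_
  have h4 : u ^ 2 * (9 * ((k : ℝ) / F.card * ((F.filter (fun n => u / 2 ≤ ‖f n‖)).card : ℝ))) ≤
      36 * ((k : ℝ) / F.card * ∑ n ∈ F, ‖f n‖ ^ 2) := by
    have h5 : (0 : ℝ) ≤ (k : ℝ) / F.card := by positivity
    have h6 := mul_le_mul_of_nonneg_left h2 h5
    calc u ^ 2 * (9 * ((k : ℝ) / F.card * ((F.filter (fun n => u / 2 ≤ ‖f n‖)).card : ℝ)))
        = 9 * ((k : ℝ) / F.card * (u ^ 2 * ((F.filter (fun n => u / 2 ≤ ‖f n‖)).card : ℝ))) := by ring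
      _ ≤ 9 * ((k : ℝ) / F.card * (4 * ∑ n ∈ F, ‖f n‖ ^ 2)) := by linarith
      _ = _ := by ring
  have h5 : u ^ 2 * (m * Lam) ≤ (272 * (W.card : ℝ) ^ 2 * ℓ + u ^ 2) * Lam := by
    have := mul_le_mul_of_nonneg_right hmle hLam
    linarith
  nlinarith

open Classical in
/-- **The mean square over a good set of frequencies.** -/
theorem main_det (F : Finset ℕ) (hF : F.Nonempty) (e : ι → ℕ → ℂ) (he : ∀ i, ∀ n ∈ F, ‖e i n‖ ≤ 1)
    (k : ℕ) (Lam : ℝ) (hLam : 0 ≤ Lam) (I : Finset ℕ) (hIF : I ⊆ F) (hI : GoodI F e k Lam I)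
    (hIk : I.card = k) (W : Finset ι) (hW : W.Nonempty) (b : ι → Fin 4) :
    ∑ n ∈ I, ‖∑ i ∈ W, phs (b i) * e i n‖ ^ 2 ≤
      4 * (36 * ((k : ℝ) / F.card * ∑ n ∈ F, ‖∑ i ∈ W, phs (b i) * e i n‖ ^ 2) +
        273 * (W.card : ℝ) ^ 2 * Real.log (4 * F.card) * (Lam + 1)) *
        ((Nat.log 2 W.card : ℝ) + 2) + k := by
  have hwc : (1 : ℝ) ≤ W.card := by exact_mod_cast card_pos.2 hW
  have hFc : (1 : ℝ) ≤ F.card := by exact_mod_cast card_pos.2 hF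
  have hℓ1 : 1 ≤ Real.log (4 * F.card) := by
    rw [Real.le_log_iff_exp_le (by linarith)]
    have := Real.exp_one_lt_d9
    linarith
  obtain ⟨f, hf⟩ : ∃ f : ℕ → ℂ, f = fun n => ∑ i ∈ W, phs (b i) * e i n := ⟨_, rfl⟩
  have hf' : ∀ n, ∑ i ∈ W, phs (b i) * e i n = f n := fun n => by rw [hf]
  have hfw : ∀ n ∈ I, ‖f n‖ ≤ W.card := by
    intro n hn
    rw [← hf']
    refine (norm_sum_le _ _).trans ?_
    calc ∑ i ∈ W, ‖phs (b i) * e i n‖ ≤ ∑ i ∈ W, (1 : ℝ) := by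
          apply sum_le_sum
          intro i _
          rw [norm_mul, (phs_isPh _).norm, one_mul]
          exact he i n (hIF hn)
      _ = W.card := by simp
  simp only [hf']
  obtain ⟨A0, hA0⟩ : ∃ A0 : ℝ, A0 = 36 * ((k : ℝ) / F.card * ∑ n ∈ F, ‖f n‖ ^ 2) +
        273 * (W.card : ℝ) ^ 2 * Real.log (4 * F.card) * (Lam + 1) := ⟨_, rfl⟩
  rw [← hA0]
  have hSf : 0 ≤ ∑ n ∈ F, ‖f n‖ ^ 2 := sum_nonneg fun _ _ => sq_nonneg _
  have hA00 : 0 ≤ A0 := by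
    rw [hA0]
    have h1 : 0 ≤ (k : ℝ) / F.card := div_nonneg (Nat.cast_nonneg _) (Nat.cast_nonneg _)
    have h2 : 0 ≤ (W.card : ℝ) ^ 2 * Real.log (4 * F.card) * (Lam + 1) :=
      mul_nonneg (mul_nonneg (sq_nonneg _) (by linarith)) (by linarith)
    have h3 := mul_nonneg h1 hSf
    linarith
  have hlev : ∀ u, 1 ≤ u → u ^ 2 * ((I.filter (fun n => u ≤ ‖f n‖)).card : ℝ) ≤ A0 := by
    intro u hu
    rcases le_or_gt u W.card with h1 | h1
    · have h2 := level F hF e he k Lam hLam I hIF hI W hW b u (by linarith)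
      simp only [hf'] at h2
      refine h2.trans ?_
      rw [hA0]
      have h3 : u ^ 2 * (Lam + 1) ≤ (W.card : ℝ) ^ 2 * Real.log (4 * F.card) * (Lam + 1) := by
        apply mul_le_mul_of_nonneg_right _ (by linarith)
        have h4 : u ^ 2 ≤ (W.card : ℝ) ^ 2 := pow_le_pow_left₀ (by linarith) h1 2
        nlinarith [sq_nonneg (W.card : ℝ)]
      have h5 : 272 * (W.card : ℝ) ^ 2 * Real.log (4 * F.card) * Lam ≤
          272 * (W.card : ℝ) ^ 2 * Real.log (4 * F.card) * (Lam + 1) := by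
        apply mul_le_mul_of_nonneg_left (by linarith)
        exact mul_nonneg (mul_nonneg (by norm_num) (sq_nonneg _)) (by linarith)
      linarith
    · have h2 : I.filter (fun n => u ≤ ‖f n‖) = ∅ := by
        rw [filter_eq_empty_iff]
        intro n hn
        push Not
        exact lt_of_le_of_lt (hfw n hn) h1
      rw [h2]
      simpa using hA00
  have hmax : ∀ n ∈ I, ‖f n‖ ≤ 2 ^ (Nat.log 2 W.card + 1) * 1 := by
    intro n hn
    rw [mul_one]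
    refine (hfw n hn).trans ?_
    have h1 : W.card < 2 ^ (Nat.log 2 W.card + 1) := Nat.lt_pow_succ_log_self (by norm_num) _
    exact_mod_cast h1.le
  have hdy := dyadic I (fun n => ‖f n‖) 1 A0 one_pos (Nat.log 2 W.card + 1) hmax hlev
  have hsmall : ∑ n ∈ I.filter (fun n => ¬ (1 : ℝ) ≤ ‖f n‖), ‖f n‖ ^ 2 ≤ k := by
    calc ∑ n ∈ I.filter (fun n => ¬ (1 : ℝ) ≤ ‖f n‖), ‖f n‖ ^ 2
        ≤ ∑ n ∈ I.filter (fun n => ¬ (1 : ℝ) ≤ ‖f n‖), (1 : ℝ) := by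
          apply sum_le_sum
          intro n hn
          have h1 := (mem_filter.1 hn).2
          push Not at h1
          exact pow_le_one₀ (norm_nonneg _) h1.le
      _ = ((I.filter (fun n => ¬ (1 : ℝ) ≤ ‖f n‖)).card : ℝ) := by simp
      _ ≤ k := by
          rw [← hIk]
          exact_mod_cast card_filter_le _ _
  rw [← sum_filter_add_sum_filter_not I (fun n => (1 : ℝ) ≤ ‖f n‖) (fun n => ‖f n‖ ^ 2)]
  refine add_le_add (hdy.trans (le_of_eq ?_)) hsmall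
  push_cast
  ring

/-- duality -/
theorem dual_bound (e : ι → ℕ → ℂ) (I : Finset ℕ) (a : ℕ → ℂ) (V : ℝ) (W : Finset ι)
    (hV : 0 ≤ V) (hW : ∀ i ∈ W, V ≤ ‖∑ n ∈ I, a n * e i n‖) :
    ∃ b : ι → Fin 4, V ^ 2 * (W.card : ℝ) ^ 2 ≤ 100 / 49 * (∑ n ∈ I, ‖a n‖ ^ 2) *
      ∑ n ∈ I, ‖∑ i ∈ W, phs (b i) * e i n‖ ^ 2 := by
  classical
  choose β hβ hβ2 using fun i => exists_phase (∑ n ∈ I, a n * e i n)
  choose b hb using fun i => exists_phs (hβ i)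
  refine ⟨b, ?_⟩
  have h1 : 7 / 10 * V * W.card ≤ ‖∑ n ∈ I, a n * ∑ i ∈ W, phs (b i) * e i n‖ := by
    calc 7 / 10 * V * W.card = ∑ i ∈ W, 7 / 10 * V := by rw [sum_const, nsmul_eq_mul]; ring
      _ ≤ ∑ i ∈ W, (β i * ∑ n ∈ I, a n * e i n).re := by
          apply sum_le_sum
          intro i hi
          exact (mul_le_mul_of_nonneg_left (hW i hi) (by norm_num)).trans (hβ2 i)
      _ = (∑ i ∈ W, β i * ∑ n ∈ I, a n * e i n).re := by rw [Complex.re_sum]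
      _ ≤ ‖∑ i ∈ W, β i * ∑ n ∈ I, a n * e i n‖ := Complex.re_le_norm _
      _ = ‖∑ n ∈ I, a n * ∑ i ∈ W, phs (b i) * e i n‖ := by
          congr 1
          simp only [mul_sum]
          rw [sum_comm]
          apply sum_congr rfl
          intro n _
          apply sum_congr rfl
          intro i _
          rw [hb]
          ring
  have h2 : ‖∑ n ∈ I, a n * ∑ i ∈ W, phs (b i) * e i n‖ ^ 2 ≤
      (∑ n ∈ I, ‖a n‖ ^ 2) * ∑ n ∈ I, ‖∑ i ∈ W, phs (b i) * e i n‖ ^ 2 := by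
    calc ‖∑ n ∈ I, a n * ∑ i ∈ W, phs (b i) * e i n‖ ^ 2
        ≤ (∑ n ∈ I, ‖a n‖ * ‖∑ i ∈ W, phs (b i) * e i n‖) ^ 2 := by
          apply pow_le_pow_left₀ (norm_nonneg _)
          refine (norm_sum_le _ _).trans (le_of_eq ?_)
          exact sum_congr rfl fun n _ => norm_mul _ _
      _ ≤ _ := sum_mul_sq_le_sq_mul_sq _ _ _
  have h3 : (7 / 10 * V * W.card) ^ 2 ≤ ‖∑ n ∈ I, a n * ∑ i ∈ W, phs (b i) * e i n‖ ^ 2 :=
    pow_le_pow_left₀ (by positivity) h1 2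
  have h4 := h3.trans h2
  have h5 : (7 / 10 * V * (W.card : ℝ)) ^ 2 = 49 / 100 * (V ^ 2 * (W.card : ℝ) ^ 2) := by ring
  rw [h5] at h4
  linarith

/-- the moment bound for the sums over all frequencies -/
theorem moment_dual (e : ι → ℕ → ℂ) (F : Finset ℕ) (W : Finset ι) (κ : ℕ) (hκ : 1 ≤ κ) (Gk : ℝ)
    (hG : ∀ a : ℕ → ℂ, ∑ i ∈ W, ‖∑ n ∈ F, a n * e i n‖ ^ (2 * κ) ≤ Gk * (∑ n ∈ F, ‖a n‖ ^ 2) ^ κ)
    (hGk : 0 ≤ Gk) (b : ι → Fin 4) :
    (∑ n ∈ F, ‖∑ i ∈ W, phs (b i) * e i n‖ ^ 2) ^ κ ≤ (W.card : ℝ) ^ (2 * κ - 1) * Gk := by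
  obtain ⟨f, hf⟩ : ∃ f : ℕ → ℂ, f = fun n => ∑ i ∈ W, phs (b i) * e i n := ⟨_, rfl⟩
  have hf' : ∀ n, ∑ i ∈ W, phs (b i) * e i n = f n := fun n => by rw [hf]
  simp only [hf']
  obtain ⟨S, hS⟩ : ∃ S : ℝ, S = ∑ n ∈ F, ‖f n‖ ^ 2 := ⟨_, rfl⟩
  have hS0 : 0 ≤ S := by rw [hS]; exact sum_nonneg fun _ _ => sq_nonneg _
  rw [← hS]
  rcases hS0.lt_or_eq with hSp | hSz
  swap
  · rw [← hSz, zero_pow (by omega)]
    exact mul_nonneg (pow_nonneg (Nat.cast_nonneg _) _) hGk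
  have h1 : S ≤ ∑ i ∈ W, ‖∑ n ∈ F, (starRingEnd ℂ) (f n) * e i n‖ := by
    have e1 : (S : ℂ) = ∑ i ∈ W, phs (b i) * ∑ n ∈ F, (starRingEnd ℂ) (f n) * e i n := by
      rw [hS]
      push_cast
      simp only [mul_sum]
      rw [sum_comm]
      apply sum_congr rfl
      intro n _
      have e2 : ((‖f n‖ : ℂ)) ^ 2 = (starRingEnd ℂ) (f n) * f n := by
        rw [mul_comm, Complex.mul_conj, Complex.normSq_eq_norm_sq]
        push_cast
        rfl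
      rw [e2]
      conv_lhs => rw [← hf' n]
      rw [mul_sum, hf']
      apply sum_congr rfl
      intro i _
      ring
    calc S = ‖(S : ℂ)‖ := by rw [Complex.norm_real, Real.norm_of_nonneg hS0]
      _ ≤ ∑ i ∈ W, ‖phs (b i) * ∑ n ∈ F, (starRingEnd ℂ) (f n) * e i n‖ := by
          rw [e1]
          exact norm_sum_le _ _
      _ = _ := by
          apply sum_congr rfl
          intro i _
          rw [norm_mul, (phs_isPh _).norm, one_mul]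
  have h2 : S ^ (2 * κ) ≤ (W.card : ℝ) ^ (2 * κ - 1) * (Gk * S ^ κ) := by
    obtain ⟨j, hj⟩ : ∃ j, 2 * κ = j + 1 := ⟨2 * κ - 1, by omega⟩
    have h3 := pow_sum_le_card_mul_sum_pow (s := W)
      (f := fun i => ‖∑ n ∈ F, (starRingEnd ℂ) (f n) * e i n‖) (fun i _ => norm_nonneg _) j
    rw [← hj] at h3
    have h4 : j = 2 * κ - 1 := by omega
    rw [h4] at h3
    have h5 := hG (fun n => (starRingEnd ℂ) (f n))
    simp only [RCLike.norm_conj] at h5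
    rw [← hS] at h5
    calc S ^ (2 * κ) ≤ (∑ i ∈ W, ‖∑ n ∈ F, (starRingEnd ℂ) (f n) * e i n‖) ^ (2 * κ) :=
          pow_le_pow_left₀ hS0 h1 _
      _ ≤ _ := h3
      _ ≤ _ := mul_le_mul_of_nonneg_left h5 (pow_nonneg (Nat.cast_nonneg _) _)
  have h6 : S ^ κ * S ^ κ ≤ ((W.card : ℝ) ^ (2 * κ - 1) * Gk) * S ^ κ := by
    calc S ^ κ * S ^ κ = S ^ (2 * κ) := by ring
      _ ≤ _ := h2
      _ = _ := by ring
  exact le_of_mul_le_mul_right h6 (pow_pos hSp κ)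

end Pool.Agent.Y959.Rs
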