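import Pool.Agent.Y959.Rs.Fin

set_option autoImplicit false

/-!
# The `ℓ^q` inequality on random supports
-/

namespace Pool.Agent.Y959.Rs

open Finset Pool.Agent.TH705.DL Pool.Agent.Y959.Her Pool.Agent.Y959.Smp

/-- the exponent: `s (1-s) ≤ r (κ + s)` -/
theorem expo (j κ : ℕ) (hj : 1 ≤ j) (hjκ : j ≤ κ) (s : ℝ) (hs : 0 ≤ s) :
    s - s ^ 2 ≤ (Real.sqrt (j + 1) - Real.sqrt j) ^ 2 * (κ + s) := by
  have hj0 : (0 : ℝ) < j := by exact_mod_cast hj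
  obtain ⟨a, ha⟩ : ∃ a : ℝ, a = Real.sqrt (j + 1) := ⟨_, rfl⟩
  obtain ⟨b, hb⟩ : ∃ b : ℝ, b = Real.sqrt j := ⟨_, rfl⟩
  rw [← ha, ← hb]
  have ha2 : a ^ 2 = j + 1 := by rw [ha]; exact Real.sq_sqrt (by linarith)
  have hb2 : b ^ 2 = j := by rw [hb]; exact Real.sq_sqrt hj0.le
  have h1 : (0 : ℝ) ≤ (a - b) ^ 2 := sq_nonneg _
  have hκ : (j : ℝ) ≤ κ := by exact_mod_cast hjκ
  have h2 : (a - b) ^ 2 * (j + s) ≤ (a - b) ^ 2 * (κ + s) :=
    mul_le_mul_of_nonneg_left (by linarith) h1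
  refine le_trans ?_ h2
  -- (s - b (a - b))² ≥ 0
  have h3 : (s - b * (a - b)) ^ 2 = s ^ 2 - 2 * s * (a * b - b ^ 2) + b ^ 2 * (a - b) ^ 2 := by ring
  have h4 : (a - b) ^ 2 = 1 - 2 * (a * b - b ^ 2) := by nlinarith
  have h5 := sq_nonneg (s - b * (a - b))
  rw [h3] at h5
  nlinarith

/-- interpolation of two bounds -/
theorem min_interp (a b s x : ℝ) (ha : 0 ≤ a) (hb : 0 ≤ b) (hs : 0 ≤ s) (hs1 : s ≤ 1) (hx : 0 ≤ x)
    (hxa : x ≤ a) (hxb : x ≤ b) : x ≤ a ^ (1 - s) * b ^ s := by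
  rcases hx.lt_or_eq with hx0 | hx0
  swap
  · rw [← hx0]
    positivity
  calc x = x ^ (1 - s) * x ^ s := by
        rw [← Real.rpow_add hx0]
        simp
    _ ≤ a ^ (1 - s) * b ^ s := by
        apply mul_le_mul (Real.rpow_le_rpow hx hxa (by linarith)) (Real.rpow_le_rpow hx hxb hs)
          (by positivity) (by positivity)

/-- the level sets at the critical exponent -/
theorem crit_level (N T k : ℕ) (hN : 2 ≤ N) (B : ℝ) (hB : 0 ≤ B) (κ j : ℕ) (hj : 1 ≤ j) (hjκ : j ≤ κ)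
    (τ : ℝ) (hτ : (T : ℝ) = (N : ℝ) ^ τ) (hκτ : (κ : ℝ) ≤ τ) (hτκ : τ ≤ κ + 1)
    (hk : (k : ℝ) ≤ (N : ℝ) ^ (1 - (Real.sqrt (j + 1) - Real.sqrt j) ^ 2 / 2))
    (X V : ℝ) (hX : 0 ≤ X) (hV : 0 < V) (hV2 : V ≤ 2 * N) (hkN : (k : ℝ) ≤ 2 * N)
    (h1 : X ≤ B * ((k : ℝ) ^ 2 / V ^ 2 + (T + (N : ℝ) ^ κ) * ((k : ℝ) ^ 2 / (N * V ^ 2)) ^ κ))
    (h2 : X ≤ B * ((k : ℝ) ^ 2 / V ^ 2 + (T + (N : ℝ) ^ (κ + 1)) *
      ((k : ℝ) ^ 2 / (N * V ^ 2)) ^ (κ + 1))) :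
    V ^ (2 * τ) * X ≤ 2 * B * (4 ^ (κ + 1) + 2) * (N : ℝ) ^ (2 * τ) := by
  have hN1 : (1 : ℝ) ≤ N := by exact_mod_cast (by omega : 1 ≤ N)
  have hN0 : (0 : ℝ) < N := by linarith
  have hk0 : (0 : ℝ) ≤ k := Nat.cast_nonneg _
  have hκ1 : (1 : ℝ) ≤ κ := by exact_mod_cast (hj.trans hjκ)
  obtain ⟨s, hs⟩ : ∃ s : ℝ, s = τ - κ := ⟨_, rfl⟩
  have hs0 : 0 ≤ s := by linarith
  have hs1 : s ≤ 1 := by linarith
  have hTN : (N : ℝ) ^ κ ≤ T := by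
    rw [hτ, ← Real.rpow_natCast]
    exact Real.rpow_le_rpow_of_exponent_le hN1 hκτ
  have hTN2 : (T : ℝ) ≤ (N : ℝ) ^ (κ + 1) := by
    rw [hτ, ← Real.rpow_natCast]
    apply Real.rpow_le_rpow_of_exponent_le hN1
    push_cast
    exact hτκ
  obtain ⟨y, hy⟩ : ∃ y : ℝ, y = (k : ℝ) ^ 2 / (N * V ^ 2) := ⟨_, rfl⟩
  have hy0 : 0 ≤ y := by rw [hy]; positivity
  rw [← hy] at h1 h2
  obtain ⟨z, hz⟩ : ∃ z : ℝ, z = (k : ℝ) ^ 2 / V ^ 2 := ⟨_, rfl⟩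
  have hz0 : 0 ≤ z := by rw [hz]; positivity
  rw [← hz] at h1 h2
  -- the two bounds
  have h3 : X ≤ B * z + 2 * B * ((T : ℝ) * y ^ κ) := by
    refine h1.trans ?_
    have h4 : (T + (N : ℝ) ^ κ) * y ^ κ ≤ 2 * (T * y ^ κ) := by
      have := mul_le_mul_of_nonneg_right hTN (pow_nonneg hy0 κ)
      linarith
    have := mul_le_mul_of_nonneg_left h4 hB
    linarith
  have h4 : X ≤ B * z + 2 * B * ((N : ℝ) ^ (κ + 1) * y ^ (κ + 1)) := by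
    refine h2.trans ?_
    have h4 : (T + (N : ℝ) ^ (κ + 1)) * y ^ (κ + 1) ≤ 2 * ((N : ℝ) ^ (κ + 1) * y ^ (κ + 1)) := by
      have := mul_le_mul_of_nonneg_right hTN2 (pow_nonneg hy0 (κ + 1))
      linarith
    have := mul_le_mul_of_nonneg_left h4 hB
    linarith
  -- the minimum
  obtain ⟨m, hm⟩ : ∃ m : ℝ, m = min ((T : ℝ) * y ^ κ) ((N : ℝ) ^ (κ + 1) * y ^ (κ + 1)) := ⟨_, rfl⟩
  have hm0 : 0 ≤ m := by
    rw [hm]
    exact le_min (by positivity) (by positivity)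
  have h5 : X ≤ B * z + 2 * B * m := by
    rcases min_choice ((T : ℝ) * y ^ κ) ((N : ℝ) ^ (κ + 1) * y ^ (κ + 1)) with h | h
    · rw [hm, h]
      exact h3
    · rw [hm, h]
      exact h4
  have h6 : m ≤ ((T : ℝ) * y ^ κ) ^ (1 - s) * ((N : ℝ) ^ (κ + 1) * y ^ (κ + 1)) ^ s :=
    min_interp _ _ s m (by positivity) (by positivity) hs0 hs1 hm0 (by rw [hm]; exact min_le_left _ _)
      (by rw [hm]; exact min_le_right _ _)
  -- the exponents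
  have hVτ : 0 ≤ V ^ (2 * τ) := by positivity
  have h7 : V ^ (2 * τ) * m ≤ (N : ℝ) ^ (2 * τ) := by
    refine (mul_le_mul_of_nonneg_left h6 hVτ).trans ?_
    have e1 : ((T : ℝ) * y ^ κ) ^ (1 - s) = (N : ℝ) ^ (τ * (1 - s)) * y ^ (κ * (1 - s)) := by
      rw [Real.mul_rpow (Nat.cast_nonneg _) (by positivity), hτ, ← Real.rpow_mul hN0.le,
        ← Real.rpow_natCast y κ, ← Real.rpow_mul hy0]
    have e2 : ((N : ℝ) ^ (κ + 1) * y ^ (κ + 1)) ^ s =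
        (N : ℝ) ^ (((κ : ℝ) + 1) * s) * y ^ (((κ : ℝ) + 1) * s) := by
      rw [Real.mul_rpow (by positivity) (by positivity), ← Real.rpow_natCast (N : ℝ) (κ + 1),
        ← Real.rpow_natCast y (κ + 1), ← Real.rpow_mul hN0.le, ← Real.rpow_mul hy0]
      push_cast
      rfl
    rw [e1, e2]
    rcases hy0.lt_or_eq with hyp | hyz
    swap
    · -- y = 0
      rw [← hyz]
      rcases hs1.lt_or_eq with hs1' | hs1'
      · rw [Real.zero_rpow (by nlinarith : (κ : ℝ) * (1 - s) ≠ 0)]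
        simp only [mul_zero, zero_mul]
        positivity
      · rw [Real.zero_rpow (by rw [hs1']; positivity : ((κ : ℝ) + 1) * s ≠ 0)]
        simp only [mul_zero]
        positivity
    have hτκs : (κ : ℝ) * (1 - s) + (κ + 1) * s = τ := by
      rw [hs]
      ring
    have e3 : V ^ (2 * τ) = (V ^ 2) ^ τ := by
      rw [Real.rpow_mul hV.le]
      congr 1
      exact_mod_cast Real.rpow_natCast V 2
    have e4 : V ^ (2 * τ) * ((N : ℝ) ^ (τ * (1 - s)) * y ^ ((κ : ℝ) * (1 - s)) *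
        ((N : ℝ) ^ (((κ : ℝ) + 1) * s) * y ^ (((κ : ℝ) + 1) * s))) =
        (N : ℝ) ^ (τ * (1 - s) + ((κ : ℝ) + 1) * s) * (V ^ 2 * y) ^ τ := by
      rw [e3, Real.mul_rpow (by positivity) hy0, Real.rpow_add hN0, ← hτκs, Real.rpow_add hyp]
      ring
    rw [e4]
    have e5 : V ^ 2 * y = (k : ℝ) ^ 2 / N := by
      rw [hy]
      field_simp
    rw [e5]
    obtain ⟨r, hr⟩ : ∃ r : ℝ, r = (Real.sqrt (j + 1) - Real.sqrt j) ^ 2 := ⟨_, rfl⟩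
    rw [← hr] at hk
    have h8 : (k : ℝ) ^ 2 / N ≤ (N : ℝ) ^ (1 - r) := by
      have h9 : (k : ℝ) ^ 2 ≤ (N : ℝ) ^ (1 - r / 2) * (N : ℝ) ^ (1 - r / 2) := by
        rw [sq]
        exact mul_le_mul hk hk hk0 (by positivity)
      rw [← Real.rpow_add hN0] at h9
      rw [div_le_iff₀ hN0]
      refine h9.trans (le_of_eq ?_)
      conv_rhs => rw [← Real.rpow_one (N : ℝ), ← Real.rpow_mul hN0.le]
      rw [← Real.rpow_add hN0]
      congr 1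
      ring
    have h9 : ((k : ℝ) ^ 2 / N) ^ τ ≤ (N : ℝ) ^ ((1 - r) * τ) := by
      rw [Real.rpow_mul hN0.le]
      exact Real.rpow_le_rpow (by positivity) h8 (by linarith)
    refine (mul_le_mul_of_nonneg_left h9 (by positivity)).trans ?_
    rw [← Real.rpow_add hN0]
    apply Real.rpow_le_rpow_of_exponent_le hN1
    have h10 := expo j κ hj hjκ s hs0
    rw [← hr] at h10
    have h11 : (κ : ℝ) + s = τ := by rw [hs]; ring
    rw [h11] at h10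
    have h12 : τ * (1 - s) + ((κ : ℝ) + 1) * s + (1 - r) * τ = 2 * τ + (s - s ^ 2) - r * τ := by
      have h13 : (κ : ℝ) = τ - s := by linarith
      rw [h13]
      ring
    rw [h12]
    linarith
  have h8 : V ^ (2 * τ) * z ≤ 4 ^ (κ + 1) * (N : ℝ) ^ (2 * τ) := by
    have e1 : V ^ (2 * τ) = V ^ (2 * τ - 2) * V ^ 2 := by
      rw [Real.rpow_sub hV]
      have : V ^ (2 : ℝ) = V ^ 2 := by exact_mod_cast Real.rpow_natCast V 2
      rw [this]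
      field_simp
    have e2 : V ^ (2 * τ) * z = V ^ (2 * τ - 2) * (k : ℝ) ^ 2 := by
      rw [e1, hz]
      field_simp
    rw [e2]
    have h9 : V ^ (2 * τ - 2) ≤ (2 * (N : ℝ)) ^ (2 * τ - 2) :=
      Real.rpow_le_rpow hV.le hV2 (by linarith)
    have h10 : (k : ℝ) ^ 2 ≤ (2 * (N : ℝ)) ^ (2 : ℝ) := by
      have : (2 * (N : ℝ)) ^ (2 : ℝ) = (2 * (N : ℝ)) ^ 2 := by
        exact_mod_cast Real.rpow_natCast (2 * (N : ℝ)) 2
      rw [this]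
      exact pow_le_pow_left₀ hk0 hkN 2
    calc V ^ (2 * τ - 2) * (k : ℝ) ^ 2 ≤ (2 * (N : ℝ)) ^ (2 * τ - 2) * (2 * (N : ℝ)) ^ (2 : ℝ) :=
          mul_le_mul h9 h10 (by positivity) (by positivity)
      _ = (2 * (N : ℝ)) ^ (2 * τ) := by
          rw [← Real.rpow_add (by positivity)]
          congr 1
          ring
      _ = 2 ^ (2 * τ) * (N : ℝ) ^ (2 * τ) := Real.mul_rpow (by norm_num) hN0.le
      _ ≤ 4 ^ (κ + 1) * (N : ℝ) ^ (2 * τ) := by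
          apply mul_le_mul_of_nonneg_right _ (by positivity)
          rw [Real.rpow_mul (by norm_num)]
          have h12 : ((2 : ℝ) ^ (2 : ℝ)) = 4 := by norm_num
          rw [h12, ← Real.rpow_natCast (4 : ℝ) (κ + 1)]
          apply Real.rpow_le_rpow_of_exponent_le (by norm_num)
          push_cast
          exact hτκ
  calc V ^ (2 * τ) * X ≤ V ^ (2 * τ) * (B * z + 2 * B * m) := mul_le_mul_of_nonneg_left h5 hVτ
    _ = B * (V ^ (2 * τ) * z) + 2 * B * (V ^ (2 * τ) * m) := by ring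
    _ ≤ B * (4 ^ (κ + 1) * (N : ℝ) ^ (2 * τ)) + 2 * B * (N : ℝ) ^ (2 * τ) :=
        add_le_add (mul_le_mul_of_nonneg_left h8 hB) (mul_le_mul_of_nonneg_left h7 (by linarith))
    _ ≤ 2 * B * (4 ^ (κ + 1) + 2) * (N : ℝ) ^ (2 * τ) := by
        have h9 : 0 ≤ B * (4 : ℝ) ^ (κ + 1) * (N : ℝ) ^ (2 * τ) := by positivity
        have h10 : 0 ≤ B * (N : ℝ) ^ (2 * τ) := by positivity
        linarith

end Pool.Agent.Y959.Rs
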