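import Pool.Agent.Y959.Rs.Lq

set_option autoImplicit false

/-!
# The `ℓ^q` inequality on random supports, summation
-/

namespace Pool.Agent.Y959.Rs

open Finset Pool.Agent.TH705.DL Pool.Agent.Y959.Her Pool.Agent.Y959.Smp

/-- the level sets -/
theorem lev_all (Q N T k : ℕ) (hN : 2 ≤ N) (C ε1 : ℝ) (hC : 1 ≤ C) (κ j : ℕ)
    (hj : 1 ≤ j) (hjκ : j ≤ κ) (hκQ : κ ≤ Q) (τ : ℝ) (hτ : (T : ℝ) = (N : ℝ) ^ τ) (hκτ : (κ : ℝ) ≤ τ)
    (hτκ : τ ≤ κ + 1)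
    (hk : (k : ℝ) ≤ (N : ℝ) ^ (1 - (Real.sqrt (j + 1) - Real.sqrt j) ^ 2 / 2))
    (hbig : C * (N : ℝ) ^ ε1 * k < N)
    (I : Finset ℕ) (hIF : I ⊆ Icc N (2 * N)) (hIk : I.card = k) (hI : Good1 N T k (Q + 1) C ε1 I)
    (a : ℕ → ℂ) (ha : ∀ n, ‖a n‖ ≤ 1) (W : Finset ℕ) (hW : ∀ t ∈ W, t ≤ T) (V : ℝ)
    (hV : Real.sqrt N ≤ V) (hVW : ∀ t ∈ W, V ≤ ‖∑ n ∈ I, a n * ph (t : ℝ) n‖) :
    V ^ (2 * τ) * W.card ≤ 2 * (C * (N : ℝ) ^ ε1) * (4 ^ (κ + 1) + 2) * (N : ℝ) ^ (2 * τ) := by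
  have hN1 : (1 : ℝ) ≤ N := by exact_mod_cast (by omega : 1 ≤ N)
  have hN0 : (0 : ℝ) < N := by linarith
  have hk0 : (0 : ℝ) ≤ k := Nat.cast_nonneg _
  have hkN : (k : ℝ) ≤ 2 * N := by
    have h1 : k ≤ N + 1 := by
      rw [← hIk]
      refine (card_le_card hIF).trans ?_
      rw [Nat.card_Icc]
      omega
    have h2 : (k : ℝ) ≤ N + 1 := by exact_mod_cast h1
    linarith
  have hsN : 0 < Real.sqrt N := Real.sqrt_pos.2 hN0
  have hV0 : 0 < V := lt_of_lt_of_le hsN hV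
  rcases W.eq_empty_or_nonempty with h0 | ⟨t0, ht0⟩
  · rw [h0]
    simp only [card_empty, Nat.cast_zero, mul_zero]
    positivity
  have hG : ∑ n ∈ I, ‖a n‖ ^ 2 ≤ k := by
    rw [← hIk]
    calc ∑ n ∈ I, ‖a n‖ ^ 2 ≤ ∑ n ∈ I, (1 : ℝ) :=
          sum_le_sum fun n _ => pow_le_one₀ (norm_nonneg _) (ha n)
      _ = _ := by simp
  have hG0 : 0 ≤ ∑ n ∈ I, ‖a n‖ ^ 2 := sum_nonneg fun _ _ => sq_nonneg _
  have hVk : V ≤ 2 * N := by
    refine ((hVW t0 ht0).trans ?_).trans hkN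
    rw [← hIk]
    refine (norm_sum_le _ _).trans ?_
    calc ∑ n ∈ I, ‖a n * ph (t0 : ℝ) n‖ ≤ ∑ n ∈ I, (1 : ℝ) := by
          apply sum_le_sum
          intro n _
          rw [norm_mul, ph_norm, mul_one]
          exact ha n
      _ = _ := by simp
  obtain ⟨G, hGd⟩ : ∃ G : ℝ, G = ∑ n ∈ I, ‖a n‖ ^ 2 := ⟨_, rfl⟩
  have hB : 0 ≤ C * (N : ℝ) ^ ε1 := by positivity
  have hVN : (N : ℝ) ≤ V ^ 2 := by
    calc (N : ℝ) = (Real.sqrt N) ^ 2 := (Real.sq_sqrt hN0.le).symm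
      _ ≤ V ^ 2 := pow_le_pow_left₀ hsN.le hV 2
  have hmain := (hI W a hW).2.2
  rw [← hGd] at hG hG0 hmain
  have hno : ¬ V ^ 2 ≤ C * (N : ℝ) ^ ε1 * G := by
    intro h
    have h1 : C * (N : ℝ) ^ ε1 * G ≤ C * (N : ℝ) ^ ε1 * k := mul_le_mul_of_nonneg_left hG hB
    linarith
  have hbd : ∀ κ' : ℕ, 1 ≤ κ' → κ' ≤ Q + 1 → (W.card : ℝ) ≤ (C * (N : ℝ) ^ ε1) *
      ((k : ℝ) ^ 2 / V ^ 2 + (T + (N : ℝ) ^ κ') * ((k : ℝ) ^ 2 / (N * V ^ 2)) ^ κ') := by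
    intro κ' h1 h2
    rcases hmain κ' h1 h2 V hV0 hVW with h3 | h3
    · exact absurd h3 hno
    · refine h3.trans ?_
      have hkG : k * G ≤ (k : ℝ) ^ 2 := by
        rw [sq]
        exact mul_le_mul_of_nonneg_left hG hk0
      apply mul_le_mul_of_nonneg_left _ hB
      apply add_le_add
      · exact div_le_div_of_nonneg_right hkG (by positivity)
      · apply mul_le_mul_of_nonneg_left _ (by positivity)
        apply pow_le_pow_left₀ (by positivity)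
        exact div_le_div_of_nonneg_right hkG (by positivity)
  exact crit_level N T k hN (C * (N : ℝ) ^ ε1) hB κ j hj hjκ τ hτ hκτ hτκ hk (W.card : ℝ) V
    (Nat.cast_nonneg _) hV0 hVk hkN (hbd κ (hj.trans hjκ) (by omega)) (hbd (κ + 1) (by omega) (by omega))

open Classical in
/-- the sum -/
theorem lq_sum (Q N T k : ℕ) (hN : 2 ≤ N) (C ε1 : ℝ) (hC : 1 ≤ C) (κ j : ℕ)
    (hj : 1 ≤ j) (hjκ : j ≤ κ) (hκQ : κ ≤ Q) (τ : ℝ) (hτ : (T : ℝ) = (N : ℝ) ^ τ) (hκτ : (κ : ℝ) ≤ τ)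
    (hτκ : τ ≤ κ + 1)
    (hk : (k : ℝ) ≤ (N : ℝ) ^ (1 - (Real.sqrt (j + 1) - Real.sqrt j) ^ 2 / 2))
    (hbig : C * (N : ℝ) ^ ε1 * k < N)
    (I : Finset ℕ) (hIF : I ⊆ Icc N (2 * N)) (hIk : I.card = k) (hI : Good1 N T k (Q + 1) C ε1 I)
    (a : ℕ → ℂ) (ha : ∀ n, ‖a n‖ ≤ 1) (q : ℝ) (hq : 0 < q) :
    ∑ t ∈ Icc 1 T, ‖∑ n ∈ I, a n * ph (t : ℝ) n‖ ^ q ≤
      (1 + 8 * (C * (N : ℝ) ^ ε1) * (4 ^ (κ + 1) + 2) * ((Q + 1) * (Nat.log 2 N + 2) + 1)) *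
        (2 ^ q * ((N : ℝ) ^ q + T * (N : ℝ) ^ (q / 2))) := by
  have hN1 : (1 : ℝ) ≤ N := by exact_mod_cast (by omega : 1 ≤ N)
  have hN0 : (0 : ℝ) < N := by linarith
  have hk0 : (0 : ℝ) ≤ k := Nat.cast_nonneg _
  have hκ1 : (1 : ℝ) ≤ κ := by exact_mod_cast (hj.trans hjκ)
  have hτ0 : 0 < τ := by linarith
  have hτQ : τ ≤ (Q : ℝ) + 1 := by
    have : (κ : ℝ) ≤ Q := by exact_mod_cast hκQ
    linarith
  have hsN : 0 < Real.sqrt N := Real.sqrt_pos.2 hN0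
  obtain ⟨d, hd⟩ : ∃ d : ℕ → ℝ, d = fun t : ℕ => ‖∑ n ∈ I, a n * ph (t : ℝ) n‖ := ⟨_, rfl⟩
  have hd' : ∀ t : ℕ, ‖∑ n ∈ I, a n * ph (t : ℝ) n‖ = d t := fun t => by rw [hd]
  have hd0 : ∀ t, 0 ≤ d t := fun t => by rw [hd]; exact norm_nonneg _
  have hdN : ∀ t, d t ≤ 2 * N := by
    intro t
    have hkN : (k : ℝ) ≤ 2 * N := by
      have h1 : k ≤ N + 1 := by
        rw [← hIk]
        refine (card_le_card hIF).trans ?_
        rw [Nat.card_Icc]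
        omega
      have h2 : (k : ℝ) ≤ N + 1 := by exact_mod_cast h1
      linarith
    rw [← hd']
    refine le_trans ?_ hkN
    rw [← hIk]
    refine (norm_sum_le _ _).trans ?_
    calc ∑ n ∈ I, ‖a n * ph (t : ℝ) n‖ ≤ ∑ n ∈ I, (1 : ℝ) := by
          apply sum_le_sum
          intro n _
          rw [norm_mul, ph_norm, mul_one]
          exact ha n
      _ = _ := by simp
  simp only [hd']
  obtain ⟨A0, hA0⟩ : ∃ A0 : ℝ, A0 = 2 * (C * (N : ℝ) ^ ε1) * (4 ^ (κ + 1) + 2) * (N : ℝ) ^ (2 * τ) :=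
    ⟨_, rfl⟩
  have hA00 : 0 ≤ A0 := by rw [hA0]; positivity
  have hNτ : 1 ≤ (N : ℝ) ^ (τ / 2) := Real.one_le_rpow hN1 (by linarith)
  obtain ⟨J, hJ⟩ : ∃ J : ℕ, J = (Q + 1) * (Nat.log 2 N + 2) := ⟨_, rfl⟩
  have hmax : ∀ t ∈ Icc 1 T, (d t) ^ τ ≤ 2 ^ J * (N : ℝ) ^ (τ / 2) := by
    intro t _
    have h1 : d t ≤ 2 ^ (Nat.log 2 N + 2) := by
      refine (hdN t).trans ?_
      have h2 : N < 2 ^ (Nat.log 2 N + 1) := Nat.lt_pow_succ_log_self (by norm_num) _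
      have h3 : (N : ℝ) ≤ 2 ^ (Nat.log 2 N + 1) := by exact_mod_cast h2.le
      calc 2 * (N : ℝ) ≤ 2 * 2 ^ (Nat.log 2 N + 1) := by linarith
        _ = _ := by ring
    have h4 : (1 : ℝ) ≤ 2 ^ (Nat.log 2 N + 2) := one_le_pow₀ (by norm_num)
    calc (d t) ^ τ ≤ ((2 : ℝ) ^ (Nat.log 2 N + 2)) ^ τ := Real.rpow_le_rpow (hd0 t) h1 hτ0.le
      _ ≤ ((2 : ℝ) ^ (Nat.log 2 N + 2)) ^ ((Q : ℝ) + 1) := Real.rpow_le_rpow_of_exponent_le h4 hτQ
      _ = 2 ^ J := by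
          have : ((Q : ℝ) + 1) = ((Q + 1 : ℕ) : ℝ) := by push_cast; rfl
          rw [this, Real.rpow_natCast, ← pow_mul, hJ, mul_comm]
      _ ≤ 2 ^ J * (N : ℝ) ^ (τ / 2) := le_mul_of_one_le_right (by positivity) hNτ
  have hlev : ∀ V', (N : ℝ) ^ (τ / 2) ≤ V' →
      V' ^ 2 * (((Icc 1 T).filter (fun t => V' ≤ (d t) ^ τ)).card : ℝ) ≤ A0 := by
    intro V' hV'
    have hV'0 : 0 < V' := by linarith
    obtain ⟨V, hV⟩ : ∃ V : ℝ, V = V' ^ (1 / τ) := ⟨_, rfl⟩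
    have h1 : V ^ (2 * τ) = V' ^ 2 := by
      rw [hV, ← Real.rpow_mul hV'0.le]
      have : 1 / τ * (2 * τ) = ((2 : ℕ) : ℝ) := by
        push_cast
        field_simp
      rw [this, Real.rpow_natCast]
    have h2 : Real.sqrt N ≤ V := by
      rw [hV, Real.sqrt_eq_rpow]
      have h3 : (N : ℝ) ^ ((1 : ℝ) / 2) = ((N : ℝ) ^ (τ / 2)) ^ (1 / τ) := by
        rw [← Real.rpow_mul hN0.le]
        congr 1
        field_simp
      rw [h3]
      exact Real.rpow_le_rpow (by positivity) hV' (by positivity)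
    rw [← h1, hA0]
    refine lev_all Q N T k hN C ε1 hC κ j hj hjκ hκQ τ hτ hκτ hτκ hk hbig I hIF hIk hI a ha _ ?_ V h2 ?_
    · intro t ht
      exact (mem_Icc.1 (mem_filter.1 ht).1).2
    · intro t ht
      rw [hd']
      have h3 := (mem_filter.1 ht).2
      have h4 : (d t) = ((d t) ^ τ) ^ (1 / τ) := by
        rw [← Real.rpow_mul (hd0 t)]
        have : τ * (1 / τ) = 1 := by field_simp
        rw [this, Real.rpow_one]
      rw [hV, h4]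
      exact Real.rpow_le_rpow hV'0.le h3 (by positivity)
  have hdy := dyadic (Icc 1 T) (fun t => (d t) ^ τ) ((N : ℝ) ^ (τ / 2)) A0 (by linarith) J hmax hlev
  -- large
  have hlarge : ∑ t ∈ (Icc 1 T).filter (fun t => (N : ℝ) ^ (τ / 2) ≤ (d t) ^ τ), (d t) ^ q ≤
      (2 ^ q * ((N : ℝ) ^ (q - 2 * τ) + (N : ℝ) ^ (q / 2 - τ))) * (4 * A0 * (J + 1)) := by
    refine le_trans ?_ (mul_le_mul_of_nonneg_left hdy (by positivity))
    rw [mul_sum]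
    apply sum_le_sum
    intro t ht
    have h3 := (mem_filter.1 ht).2
    have h4 : Real.sqrt N ≤ d t := by
      by_contra hcon
      push Not at hcon
      have h5 : (d t) ^ τ < (Real.sqrt N) ^ τ := Real.rpow_lt_rpow (hd0 t) hcon hτ0
      have h6 : (Real.sqrt N) ^ τ = (N : ℝ) ^ (τ / 2) := by
        rw [Real.sqrt_eq_rpow, ← Real.rpow_mul hN0.le]
        congr 1
        ring
      rw [h6] at h5
      linarith
    have hdp : 0 < d t := lt_of_lt_of_le hsN h4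
    have h5 : (d t) ^ q = (d t) ^ (q - 2 * τ) * ((d t) ^ τ) ^ 2 := by
      rw [← Real.rpow_natCast ((d t) ^ τ) 2, ← Real.rpow_mul hdp.le, ← Real.rpow_add hdp]
      congr 1
      push_cast
      ring
    rw [h5]
    apply mul_le_mul_of_nonneg_right _ (sq_nonneg _)
    have h2q : (1 : ℝ) ≤ 2 ^ q := Real.one_le_rpow (by norm_num) hq.le
    have p1 : 0 ≤ (N : ℝ) ^ (q - 2 * τ) := by positivity
    have p2 : 0 ≤ (N : ℝ) ^ (q / 2 - τ) := by positivity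
    rcases le_or_gt (2 * τ) q with h6 | h6
    · have h7 : (d t) ^ (q - 2 * τ) ≤ (2 * (N : ℝ)) ^ (q - 2 * τ) :=
        Real.rpow_le_rpow hdp.le (hdN t) (by linarith)
      rw [Real.mul_rpow (by norm_num) hN0.le] at h7
      have h8 : (2 : ℝ) ^ (q - 2 * τ) ≤ 2 ^ q :=
        Real.rpow_le_rpow_of_exponent_le (by norm_num) (by linarith)
      calc (d t) ^ (q - 2 * τ) ≤ 2 ^ (q - 2 * τ) * (N : ℝ) ^ (q - 2 * τ) := h7
        _ ≤ 2 ^ q * (N : ℝ) ^ (q - 2 * τ) := mul_le_mul_of_nonneg_right h8 p1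
        _ ≤ _ := mul_le_mul_of_nonneg_left (by linarith) (by positivity)
    · have h7 : (d t) ^ (q - 2 * τ) ≤ (Real.sqrt N) ^ (q - 2 * τ) :=
        Real.rpow_le_rpow_of_nonpos hsN h4 (by linarith)
      have h8 : (Real.sqrt N) ^ (q - 2 * τ) = (N : ℝ) ^ (q / 2 - τ) := by
        rw [Real.sqrt_eq_rpow, ← Real.rpow_mul hN0.le]
        congr 1
        ring
      rw [h8] at h7
      calc (d t) ^ (q - 2 * τ) ≤ (N : ℝ) ^ (q / 2 - τ) := h7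
        _ ≤ 2 ^ q * (N : ℝ) ^ (q / 2 - τ) := le_mul_of_one_le_left p2 h2q
        _ ≤ _ := mul_le_mul_of_nonneg_left (by linarith) (by positivity)
  -- small
  have hsmall : ∑ t ∈ (Icc 1 T).filter (fun t => ¬ (N : ℝ) ^ (τ / 2) ≤ (d t) ^ τ), (d t) ^ q ≤
      T * (N : ℝ) ^ (q / 2) := by
    calc ∑ t ∈ (Icc 1 T).filter (fun t => ¬ (N : ℝ) ^ (τ / 2) ≤ (d t) ^ τ), (d t) ^ q
        ≤ ∑ t ∈ (Icc 1 T).filter (fun t => ¬ (N : ℝ) ^ (τ / 2) ≤ (d t) ^ τ), (N : ℝ) ^ (q / 2) := by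
          apply sum_le_sum
          intro t ht
          have h3 := (mem_filter.1 ht).2
          have h4 : d t ≤ Real.sqrt N := by
            by_contra hcon
            push Not at hcon
            apply h3
            have h6 : (Real.sqrt N) ^ τ = (N : ℝ) ^ (τ / 2) := by
              rw [Real.sqrt_eq_rpow, ← Real.rpow_mul hN0.le]
              congr 1
              ring
            rw [← h6]
            exact Real.rpow_le_rpow hsN.le hcon.le hτ0.le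
          calc (d t) ^ q ≤ (Real.sqrt N) ^ q := Real.rpow_le_rpow (hd0 t) h4 hq.le
            _ = (N : ℝ) ^ (q / 2) := by
                rw [Real.sqrt_eq_rpow, ← Real.rpow_mul hN0.le]
                congr 1
                ring
      _ ≤ T * (N : ℝ) ^ (q / 2) := by
          rw [sum_const, nsmul_eq_mul]
          apply mul_le_mul_of_nonneg_right _ (by positivity)
          have h3 := card_filter_le (Icc 1 T) (fun t => ¬ (N : ℝ) ^ (τ / 2) ≤ (d t) ^ τ)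
          rw [Nat.card_Icc, Nat.add_sub_cancel] at h3
          exact_mod_cast h3
  rw [← sum_filter_add_sum_filter_not (Icc 1 T) (fun t => (N : ℝ) ^ (τ / 2) ≤ (d t) ^ τ)]
  refine (add_le_add hlarge hsmall).trans ?_
  have e1 : (2 ^ q * ((N : ℝ) ^ (q - 2 * τ) + (N : ℝ) ^ (q / 2 - τ))) * (4 * A0 * (J + 1)) =
      8 * (C * (N : ℝ) ^ ε1) * (4 ^ (κ + 1) + 2) * (J + 1) *
        (2 ^ q * ((N : ℝ) ^ q + T * (N : ℝ) ^ (q / 2))) := by
    have e2 : ((N : ℝ) ^ (q - 2 * τ) + (N : ℝ) ^ (q / 2 - τ)) * (N : ℝ) ^ (2 * τ) =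
        (N : ℝ) ^ q + T * (N : ℝ) ^ (q / 2) := by
      rw [add_mul, ← Real.rpow_add hN0, ← Real.rpow_add hN0, hτ, ← Real.rpow_add hN0]
      congr 2
      · ring
      · ring
    rw [hA0, ← e2]
    ring
  rw [e1]
  have e3 : ((J : ℕ) : ℝ) = ((Q : ℝ) + 1) * (Nat.log 2 N + 2) := by
    rw [hJ]
    push_cast
    ring
  rw [e3]
  have h2q : (1 : ℝ) ≤ 2 ^ q := Real.one_le_rpow (by norm_num) hq.le
  have h5 : T * (N : ℝ) ^ (q / 2) ≤ 2 ^ q * ((N : ℝ) ^ q + T * (N : ℝ) ^ (q / 2)) := by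
    have h6 : T * (N : ℝ) ^ (q / 2) ≤ (N : ℝ) ^ q + T * (N : ℝ) ^ (q / 2) := by
      have : 0 ≤ (N : ℝ) ^ q := by positivity
      linarith
    have h7 : 0 ≤ (N : ℝ) ^ q + T * (N : ℝ) ^ (q / 2) := by positivity
    exact h6.trans (le_mul_of_one_le_left h7 h2q)
  rw [add_mul, one_mul]
  linarith

end Pool.Agent.Y959.Rs
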