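import Pool.Agent.Y959.Her.Large
import Pool.Agent.Y959.Her.Prob

set_option autoImplicit false

/-!
# Uniform approximation of an average by a short sample
-/

namespace Pool.Agent.Y959.Rs

open Finset Pool.Agent.Y959.Her

/-- Hoeffding's lemma for finite averages -/
theorem hoeff {ι : Type*} (W : Finset ι) (x : ι → ℝ) (c lam : ℝ) (hc : 0 < c)
    (hx : ∀ i ∈ W, |x i| ≤ c) (h0 : ∑ i ∈ W, x i = 0) :
    ∑ i ∈ W, Real.exp (lam * x i) ≤ W.card * Real.exp ((lam * c) ^ 2 / 2) := by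
  have h1 : ∀ i ∈ W, Real.exp (lam * x i) ≤
      Real.cosh (lam * c) + x i * ((Real.exp (lam * c) - Real.exp (-(lam * c))) / (2 * c)) := by
    intro i hi
    have hxi := abs_le.1 (hx i hi)
    have hconv := convexOn_exp.2 (Set.mem_univ (lam * c)) (Set.mem_univ (-(lam * c)))
      (show 0 ≤ (c + x i) / (2 * c) by apply div_nonneg <;> linarith)
      (show 0 ≤ (c - x i) / (2 * c) by apply div_nonneg <;> linarith)
      (show (c + x i) / (2 * c) + (c - x i) / (2 * c) = 1 by field_simp; ring)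
    simp only [smul_eq_mul] at hconv
    have e1 : (c + x i) / (2 * c) * (lam * c) + (c - x i) / (2 * c) * -(lam * c) = lam * x i := by
      field_simp
      ring
    rw [e1] at hconv
    refine hconv.trans (le_of_eq ?_)
    rw [Real.cosh_eq]
    field_simp
    ring
  refine (sum_le_sum h1).trans ?_
  rw [sum_add_distrib, ← sum_mul, h0, zero_mul, add_zero, sum_const, nsmul_eq_mul]
  exact mul_le_mul_of_nonneg_left (Real.cosh_le_exp_half_sq _) (Nat.cast_nonneg _)

/-- the potential argument -/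
theorem greedy_sup {ι κ : Type*} (W : Finset ι) (hW : W.Nonempty) (F : Finset κ)
    (X : ι → κ → ℂ) (μ : κ → ℂ) (hX : ∀ i ∈ W, ∀ n ∈ F, ‖X i n - μ n‖ ≤ 2)
    (hμ : ∀ n ∈ F, ∑ i ∈ W, (X i n - μ n) = 0) (lam : ℝ) (m : ℕ) :
    ∃ f : ℕ → ι, (∀ l, f l ∈ W) ∧
      ∑ n ∈ F, ∑ j : Fin 4, Real.exp (lam * (phs j * ∑ l ∈ range m, (X (f l) n - μ n)).re) ≤
        4 * F.card * Real.exp (2 * lam ^ 2 * m) := by
  induction m with
  | zero =>
    obtain ⟨i, hi⟩ := hW
    refine ⟨fun _ => i, fun _ => hi, ?_⟩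
    simp
    linarith
  | succ m ih =>
    obtain ⟨f, hf, hle⟩ := ih
    have hwc : (0 : ℝ) < W.card := by exact_mod_cast card_pos.2 hW
    have hone : ∀ n ∈ F, ∀ j : Fin 4, ∑ i ∈ W,
        Real.exp (lam * (phs j * (∑ l ∈ range m, (X (f l) n - μ n) + (X i n - μ n))).re) ≤
        W.card * (Real.exp (2 * lam ^ 2) *
          Real.exp (lam * (phs j * ∑ l ∈ range m, (X (f l) n - μ n)).re)) := by
      intro n hn j
      have h1 := hoeff W (fun i => (phs j * (X i n - μ n)).re) 2 lam (by norm_num)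
        (fun i hi => (Complex.abs_re_le_norm _).trans (by
          rw [norm_mul, (phs_isPh j).norm, one_mul]; exact hX i hi n hn))
        (by rw [← Complex.re_sum, ← mul_sum, hμ n hn, mul_zero, Complex.zero_re])
      have e1 : (lam * 2) ^ 2 / 2 = 2 * lam ^ 2 := by ring
      rw [e1] at h1
      have e2 : ∀ i ∈ W,
          Real.exp (lam * (phs j * (∑ l ∈ range m, (X (f l) n - μ n) + (X i n - μ n))).re) =
          Real.exp (lam * (phs j * ∑ l ∈ range m, (X (f l) n - μ n)).re) *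
            Real.exp (lam * (phs j * (X i n - μ n)).re) := by
        intro i _
        rw [← Real.exp_add, mul_add (phs j), Complex.add_re, mul_add lam]
      rw [sum_congr rfl e2, ← mul_sum]
      calc Real.exp (lam * (phs j * ∑ l ∈ range m, (X (f l) n - μ n)).re) *
            ∑ i ∈ W, Real.exp (lam * (phs j * (X i n - μ n)).re)
          ≤ Real.exp (lam * (phs j * ∑ l ∈ range m, (X (f l) n - μ n)).re) *
              (W.card * Real.exp (2 * lam ^ 2)) := mul_le_mul_of_nonneg_left h1 (Real.exp_pos _).le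
        _ = _ := by ring
    have havg : ∑ i ∈ W, ∑ n ∈ F, ∑ j : Fin 4,
        Real.exp (lam * (phs j * (∑ l ∈ range m, (X (f l) n - μ n) + (X i n - μ n))).re) ≤
        ∑ i ∈ W, 4 * F.card * Real.exp (2 * lam ^ 2 * ((m + 1 : ℕ) : ℝ)) := by
      rw [sum_comm]
      have h1 : ∀ n ∈ F, ∑ i ∈ W, ∑ j : Fin 4,
          Real.exp (lam * (phs j * (∑ l ∈ range m, (X (f l) n - μ n) + (X i n - μ n))).re) ≤
          ∑ j : Fin 4, W.card * (Real.exp (2 * lam ^ 2) *
            Real.exp (lam * (phs j * ∑ l ∈ range m, (X (f l) n - μ n)).re)) := by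
        intro n hn
        rw [sum_comm]
        exact sum_le_sum fun j _ => hone n hn j
      refine (sum_le_sum h1).trans ?_
      have e : ∑ n ∈ F, ∑ j : Fin 4, (W.card : ℝ) * (Real.exp (2 * lam ^ 2) *
            Real.exp (lam * (phs j * ∑ l ∈ range m, (X (f l) n - μ n)).re)) =
          W.card * (Real.exp (2 * lam ^ 2) * ∑ n ∈ F, ∑ j : Fin 4,
            Real.exp (lam * (phs j * ∑ l ∈ range m, (X (f l) n - μ n)).re)) := by
        simp only [mul_sum]
      rw [e, sum_const, nsmul_eq_mul]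
      apply mul_le_mul_of_nonneg_left _ hwc.le
      calc Real.exp (2 * lam ^ 2) * ∑ n ∈ F, ∑ j : Fin 4,
            Real.exp (lam * (phs j * ∑ l ∈ range m, (X (f l) n - μ n)).re)
          ≤ Real.exp (2 * lam ^ 2) * (4 * F.card * Real.exp (2 * lam ^ 2 * m)) :=
            mul_le_mul_of_nonneg_left hle (Real.exp_pos _).le
        _ = 4 * F.card * (Real.exp (2 * lam ^ 2) * Real.exp (2 * lam ^ 2 * m)) := by ring
        _ = 4 * F.card * Real.exp (2 * lam ^ 2 * ((m + 1 : ℕ) : ℝ)) := by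
            rw [← Real.exp_add]
            congr 2
            push_cast
            ring
    obtain ⟨i, hi, hle'⟩ := exists_le_of_sum_le hW havg
    refine ⟨Function.update f m i, ?_, ?_⟩
    · intro l
      by_cases hl : l = m
      · rw [hl, Function.update_self]; exact hi
      · rw [Function.update_of_ne hl]; exact hf l
    · refine le_trans (le_of_eq ?_) hle'
      apply sum_congr rfl
      intro n _
      apply sum_congr rfl
      intro j _
      rw [sum_range_succ, Function.update_self]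
      have e : ∑ l ∈ range m, (X (Function.update f m i l) n - μ n) =
          ∑ l ∈ range m, (X (f l) n - μ n) := by
        apply sum_congr rfl
        intro l hl
        rw [Function.update_of_ne (mem_range.1 hl).ne]
      rw [e]

/-- **Uniform sampling.** -/
theorem maurey {ι κ : Type*} (W : Finset ι) (hW : W.Nonempty) (F : Finset κ) (hF : F.Nonempty)
    (X : ι → κ → ℂ) (hX : ∀ i ∈ W, ∀ n ∈ F, ‖X i n‖ ≤ 1) (m : ℕ) (hm : 1 ≤ m) :
    ∃ f : ℕ → ι, (∀ l, f l ∈ W) ∧ ∀ n ∈ F,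
      ‖∑ l ∈ range m, X (f l) n - ((m : ℝ) / W.card : ℝ) * ∑ i ∈ W, X i n‖ ≤
        Real.sqrt (17 * m * Real.log (4 * F.card)) := by
  have hwc : (0 : ℝ) < W.card := by exact_mod_cast card_pos.2 hW
  have hFc : (1 : ℝ) ≤ F.card := by exact_mod_cast card_pos.2 hF
  have hm0 : (0 : ℝ) < m := by exact_mod_cast hm
  have hℓ : 0 < Real.log (4 * F.card) := Real.log_pos (by linarith)
  obtain ⟨ℓ, hℓd⟩ : ∃ ℓ, ℓ = Real.log (4 * F.card) := ⟨_, rfl⟩
  rw [← hℓd] at hℓ ⊢
  have hwcc : ((W.card : ℝ) : ℂ) ≠ 0 := by exact_mod_cast hwc.ne'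
  obtain ⟨μ, hμ⟩ : ∃ μ : κ → ℂ, μ = fun n => (((W.card : ℝ) : ℂ))⁻¹ * ∑ i ∈ W, X i n := ⟨_, rfl⟩
  have hμ1 : ∀ n ∈ F, ‖μ n‖ ≤ 1 := by
    intro n hn
    rw [hμ]
    simp only
    rw [norm_mul, norm_inv, Complex.norm_real, Real.norm_of_nonneg hwc.le, inv_mul_le_iff₀ hwc,
      mul_one]
    refine (norm_sum_le _ _).trans ?_
    calc ∑ i ∈ W, ‖X i n‖ ≤ ∑ i ∈ W, (1 : ℝ) := sum_le_sum fun i hi => hX i hi n hn
      _ = W.card := by simp
  have hμ0 : ∀ n ∈ F, ∑ i ∈ W, (X i n - μ n) = 0 := by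
    intro n _
    rw [sum_sub_distrib, sum_const, hμ, nsmul_eq_mul]
    simp only
    have : (W.card : ℂ) = ((W.card : ℝ) : ℂ) := by push_cast; rfl
    rw [this, ← mul_assoc, mul_inv_cancel₀ hwcc, one_mul, sub_self]
  obtain ⟨lam, hlam⟩ : ∃ lam, lam = Real.sqrt (ℓ / (2 * m)) := ⟨_, rfl⟩
  have hlam0 : 0 < lam := by rw [hlam]; exact Real.sqrt_pos.2 (by positivity)
  have hlam2 : lam ^ 2 = ℓ / (2 * m) := by rw [hlam, Real.sq_sqrt (by positivity)]
  obtain ⟨f, hf, hle⟩ := greedy_sup W hW F X μ (fun i hi n hn => by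
    refine (norm_sub_le _ _).trans ?_
    have := hX i hi n hn
    have := hμ1 n hn
    linarith) hμ0 lam m
  refine ⟨f, hf, ?_⟩
  intro n hn
  have e0 : ∑ l ∈ range m, X (f l) n - ((m : ℝ) / W.card : ℝ) * ∑ i ∈ W, X i n =
      ∑ l ∈ range m, (X (f l) n - μ n) := by
    rw [sum_sub_distrib, sum_const, card_range, nsmul_eq_mul, hμ]
    congr 1
    push_cast
    rw [div_eq_mul_inv]
    ring
  rw [e0]
  obtain ⟨z, hz⟩ : ∃ z, z = ∑ l ∈ range m, (X (f l) n - μ n) := ⟨_, rfl⟩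
  obtain ⟨β, hβ, hβ2⟩ := exists_phase z
  obtain ⟨j, hj⟩ := exists_phs hβ
  have h1 : Real.exp (lam * (7 / 10 * ‖z‖)) ≤ 4 * F.card * Real.exp (2 * lam ^ 2 * m) := by
    refine le_trans ?_ hle
    calc Real.exp (lam * (7 / 10 * ‖z‖)) ≤ Real.exp (lam * (phs j * z).re) := by
          apply Real.exp_le_exp.2
          rw [hj]
          exact mul_le_mul_of_nonneg_left hβ2 hlam0.le
      _ ≤ ∑ j : Fin 4, Real.exp (lam * (phs j * z).re) :=
          single_le_sum (f := fun j : Fin 4 => Real.exp (lam * (phs j * z).re))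
            (fun _ _ => (Real.exp_pos _).le) (mem_univ j)
      _ = (fun n => ∑ j : Fin 4,
            Real.exp (lam * (phs j * ∑ l ∈ range m, (X (f l) n - μ n)).re)) n := by
          simp only [← hz]
      _ ≤ ∑ n ∈ F, ∑ j : Fin 4,
            Real.exp (lam * (phs j * ∑ l ∈ range m, (X (f l) n - μ n)).re) :=
          single_le_sum (f := fun n => ∑ j : Fin 4,
            Real.exp (lam * (phs j * ∑ l ∈ range m, (X (f l) n - μ n)).re))
            (fun _ _ => sum_nonneg fun _ _ => (Real.exp_pos _).le) hn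
  have h2 : lam * (7 / 10 * ‖z‖) ≤ 2 * ℓ := by
    have h3 : 4 * (F.card : ℝ) * Real.exp (2 * lam ^ 2 * m) = Real.exp (2 * ℓ) := by
      have h4 : (4 * (F.card : ℝ)) = Real.exp ℓ := by
        rw [hℓd, Real.exp_log (by positivity)]
      rw [h4, ← Real.exp_add, hlam2]
      congr 1
      field_simp
      ring
    rw [h3, Real.exp_le_exp] at h1
    exact h1
  rw [← hz]
  apply Real.le_sqrt_of_sq_le
  have h5 : (lam * (7 / 10 * ‖z‖)) ^ 2 ≤ (2 * ℓ) ^ 2 := pow_le_pow_left₀ (by positivity) h2 2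
  have h6 : lam ^ 2 * ‖z‖ ^ 2 * (49 / 100) ≤ 4 * ℓ ^ 2 := by
    have e : (lam * (7 / 10 * ‖z‖)) ^ 2 = lam ^ 2 * ‖z‖ ^ 2 * (49 / 100) := by ring
    rw [e] at h5
    linarith
  rw [hlam2] at h6
  have h7 : ℓ * (‖z‖ ^ 2 * (49 / 100)) ≤ ℓ * (8 * m * ℓ) := by
    have e : ℓ / (2 * m) * ‖z‖ ^ 2 * (49 / 100) = (ℓ * (‖z‖ ^ 2 * (49 / 100))) / (2 * m) := by ring
    rw [e, div_le_iff₀ (by positivity)] at h6
    linarith
  have h8 := le_of_mul_le_mul_left h7 hℓ
  have h9 : 0 ≤ m * ℓ := by positivity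
  linarith

end Pool.Agent.Y959.Rs
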