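import Pool.Agent.Y959.Rs.RealK
import Pool.Agent.Y959.Rs.Core

set_option autoImplicit false

/-!
# Random supports and separated real points: the basic inequality
-/

namespace Pool.Agent.Y959.Rs

open Finset Pool.Agent.TH705.DL Pool.Agent.Y959.Her Pool.Agent.Y959.Smp

theorem ph_lip (t u : ℝ) (n : ℕ) (hn : 1 ≤ n) : ‖ph t n - ph u n‖ ≤ |t - u| * Real.log n := by
  have hn1 : (1 : ℝ) ≤ n := by exact_mod_cast hn
  have hl : 0 ≤ Real.log n := Real.log_nonneg hn1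
  have h1 : ph t n - ph u n = ph u n * (Complex.exp (Complex.I * (((t - u) * Real.log n : ℝ) : ℂ)) - 1) := by
    have h2 : ph t n = ph u n * ph (t - u) n := by
      rw [← ph_add]
      congr 1
      ring
    rw [h2]
    unfold ph
    push_cast
    ring_nf
  rw [h1, norm_mul, ph_norm, one_mul]
  have h2 := Real.norm_exp_I_mul_ofReal_sub_one_le (x := (t - u) * Real.log n)
  refine h2.trans (le_of_eq ?_)
  rw [Real.norm_eq_abs, abs_mul, abs_of_nonneg hl]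

/-- the logarithms -/
theorem absorbR (ε A : ℝ) (hε : 0 < ε) (hA : 0 ≤ A) (Q : ℕ) : ∃ C : ℝ, 1 ≤ C ∧ ∀ N : ℕ, 1 ≤ N →
    ∀ w : ℕ, w ≤ 4 * N ^ 2 * N ^ Q + 1 →
      12000 * (Real.log (4 * (N : ℝ)) *
        (Real.log (8 * (4 * (N : ℝ) ^ 2 * (N : ℝ) ^ Q + 1) * (N : ℝ) ^ 2 / (N : ℝ) ^ (-A)) + 1) *
        ((Nat.log 2 w : ℝ) + 2)) ≤ C * (N : ℝ) ^ ε := by
  obtain ⟨C, hC, h⟩ := log_pow3 ε hε
  refine ⟨12000 * (3 * (10 + Q + A) * (9 + 2 * Q)) * C, ?_, ?_⟩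
  · have h1 : (0 : ℝ) ≤ Q := Nat.cast_nonneg _
    nlinarith [mul_nonneg h1 hA, mul_nonneg h1 h1]
  intro N hN w hw
  have hN1 : (1 : ℝ) ≤ N := by exact_mod_cast hN
  have hN0 : (0 : ℝ) < N := by linarith
  have hQ0 : (0 : ℝ) ≤ Q := Nat.cast_nonneg _
  obtain ⟨L, hL⟩ : ∃ L : ℝ, L = 1 + Real.log N := ⟨_, rfl⟩
  have hl0 : 0 ≤ Real.log N := Real.log_nonneg hN1
  have hL1 : 1 ≤ L := by linarith
  obtain ⟨X, hX⟩ : ∃ X : ℝ, X = (N : ℝ) ^ 2 * (N : ℝ) ^ Q := ⟨_, rfl⟩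
  have hX1 : 1 ≤ X := by
    rw [hX]
    exact one_le_mul_of_one_le_of_one_le (one_le_pow₀ hN1) (one_le_pow₀ hN1)
  have hXlog : Real.log X = (Q + 2) * Real.log N := by
    rw [hX, Real.log_mul (by positivity) (by positivity), Real.log_pow, Real.log_pow]
    push_cast
    ring
  have e0 : 4 * (N : ℝ) ^ 2 * (N : ℝ) ^ Q = 4 * X := by rw [hX]; ring
  rw [e0]
  have hlogs : Real.log 2 < 0.6931471808 := Real.log_two_lt_d9
  have hlogs' : 0.6931471803 < Real.log 2 := Real.log_two_gt_d9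
  have a1 : Real.log (4 * (N : ℝ)) ≤ 3 * L := by
    have h1 : Real.log (4 * (N : ℝ)) ≤ Real.log (2 ^ 3 * N) :=
      Real.log_le_log (by positivity) (by linarith)
    have h2 : Real.log (2 ^ 3 * (N : ℝ)) = 3 * Real.log 2 + Real.log N := by
      rw [Real.log_mul (by norm_num) hN0.ne', Real.log_pow]
      push_cast
      ring
    linarith
  have a1' : 0 ≤ Real.log (4 * (N : ℝ)) := Real.log_nonneg (by linarith)
  have a2 : Real.log (8 * (4 * X + 1) * (N : ℝ) ^ 2 / (N : ℝ) ^ (-A)) + 1 ≤ (10 + Q + A) * L := by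
    have h1 : Real.log (8 * (4 * X + 1) * (N : ℝ) ^ 2 / (N : ℝ) ^ (-A)) ≤
        Real.log (2 ^ 6 * X * (N : ℝ) ^ 2 * (N : ℝ) ^ A) := by
      apply Real.log_le_log (by positivity)
      rw [Real.rpow_neg hN0.le, div_inv_eq_mul]
      apply mul_le_mul_of_nonneg_right _ (by positivity)
      apply mul_le_mul_of_nonneg_right _ (by positivity)
      linarith
    rw [Real.log_mul (by positivity) (by positivity), Real.log_mul (by positivity) (by positivity),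
      Real.log_mul (by positivity) (by positivity), hXlog, Real.log_pow, Real.log_pow,
      Real.log_rpow hN0] at h1
    push_cast at h1
    have h4 : 0 ≤ (Q + A) * (L - Real.log N) := mul_nonneg (by linarith) (by linarith)
    nlinarith
  have a2' : 0 ≤ Real.log (8 * (4 * X + 1) * (N : ℝ) ^ 2 / (N : ℝ) ^ (-A)) + 1 := by
    have : 0 ≤ Real.log (8 * (4 * X + 1) * (N : ℝ) ^ 2 / (N : ℝ) ^ (-A)) := by
      apply Real.log_nonneg
      rw [Real.rpow_neg hN0.le, div_inv_eq_mul]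
      have h5 : 1 ≤ (N : ℝ) ^ A := Real.one_le_rpow hN1 hA
      have h6 : (1 : ℝ) ≤ (N : ℝ) ^ 2 := one_le_pow₀ hN1
      have h7 : 1 ≤ 8 * (4 * X + 1) * (N : ℝ) ^ 2 :=
        one_le_mul_of_one_le_of_one_le (by linarith) h6
      exact one_le_mul_of_one_le_of_one_le h7 h5
    linarith
  have a3 : ((Nat.log 2 w : ℝ) + 2) ≤ (9 + 2 * Q) * L := by
    have hwX : (w : ℝ) ≤ 8 * X := by
      have h1 : (w : ℝ) ≤ 4 * (N : ℝ) ^ 2 * (N : ℝ) ^ Q + 1 := by exact_mod_cast hw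
      rw [e0] at h1
      linarith
    have h1 : ((2 : ℝ)) ^ (Nat.log 2 w) ≤ 8 * X := by
      rcases Nat.eq_zero_or_pos w with h0 | h0
      · rw [h0]
        simp only [Nat.log_zero_right, pow_zero]
        linarith
      · have h2 : 2 ^ (Nat.log 2 w) ≤ w := Nat.pow_log_le_self 2 (by omega)
        have h3 : ((2 : ℝ)) ^ (Nat.log 2 w) ≤ w := by exact_mod_cast h2
        linarith
    have h8 : (8 : ℝ) * X = 2 ^ 3 * X := by norm_num
    rw [h8] at h1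
    have h2 := Real.log_le_log (by positivity) h1
    rw [Real.log_pow, Real.log_mul (by norm_num) (by positivity), Real.log_pow, hXlog] at h2
    push_cast at h2
    have h3 : (Nat.log 2 w : ℝ) ≤ 3 + 2 * ((Q + 2) * Real.log N) := by
      have h5 : (0 : ℝ) ≤ (Q + 2) * Real.log N := mul_nonneg (by linarith) hl0
      by_contra hcon
      push Not at hcon
      nlinarith
    have h4 : 0 ≤ (Q : ℝ) * (L - Real.log N) := mul_nonneg hQ0 (by linarith)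
    nlinarith
  have a3' : (0 : ℝ) ≤ (Nat.log 2 w : ℝ) + 2 := by positivity
  calc 12000 * (Real.log (4 * (N : ℝ)) *
        (Real.log (8 * (4 * X + 1) * (N : ℝ) ^ 2 / (N : ℝ) ^ (-A)) + 1) *
        ((Nat.log 2 w : ℝ) + 2)) ≤ 12000 * ((3 * L) * ((10 + Q + A) * L) * ((9 + 2 * Q) * L)) := by
        apply mul_le_mul_of_nonneg_left _ (by norm_num)
        apply mul_le_mul _ a3 a3' (by positivity)
        exact mul_le_mul a1 a2 a2' (by positivity)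
    _ = 12000 * (3 * (10 + Q + A) * (9 + 2 * Q)) * (1 + Real.log N) ^ 3 := by
        rw [hL]
        ring
    _ ≤ 12000 * (3 * (10 + Q + A) * (9 + 2 * Q)) * (C * (N : ℝ) ^ ε) :=
        mul_le_mul_of_nonneg_left (h N hN) (by positivity)
    _ = _ := by ring

/-- the exponentials at the points of a fine grid -/
noncomputable def eg (N Q : ℕ) (i : Fin (4 * N ^ 2 * N ^ Q + 1)) (n : ℕ) : ℂ :=
  ph (((i : ℕ) : ℝ) / (4 * (N : ℝ) ^ 2)) n

/-- rounding -/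
noncomputable def rd (N Q : ℕ) (t : ℝ) : Fin (4 * N ^ 2 * N ^ Q + 1) :=
  ⟨min ⌊t * (4 * (N : ℝ) ^ 2)⌋₊ (4 * N ^ 2 * N ^ Q), by omega⟩

theorem rd_close (N Q : ℕ) (hN : 1 ≤ N) (t : ℝ) (ht : 0 ≤ t) (htQ : t ≤ (N : ℝ) ^ Q) :
    |t - (((rd N Q t : ℕ) : ℝ) / (4 * (N : ℝ) ^ 2))| ≤ 1 / (4 * (N : ℝ) ^ 2) := by
  have hN1 : (1 : ℝ) ≤ N := by exact_mod_cast hN
  have hM : (0 : ℝ) < 4 * (N : ℝ) ^ 2 := by positivity
  have h0 : 0 ≤ t * (4 * (N : ℝ) ^ 2) := mul_nonneg ht hM.le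
  have h1 : ⌊t * (4 * (N : ℝ) ^ 2)⌋₊ ≤ 4 * N ^ 2 * N ^ Q := by
    apply Nat.floor_le_of_le
    push_cast
    calc t * (4 * (N : ℝ) ^ 2) ≤ (N : ℝ) ^ Q * (4 * (N : ℝ) ^ 2) := mul_le_mul_of_nonneg_right htQ hM.le
      _ = _ := by ring
  have h2 : ((rd N Q t : ℕ) : ℝ) = ((⌊t * (4 * (N : ℝ) ^ 2)⌋₊ : ℕ) : ℝ) := by
    unfold rd
    simp only
    rw [min_eq_left h1]
  rw [h2]
  have h3 := Nat.floor_le h0
  have h4 := Nat.lt_floor_add_one (t * (4 * (N : ℝ) ^ 2))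
  have h5 : t - ((⌊t * (4 * (N : ℝ) ^ 2)⌋₊ : ℕ) : ℝ) / (4 * (N : ℝ) ^ 2) =
      (t * (4 * (N : ℝ) ^ 2) - ((⌊t * (4 * (N : ℝ) ^ 2)⌋₊ : ℕ) : ℝ)) / (4 * (N : ℝ) ^ 2) := by
    field_simp
  rw [h5, abs_of_nonneg (div_nonneg (by linarith) hM.le)]
  exact div_le_div_of_nonneg_right (by linarith) hM.le

theorem rd_inj (N Q : ℕ) (hN : 1 ≤ N) (W : Finset ℝ) (hW : ∀ t ∈ W, 0 ≤ t ∧ t ≤ (N : ℝ) ^ Q)
    (hsep : Sep W) : Set.InjOn (rd N Q) W := by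
  intro t ht u hu htu
  by_contra hne
  have hN1 : (1 : ℝ) ≤ N := by exact_mod_cast hN
  have h1 := hsep t ht u hu hne
  have h2 := rd_close N Q hN t (hW t ht).1 (hW t ht).2
  have h3 := rd_close N Q hN u (hW u hu).1 (hW u hu).2
  rw [← htu] at h3
  have h4 : 1 / (4 * (N : ℝ) ^ 2) ≤ 1 / 4 := by
    apply one_div_le_one_div_of_le (by norm_num)
    nlinarith
  obtain ⟨c, hc⟩ : ∃ c : ℝ, c = ((rd N Q t : ℕ) : ℝ) / (4 * (N : ℝ) ^ 2) := ⟨_, rfl⟩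
  rw [← hc] at h2 h3
  have h5 : |t - u| ≤ |t - c| + |u - c| := by
    have : t - u = (t - c) - (u - c) := by ring
    rw [this]
    exact abs_sub _ _
  linarith

/-- the basic property of a random set, for separated real points -/
def BasR (N Q k : ℕ) (B : ℝ) (I : Finset ℕ) : Prop :=
  ∀ (W : Finset ℝ) (a : ℕ → ℂ) (V : ℝ), (∀ t ∈ W, 0 ≤ t ∧ t ≤ (N : ℝ) ^ Q) → Sep W → W.Nonempty →
    0 < V → ∑ n ∈ I, ‖a n‖ ^ 2 ≤ V ^ 2 →
    (∀ t ∈ W, V ≤ ‖∑ n ∈ I, a n * ph t n‖) → ∃ b : ℝ → Fin 4,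
      V ^ 2 * (W.card : ℝ) ^ 2 ≤ B * (∑ n ∈ I, ‖a n‖ ^ 2) *
        ((k : ℝ) / N * ∑ n ∈ Icc 1 N, ‖∑ t ∈ W, phs (b t) * ph t n‖ ^ 2 + (W.card : ℝ) ^ 2 + k)


theorem basR_of_good (N Q k : ℕ) (hN : 1 ≤ N) (Lam : ℝ) (hLam : 0 ≤ Lam) (I : Finset ℕ)
    (hIF : I ⊆ Icc 1 N) (hIk : I.card = k) (hG : GoodI (Icc 1 N) (eg N Q) k Lam I) (B : ℝ)
    (hB : ∀ w : ℕ, w ≤ 4 * N ^ 2 * N ^ Q + 1 →
      12000 * (Real.log (4 * (N : ℝ)) * (Lam + 1) * ((Nat.log 2 w : ℝ) + 2)) ≤ B) :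
    BasR N Q k B I := by
  classical
  have hN1 : (1 : ℝ) ≤ N := by exact_mod_cast hN
  have hN0 : (0 : ℝ) < N := by linarith
  intro W a V hW hsep hne hV hGV hVW
  obtain ⟨G, hGd⟩ : ∃ G : ℝ, G = ∑ n ∈ I, ‖a n‖ ^ 2 := ⟨_, rfl⟩
  have hG0 : 0 ≤ G := by rw [hGd]; exact sum_nonneg fun _ _ => sq_nonneg _
  rw [← hGd] at hGV ⊢
  have hk0 : (0 : ℝ) ≤ k := Nat.cast_nonneg _
  have hkN : (k : ℝ) ≤ N := by
    have h1 : k ≤ N := by
      rw [← hIk]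
      refine (card_le_card hIF).trans ?_
      rw [Nat.card_Icc]
      omega
    exact_mod_cast h1
  have hFne : (Icc 1 N).Nonempty := ⟨1, mem_Icc.2 ⟨le_rfl, hN⟩⟩
  have hFc : ((Icc 1 N).card : ℝ) = N := by
    rw [Nat.card_Icc, Nat.add_sub_cancel]
  have hM : (0 : ℝ) < 4 * (N : ℝ) ^ 2 := by positivity
  have hlogN : Real.log N ≤ N := by
    have := Real.log_le_sub_one_of_pos hN0
    linarith
  have hlogN0 : 0 ≤ Real.log N := Real.log_nonneg hN1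
  obtain ⟨ρ, hρ⟩ : ∃ ρ : ℝ → ℝ, ρ = fun t => (((rd N Q t : ℕ) : ℝ) / (4 * (N : ℝ) ^ 2)) := ⟨_, rfl⟩
  -- the change of the exponentials
  have hch : ∀ t ∈ W, ∀ n ∈ Icc 1 N, ‖ph t n - ph (ρ t) n‖ ≤ 1 / (4 * N) := by
    intro t ht n hn
    have hn1 := (mem_Icc.1 hn).1
    have hn2 := (mem_Icc.1 hn).2
    refine (ph_lip t (ρ t) n hn1).trans ?_
    have h1 : |t - ρ t| ≤ 1 / (4 * (N : ℝ) ^ 2) := by
      rw [hρ]
      exact rd_close N Q hN t (hW t ht).1 (hW t ht).2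
    have h2 : Real.log n ≤ N := by
      have h3 : Real.log n ≤ Real.log N := by
        apply Real.log_le_log (by exact_mod_cast hn1)
        exact_mod_cast hn2
      linarith
    have h4 : 0 ≤ Real.log n := Real.log_nonneg (by exact_mod_cast hn1)
    calc |t - ρ t| * Real.log n ≤ 1 / (4 * (N : ℝ) ^ 2) * N := mul_le_mul h1 h2 h4 (by positivity)
      _ = 1 / (4 * N) := by
          field_simp
  obtain ⟨W', hW'⟩ : ∃ W' : Finset (Fin (4 * N ^ 2 * N ^ Q + 1)), W' = W.image (rd N Q) := ⟨_, rfl⟩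
  have hinj := rd_inj N Q hN W hW hsep
  have hcard : W'.card = W.card := by
    rw [hW']
    exact card_image_of_injOn hinj
  have hW'ne : W'.Nonempty := by
    rw [hW']
    exact hne.image _
  -- the large values at the grid
  have hVg : ∀ i ∈ W', 3 / 4 * V ≤ ‖∑ n ∈ I, a n * eg N Q i n‖ := by
    intro i hi
    rw [hW', mem_image] at hi
    obtain ⟨t, ht, rfl⟩ := hi
    have h1 := hVW t ht
    have h2 : ‖∑ n ∈ I, a n * ph t n - ∑ n ∈ I, a n * eg N Q (rd N Q t) n‖ ≤ V / 4 := by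
      rw [← sum_sub_distrib]
      have h3 : ‖∑ n ∈ I, (a n * ph t n - a n * eg N Q (rd N Q t) n)‖ ≤
          ∑ n ∈ I, ‖a n‖ * (1 / (4 * N)) := by
        refine (norm_sum_le _ _).trans (sum_le_sum fun n hn => ?_)
        rw [← mul_sub, norm_mul]
        apply mul_le_mul_of_nonneg_left _ (norm_nonneg _)
        have h4 := hch t ht n (hIF hn)
        rw [hρ] at h4
        exact h4
      rw [← sum_mul] at h3
      have h4 : (∑ n ∈ I, ‖a n‖) ^ 2 ≤ ((N : ℝ) * V) ^ 2 := by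
        have h5 := sq_sum_le_card_mul_sum_sq (s := I) (f := fun n => ‖a n‖)
        rw [hIk, ← hGd] at h5
        refine h5.trans ?_
        calc (k : ℝ) * G ≤ N * V ^ 2 := mul_le_mul hkN hGV hG0 hN0.le
          _ ≤ ((N : ℝ) * V) ^ 2 := by
              rw [mul_pow]
              apply mul_le_mul_of_nonneg_right _ (sq_nonneg _)
              nlinarith
      have h5 : ∑ n ∈ I, ‖a n‖ ≤ N * V := by
        have := abs_le_of_sq_le_sq' h4 (by positivity)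
        exact this.2
      calc _ ≤ (∑ n ∈ I, ‖a n‖) * (1 / (4 * N)) := h3
        _ ≤ (N * V) * (1 / (4 * N)) := mul_le_mul_of_nonneg_right h5 (by positivity)
        _ = V / 4 := by
            field_simp
    have h3 := norm_sub_norm_le (∑ n ∈ I, a n * ph t n) (∑ n ∈ I, a n * eg N Q (rd N Q t) n)
    linarith
  obtain ⟨b', hb'⟩ := dual_bound (eg N Q) I a (3 / 4 * V) W' (by positivity) hVg
  have hmd := main_det (Icc 1 N) hFne (eg N Q) (fun i n _ => (ph_norm _ _).le) k Lam hLam I hIF hG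
    hIk W' hW'ne b'
  rw [hcard] at hb' hmd
  rw [hFc] at hmd
  rw [← hGd] at hb'
  refine ⟨fun t => b' (rd N Q t), ?_⟩
  obtain ⟨S, hS⟩ : ∃ S : ℝ, S = ∑ n ∈ Icc 1 N, ‖∑ t ∈ W, phs (b' (rd N Q t)) * ph t n‖ ^ 2 := ⟨_, rfl⟩
  rw [← hS]
  have hS0 : 0 ≤ S := by rw [hS]; exact sum_nonneg fun _ _ => sq_nonneg _
  obtain ⟨w, hw⟩ : ∃ w : ℝ, w = (W.card : ℝ) := ⟨_, rfl⟩
  have hw0 : 0 ≤ w := by rw [hw]; exact Nat.cast_nonneg _
  -- comparison of the sums over all frequencies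
  have hSS : ∑ n ∈ Icc 1 N, ‖∑ i ∈ W', phs (b' i) * eg N Q i n‖ ^ 2 ≤ 2 * S + w ^ 2 := by
    have h1 : ∀ n ∈ Icc 1 N, ‖∑ i ∈ W', phs (b' i) * eg N Q i n‖ ^ 2 ≤
        2 * ‖∑ t ∈ W, phs (b' (rd N Q t)) * ph t n‖ ^ 2 + w ^ 2 / N := by
      intro n hn
      have h2 : ∑ i ∈ W', phs (b' i) * eg N Q i n =
          ∑ t ∈ W, phs (b' (rd N Q t)) * eg N Q (rd N Q t) n := by
        rw [hW', sum_image hinj]
      have h3 : ‖∑ t ∈ W, phs (b' (rd N Q t)) * eg N Q (rd N Q t) n -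
          ∑ t ∈ W, phs (b' (rd N Q t)) * ph t n‖ ≤ w * (1 / (4 * N)) := by
        rw [← sum_sub_distrib]
        refine (norm_sum_le _ _).trans ?_
        calc ∑ t ∈ W, ‖phs (b' (rd N Q t)) * eg N Q (rd N Q t) n - phs (b' (rd N Q t)) * ph t n‖
            ≤ ∑ t ∈ W, 1 / (4 * (N : ℝ)) := by
              apply sum_le_sum
              intro t ht
              rw [← mul_sub, norm_mul, (phs_isPh _).norm, one_mul, norm_sub_rev]
              have h4 := hch t ht n hn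
              rw [hρ] at h4
              exact h4
          _ = w * (1 / (4 * N)) := by rw [sum_const, nsmul_eq_mul, hw]
      rw [h2]
      obtain ⟨x, hx⟩ : ∃ x : ℝ, x = ‖∑ t ∈ W, phs (b' (rd N Q t)) * eg N Q (rd N Q t) n‖ := ⟨_, rfl⟩
      obtain ⟨y, hy⟩ : ∃ y : ℝ, y = ‖∑ t ∈ W, phs (b' (rd N Q t)) * ph t n‖ := ⟨_, rfl⟩
      have h4 := norm_sub_norm_le (∑ t ∈ W, phs (b' (rd N Q t)) * eg N Q (rd N Q t) n)
        (∑ t ∈ W, phs (b' (rd N Q t)) * ph t n)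
      rw [← hx, ← hy] at h4 ⊢
      have hx0 : 0 ≤ x := by rw [hx]; exact norm_nonneg _
      have hy0 : 0 ≤ y := by rw [hy]; exact norm_nonneg _
      have h5 : x ≤ y + w * (1 / (4 * N)) := by linarith
      have h6 : x ^ 2 ≤ (y + w * (1 / (4 * N))) ^ 2 := pow_le_pow_left₀ hx0 h5 2
      have h7 : (y + w * (1 / (4 * N))) ^ 2 ≤ 2 * y ^ 2 + 2 * (w * (1 / (4 * N))) ^ 2 := by
        nlinarith [sq_nonneg (y - w * (1 / (4 * N)))]
      have h8 : 2 * (w * (1 / (4 * (N : ℝ)))) ^ 2 ≤ w ^ 2 / N := by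
        have h9 : 2 * (w * (1 / (4 * (N : ℝ)))) ^ 2 = w ^ 2 / (8 * (N : ℝ) ^ 2) := by
          field_simp
          ring
        rw [h9]
        apply div_le_div_of_nonneg_left (sq_nonneg _) hN0
        nlinarith
      linarith
    refine (sum_le_sum h1).trans ?_
    rw [sum_add_distrib, ← mul_sum, ← hS, sum_const, nsmul_eq_mul, hFc]
    have : (N : ℝ) * (w ^ 2 / N) = w ^ 2 := by
      field_simp
    linarith
  rw [← hw] at hb' hmd ⊢
  obtain ⟨g, hg⟩ : ∃ g : ℝ, g = (Nat.log 2 W.card : ℝ) + 2 := ⟨_, rfl⟩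
  obtain ⟨ℓ, hℓ⟩ : ∃ ℓ : ℝ, ℓ = Real.log (4 * (N : ℝ)) := ⟨_, rfl⟩
  have hwle : W.card ≤ 4 * N ^ 2 * N ^ Q + 1 := by
    rw [← hcard]
    have := card_le_univ W'
    rwa [Fintype.card_fin] at this
  have hBw := hB W.card hwle
  rw [← hg, ← hℓ] at hmd hBw
  have hg1 : 1 ≤ g := by
    rw [hg]
    have : (0 : ℝ) ≤ (Nat.log 2 W.card : ℝ) := Nat.cast_nonneg _
    linarith
  have hℓ1 : 1 ≤ ℓ := by
    rw [hℓ, Real.le_log_iff_exp_le (by positivity)]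
    have := Real.exp_one_lt_d9
    linarith
  obtain ⟨p, hp⟩ : ∃ p : ℝ, p = (k : ℝ) / N := ⟨_, rfl⟩
  rw [← hp] at hmd ⊢
  have hp0 : 0 ≤ p := by rw [hp]; positivity
  have hp1 : p ≤ 1 := by rw [hp, div_le_one hN0]; exact hkN
  obtain ⟨P, hP⟩ : ∃ P : ℝ, P = ℓ * (Lam + 1) * g := ⟨_, rfl⟩
  have hM1 : 1 ≤ ℓ * (Lam + 1) := one_le_mul_of_one_le_of_one_le hℓ1 (by linarith)
  have hP1 : 1 ≤ P := by rw [hP]; exact one_le_mul_of_one_le_of_one_le hM1 hg1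
  have hgP : g ≤ P := by
    rw [hP]
    exact le_mul_of_one_le_left (by linarith) hM1
  have h1 : p * ∑ n ∈ Icc 1 N, ‖∑ i ∈ W', phs (b' i) * eg N Q i n‖ ^ 2 ≤ 2 * (p * S) + w ^ 2 := by
    have h2 := mul_le_mul_of_nonneg_left hSS hp0
    have h3 : p * w ^ 2 ≤ w ^ 2 := mul_le_of_le_one_left (sq_nonneg _) hp1
    linarith
  have h2 : ∑ n ∈ I, ‖∑ i ∈ W', phs (b' i) * eg N Q i n‖ ^ 2 ≤ 1236 * P * (p * S + w ^ 2 + k) := by
    refine hmd.trans ?_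
    have hpS : 0 ≤ p * S := mul_nonneg hp0 hS0
    have h3 : 36 * (p * ∑ n ∈ Icc 1 N, ‖∑ i ∈ W', phs (b' i) * eg N Q i n‖ ^ 2) ≤
        72 * (p * S) + 36 * w ^ 2 := by linarith
    have h4 : 4 * (36 * (p * ∑ n ∈ Icc 1 N, ‖∑ i ∈ W', phs (b' i) * eg N Q i n‖ ^ 2) +
        273 * w ^ 2 * ℓ * (Lam + 1)) * g ≤
        4 * (72 * (p * S) + 36 * w ^ 2 + 273 * w ^ 2 * ℓ * (Lam + 1)) * g := by
      apply mul_le_mul_of_nonneg_right _ (by linarith)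
      linarith
    have h5 : 4 * (72 * (p * S) + 36 * w ^ 2 + 273 * w ^ 2 * ℓ * (Lam + 1)) * g =
        288 * ((p * S) * g) + 144 * (w ^ 2 * g) + 1092 * (w ^ 2 * P) := by
      rw [hP]
      ring
    have h6 : (p * S) * g ≤ (p * S) * P := mul_le_mul_of_nonneg_left hgP hpS
    have h7 : w ^ 2 * g ≤ w ^ 2 * P := mul_le_mul_of_nonneg_left hgP (sq_nonneg _)
    have h8 : (k : ℝ) ≤ k * P := le_mul_of_one_le_right hk0 hP1
    have h9 : 0 ≤ (p * S) * P := mul_nonneg hpS (by linarith)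
    have h10 : 0 ≤ k * P := mul_nonneg hk0 (by linarith)
    linarith
  have h3 : 0 ≤ p * S + w ^ 2 + k := by
    have := mul_nonneg hp0 hS0
    have := sq_nonneg w
    linarith
  have h4 := mul_le_mul_of_nonneg_left h2 (by positivity : 0 ≤ 100 / 49 * G)
  have h5 : (3 / 4 * V) ^ 2 * w ^ 2 = 9 / 16 * (V ^ 2 * w ^ 2) := by ring
  rw [h5] at hb'
  have h6 : V ^ 2 * w ^ 2 ≤ 16 / 9 * (100 / 49 * G * (1236 * P * (p * S + w ^ 2 + k))) := by linarith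
  refine h6.trans ?_
  have h7 : 16 / 9 * (100 / 49 * G * (1236 * P * (p * S + w ^ 2 + k))) =
      (16 / 9 * (100 / 49) * 1236 * P) * (G * (p * S + w ^ 2 + k)) := by ring
  have h8 : B * G * (p * S + w ^ 2 + k) = B * (G * (p * S + w ^ 2 + k)) := by ring
  rw [h7, h8]
  apply mul_le_mul_of_nonneg_right _ (mul_nonneg hG0 h3)
  rw [← hP] at hBw
  linarith

open Classical in
theorem basR_count (ε A : ℝ) (hε : 0 < ε) (hA : 0 ≤ A) (Q : ℕ) : ∃ C : ℝ, 1 ≤ C ∧ ∀ N k : ℕ, 1 ≤ N →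
    (((powersetCard k (Icc 1 N)).filter (fun I => ¬ BasR N Q k (C * (N : ℝ) ^ ε) I)).card : ℝ) ≤
      (N : ℝ) ^ (-A) * ((powersetCard k (Icc 1 N)).card : ℝ) := by
  obtain ⟨C, hC, hab⟩ := absorbR ε A hε hA Q
  refine ⟨C, hC, ?_⟩
  intro N k hN
  have hN1 : (1 : ℝ) ≤ N := by exact_mod_cast hN
  have hN0 : (0 : ℝ) < N := by linarith
  have hFne : (Icc 1 N).Nonempty := ⟨1, mem_Icc.2 ⟨le_rfl, hN⟩⟩
  have hFc : ((Icc 1 N).card : ℝ) = N := by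
    rw [Nat.card_Icc, Nat.add_sub_cancel]
  have hδ : 0 < (N : ℝ) ^ (-A) := Real.rpow_pos_of_pos hN0 _
  have hδ1 : (N : ℝ) ^ (-A) ≤ 1 := Real.rpow_le_one_of_one_le_of_nonpos hN1 (by linarith)
  have hgc := good_count (Icc 1 N) hFne (eg N Q) k ((N : ℝ) ^ (-A)) hδ hδ1 (by rw [Fintype.card_fin]; omega)
  rw [Fintype.card_fin] at hgc
  have hT1 : ((4 * N ^ 2 * N ^ Q + 1 : ℕ) : ℝ) = 4 * (N : ℝ) ^ 2 * (N : ℝ) ^ Q + 1 := by push_cast; rfl
  rw [hT1, hFc] at hgc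
  obtain ⟨Lam, hLam⟩ : ∃ Lam : ℝ, Lam =
    Real.log (8 * (4 * (N : ℝ) ^ 2 * (N : ℝ) ^ Q + 1) * (N : ℝ) ^ 2 / (N : ℝ) ^ (-A)) := ⟨_, rfl⟩
  rw [← hLam] at hgc
  rw [card_powersetCard]
  refine le_trans ?_ hgc
  have hLam0 : 0 ≤ Lam := by
    rw [hLam]
    apply Real.log_nonneg
    rw [le_div_iff₀ hδ]
    have h6 : (1 : ℝ) ≤ (N : ℝ) ^ 2 := one_le_pow₀ hN1
    have h7 : (1 : ℝ) ≤ 8 * (4 * (N : ℝ) ^ 2 * (N : ℝ) ^ Q + 1) := by
      have : 0 ≤ 4 * (N : ℝ) ^ 2 * (N : ℝ) ^ Q := by positivity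
      linarith
    have h8 := one_le_mul_of_one_le_of_one_le h7 h6
    linarith
  have hsub : (powersetCard k (Icc 1 N)).filter (fun I => ¬ BasR N Q k (C * (N : ℝ) ^ ε) I) ⊆
      (powersetCard k (Icc 1 N)).filter (fun I => ¬ GoodI (Icc 1 N) (eg N Q) k Lam I) := by
    intro I hI
    rw [mem_filter] at hI ⊢
    refine ⟨hI.1, fun hG => hI.2 ?_⟩
    have hIF := (mem_powersetCard.1 hI.1).1
    have hIk := (mem_powersetCard.1 hI.1).2
    refine basR_of_good N Q k hN Lam hLam0 I hIF hIk hG _ ?_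
    intro w hw
    rw [hLam]
    exact hab N hN w hw
  exact_mod_cast card_le_card hsub

end Pool.Agent.Y959.Rs
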