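import Pool.Agent.Y959.Rs.RealB
import Pool.Agent.Y959.Rs.Cons

set_option autoImplicit false

/-!
# Random supports and separated real points: the consequences
-/

namespace Pool.Agent.Y959.Rs

open Finset Pool.Agent.TH705.DL Pool.Agent.Y959.Her Pool.Agent.Y959.Smp

theorem num_mom (w V G p k B S Gk : ℝ) (κ : ℕ) (hκ : 1 ≤ κ) (hw : 1 ≤ w) (hV : 0 < V) (hG : 0 ≤ G)
    (hp : 0 ≤ p) (hk : 0 ≤ k) (hB : 0 < B) (hS : 0 ≤ S) (hGk : 0 ≤ Gk)
    (hb : V ^ 2 * w ^ 2 ≤ B * G * (p * S + w ^ 2 + k)) (hmd : S ^ κ ≤ w ^ (2 * κ - 1) * Gk)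
    (hbig : 3 * B * G < V ^ 2) :
    w ≤ 3 * B * (k * G / V ^ 2) + (3 * B) ^ κ * Gk * (p * G / V ^ 2) ^ κ := by
  have hw0 : 0 < w := by linarith
  have hV2 : 0 < V ^ 2 := by positivity
  have h1 : V ^ 2 * w ^ 2 ≤ 3 / 2 * (B * G * (p * S + k)) := by
    have h2 : 3 * B * G * w ^ 2 ≤ V ^ 2 * w ^ 2 := mul_le_mul_of_nonneg_right hbig.le (sq_nonneg _)
    linarith
  rcases le_total (p * S) k with hc | hc
  · have h3 : V ^ 2 * w ^ 2 ≤ 3 * B * (k * G) := by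
      have h4 : B * G * (p * S + k) ≤ B * G * (2 * k) := by
        apply mul_le_mul_of_nonneg_left _ (by positivity)
        linarith
      linarith
    have h5 : w ≤ w ^ 2 := by nlinarith
    have h6 : w ≤ 3 * B * (k * G / V ^ 2) := by
      rw [mul_div_assoc', le_div_iff₀ hV2]
      nlinarith
    have h7 : 0 ≤ (3 * B) ^ κ * Gk * (p * G / V ^ 2) ^ κ := by positivity
    linarith
  · have h4 : V ^ 2 * w ^ 2 ≤ (3 * B * G * p) * S := by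
      have h4 : B * G * (p * S + k) ≤ B * G * (2 * (p * S)) := by
        apply mul_le_mul_of_nonneg_left _ (by positivity)
        linarith
      linarith
    have h5 : (V ^ 2 * w ^ 2) ^ κ ≤ (3 * B * G * p) ^ κ * (w ^ (2 * κ - 1) * Gk) := by
      refine (pow_le_pow_left₀ (by positivity) h4 κ).trans ?_
      rw [mul_pow]
      exact mul_le_mul_of_nonneg_left hmd (by positivity)
    have h6 : w ≤ (3 * B) ^ κ * Gk * (p * G / V ^ 2) ^ κ := by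
      have e1 : (V ^ 2 * w ^ 2) ^ κ = (V ^ 2) ^ κ * (w ^ (2 * κ - 1) * w) := by
        rw [mul_pow, ← pow_mul w 2 κ, ← pow_succ]
        congr 2
        omega
      rw [e1] at h5
      have h7 : (V ^ 2) ^ κ * w ≤ (3 * B * G * p) ^ κ * Gk := by
        have h8 : ((V ^ 2) ^ κ * w) * w ^ (2 * κ - 1) ≤
            ((3 * B * G * p) ^ κ * Gk) * w ^ (2 * κ - 1) := by linarith
        exact le_of_mul_le_mul_right h8 (by positivity)
      have e2 : (3 * B) ^ κ * Gk * (p * G / V ^ 2) ^ κ = ((3 * B * G * p) ^ κ * Gk) / (V ^ 2) ^ κ := by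
        have e3 : (3 * B * G * p) = (3 * B) * (p * G) := by ring
        rw [e3, div_pow, mul_pow (3 * B)]
        field_simp
      rw [e2, le_div_iff₀ (by positivity)]
      linarith
    have h7 : 0 ≤ 3 * B * (k * G / V ^ 2) := by positivity
    linarith

theorem num_ker (w V G p k B S N g Lg ν : ℝ) (hw : 1 ≤ w) (hG : 0 ≤ G)
    (hp : 0 ≤ p) (hk : 0 ≤ k) (hB : 0 ≤ B) (hg : 1 ≤ g) (hLg : 1 ≤ Lg)
    (hpN : p * N = k) (hb : V ^ 2 * w ^ 2 ≤ B * G * (p * S + w ^ 2 + k))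
    (hS : S ≤ w * (N + g * (84 * N * Lg + w * ν))) :
    V ^ 2 * w ≤ B * G * (86 * (g * Lg) * k + w * (1 + p * (g * ν))) := by
  have h1 : p * S ≤ w * (85 * (g * Lg) * k + w * (p * (g * ν))) := by
    have h2 := mul_le_mul_of_nonneg_left hS hp
    have h3 : p * (w * (N + g * (84 * N * Lg + w * ν))) =
        w * (p * N + 84 * (g * Lg) * (p * N) + w * (p * (g * ν))) := by ring
    rw [h3, hpN] at h2
    have h4 : k ≤ (g * Lg) * k := le_mul_of_one_le_left hk (one_le_mul_of_one_le_of_one_le hg hLg)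
    refine h2.trans ?_
    apply mul_le_mul_of_nonneg_left _ (by linarith)
    linarith
  have h8 : k ≤ w * ((g * Lg) * k) := by
    have h9 : k ≤ (g * Lg) * k := le_mul_of_one_le_left hk (one_le_mul_of_one_le_of_one_le hg hLg)
    have h10 : (g * Lg) * k ≤ w * ((g * Lg) * k) := le_mul_of_one_le_left (by positivity) hw
    linarith
  have h11 : p * S + w ^ 2 + k ≤ w * (86 * (g * Lg) * k + w * (1 + p * (g * ν))) := by
    have : w * (86 * (g * Lg) * k + w * (1 + p * (g * ν))) =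
        w * (85 * (g * Lg) * k + w * (p * (g * ν))) + w ^ 2 + w * ((g * Lg) * k) := by ring
    rw [this]
    linarith
  have h12 := hb.trans (mul_le_mul_of_nonneg_left h11 (mul_nonneg hB hG))
  have h13 : (V ^ 2 * w) * w ≤ (B * G * (86 * (g * Lg) * k + w * (1 + p * (g * ν)))) * w := by
    calc (V ^ 2 * w) * w = V ^ 2 * w ^ 2 := by ring
      _ ≤ _ := h12
      _ = _ := by ring
  exact le_of_mul_le_mul_right h13 (by linarith)

/-- from level sets to sums of squares -/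
theorem lev_sum (I : Finset ℕ) (k : ℕ) (hIk : I.card = k) (a : ℕ → ℂ) (W : Finset ℝ) (A1 : ℝ)
    (hA1 : 0 ≤ A1)
    (hlev : ∀ V, 0 < V → ∑ n ∈ I, ‖a n‖ ^ 2 ≤ V ^ 2 → V ^ 2 *
      ((W.filter (fun t => V ≤ ‖∑ n ∈ I, a n * ph t n‖)).card : ℝ) ≤ A1 * ∑ n ∈ I, ‖a n‖ ^ 2) :
    ∑ t ∈ W, ‖∑ n ∈ I, a n * ph t n‖ ^ 2 ≤
      (4 * A1 * ((Nat.log 2 k : ℝ) + 2) + W.card) * ∑ n ∈ I, ‖a n‖ ^ 2 := by
  classical
  have hk0 : (0 : ℝ) ≤ k := Nat.cast_nonneg _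
  obtain ⟨G, hG⟩ : ∃ G : ℝ, G = ∑ n ∈ I, ‖a n‖ ^ 2 := ⟨_, rfl⟩
  have hG0 : 0 ≤ G := by rw [hG]; exact sum_nonneg fun _ _ => sq_nonneg _
  have htriv : ∀ t : ℝ, ‖∑ n ∈ I, a n * ph t n‖ ^ 2 ≤ k * G := by
    intro t
    have h1 : ‖∑ n ∈ I, a n * ph t n‖ ≤ ∑ n ∈ I, ‖a n‖ := by
      refine (norm_sum_le _ _).trans (le_of_eq ?_)
      apply sum_congr rfl
      intro n _
      rw [norm_mul, ph_norm, mul_one]
    have h2 := sq_sum_le_card_mul_sum_sq (s := I) (f := fun n => ‖a n‖)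
    rw [hIk, ← hG] at h2
    exact (pow_le_pow_left₀ (norm_nonneg _) h1 2).trans h2
  rw [← hG] at hlev ⊢
  obtain ⟨w, hw⟩ : ∃ w : ℝ, w = (W.card : ℝ) := ⟨_, rfl⟩
  have hw0 : 0 ≤ w := by rw [hw]; exact Nat.cast_nonneg _
  rw [← hw]
  rcases hG0.lt_or_eq with hGp | hGz
  swap
  · calc ∑ t ∈ W, ‖∑ n ∈ I, a n * ph t n‖ ^ 2 ≤ ∑ t ∈ W, (k * G) := sum_le_sum fun t _ => htriv t
      _ = 0 := by rw [← hGz]; simp
      _ ≤ _ := by positivity
  have hsq : 0 < Real.sqrt G := Real.sqrt_pos.2 hGp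
  have hlev' : ∀ V, Real.sqrt G ≤ V → V ^ 2 *
      ((W.filter (fun t => V ≤ ‖∑ n ∈ I, a n * ph t n‖)).card : ℝ) ≤ A1 * G := by
    intro V hV
    apply hlev V (lt_of_lt_of_le hsq hV)
    calc G = (Real.sqrt G) ^ 2 := (Real.sq_sqrt hG0).symm
      _ ≤ V ^ 2 := pow_le_pow_left₀ hsq.le hV 2
  have hmax : ∀ t ∈ W, ‖∑ n ∈ I, a n * ph t n‖ ≤ 2 ^ (Nat.log 2 k + 1) * Real.sqrt G := by
    intro t _
    have h1 : ‖∑ n ∈ I, a n * ph t n‖ ≤ Real.sqrt (k * G) := Real.le_sqrt_of_sq_le (htriv t)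
    refine h1.trans ?_
    rw [Real.sqrt_mul hk0]
    apply mul_le_mul_of_nonneg_right _ hsq.le
    have h2 : k < 2 ^ (Nat.log 2 k + 1) := Nat.lt_pow_succ_log_self (by norm_num) _
    have h3 : (k : ℝ) ≤ 2 ^ (Nat.log 2 k + 1) := by exact_mod_cast h2.le
    have h4 : (1 : ℝ) ≤ 2 ^ (Nat.log 2 k + 1) := one_le_pow₀ (by norm_num)
    apply Real.sqrt_le_iff.2
    refine ⟨by positivity, ?_⟩
    nlinarith
  have hdy := dyadic W (fun t => ‖∑ n ∈ I, a n * ph t n‖) (Real.sqrt G) (A1 * G) hsq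
    (Nat.log 2 k + 1) hmax hlev'
  have hsmall : ∑ t ∈ W.filter (fun t => ¬ Real.sqrt G ≤ ‖∑ n ∈ I, a n * ph t n‖),
      ‖∑ n ∈ I, a n * ph t n‖ ^ 2 ≤ w * G := by
    calc ∑ t ∈ W.filter (fun t => ¬ Real.sqrt G ≤ ‖∑ n ∈ I, a n * ph t n‖),
          ‖∑ n ∈ I, a n * ph t n‖ ^ 2
        ≤ ∑ t ∈ W.filter (fun t => ¬ Real.sqrt G ≤ ‖∑ n ∈ I, a n * ph t n‖), G := by
          apply sum_le_sum
          intro t ht
          have h1 := (mem_filter.1 ht).2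
          push Not at h1
          calc ‖∑ n ∈ I, a n * ph t n‖ ^ 2 ≤ (Real.sqrt G) ^ 2 :=
                pow_le_pow_left₀ (norm_nonneg _) h1.le 2
            _ = G := Real.sq_sqrt hG0
      _ ≤ w * G := by
          rw [sum_const, nsmul_eq_mul, hw]
          apply mul_le_mul_of_nonneg_right _ hG0
          exact_mod_cast card_filter_le _ _
  rw [← sum_filter_add_sum_filter_not W (fun t => Real.sqrt G ≤ ‖∑ n ∈ I, a n * ph t n‖)]
  refine (add_le_add hdy hsmall).trans (le_of_eq ?_)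
  push_cast
  ring

/-- the large sieve inequalities and the large value estimates -/
def GoodR (N Q k : ℕ) (C ε : ℝ) (I : Finset ℕ) : Prop :=
  ∀ (T : ℝ) (W : Finset ℝ) (a : ℕ → ℂ), 0 ≤ T → T ≤ (N : ℝ) ^ Q → (∀ t ∈ W, 0 ≤ t ∧ t ≤ T) → Sep W →
    (∑ t ∈ W, ‖∑ n ∈ I, a n * ph t n‖ ^ 2 ≤
      C * (N : ℝ) ^ ε * (k + W.card * (1 + k / N * Real.sqrt T)) * ∑ n ∈ I, ‖a n‖ ^ 2) ∧
    (∀ κ : ℕ, 1 ≤ κ → κ ≤ Q → ∀ V : ℝ, 0 < V → (∀ t ∈ W, V ≤ ‖∑ n ∈ I, a n * ph t n‖) →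
      V ^ 2 ≤ C * (N : ℝ) ^ ε * ∑ n ∈ I, ‖a n‖ ^ 2 ∨
        (W.card : ℝ) ≤ C * (N : ℝ) ^ ε * (k * (∑ n ∈ I, ‖a n‖ ^ 2) / V ^ 2 +
          (T + (N : ℝ) ^ κ) * (k * (∑ n ∈ I, ‖a n‖ ^ 2) / (N * V ^ 2)) ^ κ))

theorem log_pow6 (ε : ℝ) (hε : 0 < ε) : ∃ C : ℝ, 1 ≤ C ∧ ∀ N : ℕ, 1 ≤ N →
    (1 + Real.log N) ^ 6 ≤ C * (N : ℝ) ^ ε := by
  obtain ⟨C, hC, h⟩ := log_pow3 (ε / 2) (by positivity)
  refine ⟨C ^ 2, one_le_pow₀ hC, ?_⟩
  intro N hN
  have hN1 : (1 : ℝ) ≤ N := by exact_mod_cast hN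
  have hl : 0 ≤ Real.log N := Real.log_nonneg hN1
  calc (1 + Real.log N) ^ 6 = ((1 + Real.log N) ^ 3) ^ 2 := by ring
    _ ≤ (C * (N : ℝ) ^ (ε / 2)) ^ 2 := pow_le_pow_left₀ (by positivity) (h N hN) 2
    _ = C ^ 2 * (N : ℝ) ^ ε := by
        rw [mul_pow, ← Real.rpow_natCast ((N : ℝ) ^ (ε / 2)) 2, ← Real.rpow_mul (by linarith)]
        congr 2
        push_cast
        ring

theorem log2_leR (N : ℕ) (hN : 1 ≤ N) : (Nat.log 2 N : ℝ) ≤ 2 * Real.log N := by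
  have hN1 : (1 : ℝ) ≤ N := by exact_mod_cast hN
  have hlogs' : 0.6931471803 < Real.log 2 := Real.log_two_gt_d9
  have h2 : 2 ^ (Nat.log 2 N) ≤ N := Nat.pow_log_le_self 2 (by omega)
  have h3 : ((2 : ℝ)) ^ (Nat.log 2 N) ≤ N := by exact_mod_cast h2
  have h6 := Real.log_le_log (by positivity) h3
  rw [Real.log_pow] at h6
  have h0 : (0 : ℝ) ≤ (Nat.log 2 N : ℝ) := Nat.cast_nonneg _
  nlinarith

/-- all logarithms -/
theorem absorb3 (ε : ℝ) (hε : 0 < ε) (Q : ℕ) : ∃ C : ℝ, 1 ≤ C ∧ ∀ (N k : ℕ) (T : ℝ), 1 ≤ N → k ≤ N →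
    0 ≤ T → T ≤ (N : ℝ) ^ Q →
      345 * ((((Nat.log 2 k : ℝ) + 2) * ((Nat.log 2 N : ℝ) + 1)) *
        ((1 + Real.log (T + 1)) * (14 * (1 + Real.log N)))) ≤ C * (N : ℝ) ^ ε := by
  obtain ⟨C, hC, h⟩ := log_pow6 ε hε
  refine ⟨345 * (28 * (2 + Q) * 4) * C, ?_, ?_⟩
  · have h1 : (0 : ℝ) ≤ Q := Nat.cast_nonneg _
    nlinarith
  intro N k T hN hk hT hTQ
  have hN1 : (1 : ℝ) ≤ N := by exact_mod_cast hN
  have hN0 : (0 : ℝ) < N := by linarith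
  have hQ0 : (0 : ℝ) ≤ Q := Nat.cast_nonneg _
  have hl0 : 0 ≤ Real.log N := Real.log_nonneg hN1
  obtain ⟨L, hL⟩ : ∃ L : ℝ, L = 1 + Real.log N := ⟨_, rfl⟩
  have hL1 : 1 ≤ L := by linarith
  have hlogs : Real.log 2 < 0.6931471808 := Real.log_two_lt_d9
  have hN2 := log2_leR N hN
  have a1 : (Nat.log 2 k : ℝ) + 2 ≤ 2 * L := by
    have h1 : (Nat.log 2 k : ℝ) ≤ (Nat.log 2 N : ℝ) := by exact_mod_cast Nat.log_mono_right hk
    linarith
  have a2 : (Nat.log 2 N : ℝ) + 1 ≤ 2 * L := by linarith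
  have a3 : 1 + Real.log (T + 1) ≤ (2 + Q) * L := by
    have hNQ : (1 : ℝ) ≤ (N : ℝ) ^ Q := one_le_pow₀ hN1
    have h1 := Real.log_le_log (by linarith) (by linarith : T + 1 ≤ 2 * (N : ℝ) ^ Q)
    rw [Real.log_mul (by norm_num) (by positivity), Real.log_pow] at h1
    have h4 : 0 ≤ (Q : ℝ) * (L - Real.log N) := mul_nonneg hQ0 (by linarith)
    nlinarith
  have a3' : 0 ≤ 1 + Real.log (T + 1) := by
    have := Real.log_nonneg (by linarith : 1 ≤ T + 1)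
    linarith
  calc 345 * ((((Nat.log 2 k : ℝ) + 2) * ((Nat.log 2 N : ℝ) + 1)) *
        ((1 + Real.log (T + 1)) * (14 * (1 + Real.log N))))
      ≤ 345 * (((2 * L) * (2 * L)) * (((2 + Q) * L) * (14 * L))) := by
        rw [← hL]
        apply mul_le_mul_of_nonneg_left _ (by norm_num)
        apply mul_le_mul (mul_le_mul a1 a2 (by positivity) (by positivity)) _ (by positivity)
          (by positivity)
        exact mul_le_mul_of_nonneg_right a3 (by positivity)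
    _ = 345 * (14 * (2 + Q) * 4) * L ^ 4 := by ring
    _ ≤ 345 * (28 * (2 + Q) * 4) * L ^ 6 := by
        apply mul_le_mul _ (pow_le_pow_right₀ hL1 (by norm_num)) (by positivity) (by positivity)
        nlinarith
    _ ≤ 345 * (28 * (2 + Q) * 4) * (C * (N : ℝ) ^ ε) := by
        apply mul_le_mul_of_nonneg_left _ (by positivity)
        rw [hL]
        exact h N hN
    _ = _ := by ring

end Pool.Agent.Y959.Rs
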