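import Pool.Agent.Y959.Rs.RealC

set_option autoImplicit false

/-!
# Random supports and separated real points: the count
-/

namespace Pool.Agent.Y959.Rs

open Finset Pool.Agent.TH705.DL Pool.Agent.Y959.Her Pool.Agent.Y959.Smp

/-- the large sieve -/
theorem basR_ls (N Q k : ℕ) (hN : 1 ≤ N) (B : ℝ) (hB : 1 ≤ B) (I : Finset ℕ)
    (hIk : I.card = k) (hI : BasR N Q k B I) (T : ℝ) (hT : 0 ≤ T) (hTQ : T ≤ (N : ℝ) ^ Q)
    (W : Finset ℝ) (hW : ∀ t ∈ W, 0 ≤ t ∧ t ≤ T) (hsep : Sep W) (a : ℕ → ℂ) :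
    ∑ t ∈ W, ‖∑ n ∈ I, a n * ph t n‖ ^ 2 ≤
      345 * ((((Nat.log 2 k : ℝ) + 2) * ((Nat.log 2 N : ℝ) + 1)) *
        ((1 + Real.log (T + 1)) * (14 * (1 + Real.log N)))) * B *
        (k + W.card * (1 + k / N * Real.sqrt T)) * ∑ n ∈ I, ‖a n‖ ^ 2 := by
  classical
  have hN1 : (1 : ℝ) ≤ N := by exact_mod_cast hN
  have hN0 : (0 : ℝ) < N := by linarith
  have hk0 : (0 : ℝ) ≤ k := Nat.cast_nonneg _
  obtain ⟨G, hG⟩ : ∃ G : ℝ, G = ∑ n ∈ I, ‖a n‖ ^ 2 := ⟨_, rfl⟩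
  have hG0 : 0 ≤ G := by rw [hG]; exact sum_nonneg fun _ _ => sq_nonneg _
  obtain ⟨Lg, hLg⟩ : ∃ Lg : ℝ, Lg = 1 + Real.log (T + 1) := ⟨_, rfl⟩
  have hLg1 : 1 ≤ Lg := by
    rw [hLg]
    have := Real.log_nonneg (by linarith : 1 ≤ T + 1)
    linarith
  obtain ⟨L, hL⟩ : ∃ L : ℝ, L = 1 + Real.log N := ⟨_, rfl⟩
  have hL1 : 1 ≤ L := by
    rw [hL]
    have := Real.log_nonneg hN1
    linarith
  obtain ⟨g, hg⟩ : ∃ g : ℝ, g = (Nat.log 2 N : ℝ) + 1 := ⟨_, rfl⟩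
  have hg1 : 1 ≤ g := by
    rw [hg]
    have : (0 : ℝ) ≤ (Nat.log 2 N : ℝ) := Nat.cast_nonneg _
    linarith
  obtain ⟨g2, hg2⟩ : ∃ g2 : ℝ, g2 = (Nat.log 2 k : ℝ) + 2 := ⟨_, rfl⟩
  have hg21 : 1 ≤ g2 := by
    rw [hg2]
    have : (0 : ℝ) ≤ (Nat.log 2 k : ℝ) := Nat.cast_nonneg _
    linarith
  obtain ⟨p, hp⟩ : ∃ p : ℝ, p = (k : ℝ) / N := ⟨_, rfl⟩
  have hp0 : 0 ≤ p := by rw [hp]; positivity
  have hpN : p * N = k := by
    rw [hp]
    field_simp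
  obtain ⟨ν, hν⟩ : ∃ ν : ℝ, ν = 14 * Real.sqrt (T * (1 + Real.log N)) := ⟨_, rfl⟩
  have hν0 : 0 ≤ ν := by rw [hν]; positivity
  obtain ⟨w, hw⟩ : ∃ w : ℝ, w = (W.card : ℝ) := ⟨_, rfl⟩
  have hw0 : 0 ≤ w := by rw [hw]; exact Nat.cast_nonneg _
  obtain ⟨A1, hA1⟩ : ∃ A1 : ℝ, A1 = B * (86 * (g * Lg) * k + w * (1 + p * (g * ν))) := ⟨_, rfl⟩
  have hA10 : 0 ≤ A1 := by rw [hA1]; positivity
  have hlev : ∀ V, 0 < V → ∑ n ∈ I, ‖a n‖ ^ 2 ≤ V ^ 2 → V ^ 2 *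
      ((W.filter (fun t => V ≤ ‖∑ n ∈ I, a n * ph t n‖)).card : ℝ) ≤ A1 * ∑ n ∈ I, ‖a n‖ ^ 2 := by
    intro V hV hGV
    obtain ⟨W', hW'⟩ : ∃ W' : Finset ℝ, W' = W.filter (fun t => V ≤ ‖∑ n ∈ I, a n * ph t n‖) :=
      ⟨_, rfl⟩
    rw [← hW']
    have hsub : W' ⊆ W := by rw [hW']; exact filter_subset _ _
    rcases W'.eq_empty_or_nonempty with h0 | hne
    · rw [h0]
      simp only [card_empty, Nat.cast_zero, mul_zero]
      rw [← hG]
      positivity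
    have hsep' : Sep W' := fun t ht u hu => hsep t (hsub ht) u (hsub hu)
    obtain ⟨b, hb⟩ := hI W' a V (fun t ht => ⟨(hW t (hsub ht)).1, (hW t (hsub ht)).2.trans hTQ⟩) hsep'
      hne hV hGV (fun t ht => by
        rw [hW'] at ht
        exact (mem_filter.1 ht).2)
    have hhal := halaszR N hN T hT W' (fun t ht => hW t (hsub ht)) hsep' b
    rw [← hG, ← hp] at hb
    rw [← hLg, ← hg, ← hν] at hhal
    have hw1 : (1 : ℝ) ≤ W'.card := by exact_mod_cast card_pos.2 hne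
    have h1 := num_ker (W'.card : ℝ) V G p k B _ N g Lg ν hw1 hG0 hp0 hk0 (by linarith) hg1 hLg1 hpN
      hb hhal
    rw [← hG, hA1]
    refine h1.trans ?_
    have h2 : (W'.card : ℝ) ≤ w := by
      rw [hw]
      exact_mod_cast card_le_card hsub
    have h3 : (W'.card : ℝ) * (1 + p * (g * ν)) ≤ w * (1 + p * (g * ν)) :=
      mul_le_mul_of_nonneg_right h2 (by positivity)
    have h4 := mul_le_mul_of_nonneg_left h3 (by positivity : 0 ≤ B * G)
    linarith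
  have h1 := lev_sum I k hIk a W A1 hA10 hlev
  rw [← hG, ← hw, ← hg2] at h1
  rw [← hG, ← hw, ← hg2, ← hg, ← hLg, ← hL, ← hp]
  refine h1.trans (mul_le_mul_of_nonneg_right ?_ hG0)
  obtain ⟨sT, hsT⟩ : ∃ sT : ℝ, sT = Real.sqrt T := ⟨_, rfl⟩
  have hsT0 : 0 ≤ sT := by rw [hsT]; exact Real.sqrt_nonneg _
  have h2 : ν ≤ 14 * L * sT := by
    rw [hν, hsT, Real.sqrt_mul hT, ← hL]
    have h3 : Real.sqrt L ≤ L := by
      apply Real.sqrt_le_iff.2
      exact ⟨by linarith, by nlinarith⟩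
    have h4 := mul_le_mul_of_nonneg_left h3 (Real.sqrt_nonneg T)
    linarith
  rw [← hsT]
  obtain ⟨P, hP⟩ : ∃ P : ℝ, P = (g2 * g) * (Lg * (14 * L)) := ⟨_, rfl⟩
  have h14L : 1 ≤ 14 * L := by linarith
  have q1 : 1 ≤ g2 * g := one_le_mul_of_one_le_of_one_le hg21 hg1
  have q2 : 1 ≤ Lg * (14 * L) := one_le_mul_of_one_le_of_one_le hLg1 h14L
  have q3 : 1 ≤ P := by rw [hP]; exact one_le_mul_of_one_le_of_one_le q1 q2
  rw [← hP, hA1]
  have q4 : g2 * (g * Lg) ≤ P := by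
    have : P = (g2 * (g * Lg)) * (14 * L) := by rw [hP]; ring
    rw [this]
    exact le_mul_of_one_le_right (by positivity) h14L
  have q5 : g2 ≤ P := by
    have h5 : g2 ≤ g2 * (g * Lg) :=
      le_mul_of_one_le_right (by linarith) (one_le_mul_of_one_le_of_one_le hg1 hLg1)
    linarith
  have q6 : g2 * (g * ν) ≤ P * sT := by
    have h5 : g2 * (g * ν) ≤ g2 * (g * (14 * L * sT)) := by
      apply mul_le_mul_of_nonneg_left _ (by linarith)
      exact mul_le_mul_of_nonneg_left h2 (by linarith)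
    have h6 : g2 * (g * (14 * L * sT)) ≤ (g2 * (g * (14 * L * sT))) * Lg :=
      le_mul_of_one_le_right (by positivity) hLg1
    have h7 : (g2 * (g * (14 * L * sT))) * Lg = P * sT := by rw [hP]; ring
    linarith
  have h5 : 4 * (B * (86 * (g * Lg) * k + w * (1 + p * (g * ν)))) * g2 =
      4 * B * (86 * (g2 * (g * Lg)) * k + w * (g2 + p * (g2 * (g * ν)))) := by ring
  rw [h5]
  have h6 : 86 * (g2 * (g * Lg)) * k ≤ 86 * P * k := by
    apply mul_le_mul_of_nonneg_right _ hk0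
    linarith
  have h7 : w * (g2 + p * (g2 * (g * ν))) ≤ 86 * (P * (w * (1 + p * sT))) := by
    have h8 : g2 + p * (g2 * (g * ν)) ≤ P + p * (P * sT) :=
      add_le_add q5 (mul_le_mul_of_nonneg_left q6 hp0)
    have h9 := mul_le_mul_of_nonneg_left h8 hw0
    have h10 : 0 ≤ P * (w * (1 + p * sT)) := by positivity
    linarith
  have h8 : 4 * B * (86 * (g2 * (g * Lg)) * k + w * (g2 + p * (g2 * (g * ν)))) ≤
      4 * B * (86 * P * k + 86 * (P * (w * (1 + p * sT)))) := by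
    apply mul_le_mul_of_nonneg_left _ (by positivity)
    linarith
  have h9 : w ≤ P * B * (k + w * (1 + p * sT)) := by
    have h10 : w ≤ k + w * (1 + p * sT) := by
      have : 0 ≤ w * (p * sT) := by positivity
      linarith
    have h11 : 1 ≤ P * B := one_le_mul_of_one_le_of_one_le q3 hB
    have h12 : 0 ≤ k + w * (1 + p * sT) := by positivity
    exact h10.trans (le_mul_of_one_le_left h12 h11)
  linarith

open Classical in
theorem goodR_count (ε A : ℝ) (hε : 0 < ε) (hA : 0 ≤ A) (Q : ℕ) (hQ : 1 ≤ Q) :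
    ∃ C : ℝ, 1 ≤ C ∧ ∀ N k : ℕ, 1 ≤ N →
    (((powersetCard k (Icc 1 N)).filter (fun I => ¬ GoodR N Q k C ε I)).card : ℝ) ≤
      (N : ℝ) ^ (-A) * ((powersetCard k (Icc 1 N)).card : ℝ) := by
  have hQ1 : (1 : ℝ) ≤ Q := by exact_mod_cast hQ
  obtain ⟨ε1, hε1⟩ : ∃ ε1 : ℝ, ε1 = ε / (2 * (Q + 1)) := ⟨_, rfl⟩
  have hε1p : 0 < ε1 := by rw [hε1]; positivity
  have hε1q : (Q : ℝ) * ε1 ≤ ε / 2 := by
    rw [hε1, mul_div_assoc', div_le_div_iff₀ (by positivity) (by norm_num)]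
    nlinarith
  have hε14 : ε1 ≤ ε / 4 := by
    rw [hε1]
    exact div_le_div_of_nonneg_left hε.le (by norm_num) (by linarith)
  obtain ⟨C1, hC1, hcount⟩ := basR_count ε1 A hε1p hA Q
  obtain ⟨C2, hC2, hab⟩ := absorb3 (ε / 4) (by positivity) Q
  choose K hK hKm using moment_R (ε / 2) (by positivity)
  obtain ⟨K0, hK0⟩ : ∃ K0 : ℝ, K0 = ∑ κ ∈ Icc 1 Q, K κ := ⟨_, rfl⟩
  have hK0le : ∀ κ, 1 ≤ κ → κ ≤ Q → K κ ≤ K0 := fun κ h1 h2 => by
    rw [hK0]
    exact single_le_sum (f := K) (fun j _ => (hK j).le) (mem_Icc.2 ⟨h1, h2⟩)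
  have hK0p : 0 < K0 := lt_of_lt_of_le (hK 1) (hK0le 1 le_rfl hQ)
  obtain ⟨C, hCd⟩ : ∃ C : ℝ, C = C1 * C2 + 3 * C1 + (3 * C1) ^ Q * K0 := ⟨_, rfl⟩
  have p1 : 0 ≤ C1 * C2 := by positivity
  have p3 : 0 ≤ (3 * C1) ^ Q * K0 := by positivity
  refine ⟨C, by rw [hCd]; linarith, ?_⟩
  intro N k hN
  have hN1 : (1 : ℝ) ≤ N := by exact_mod_cast hN
  have hN0 : (0 : ℝ) < N := by linarith
  have hk0 : (0 : ℝ) ≤ k := Nat.cast_nonneg _
  refine le_trans ?_ (hcount N k hN)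
  have hsub : (powersetCard k (Icc 1 N)).filter (fun I => ¬ GoodR N Q k C ε I) ⊆
      (powersetCard k (Icc 1 N)).filter (fun I => ¬ BasR N Q k (C1 * (N : ℝ) ^ ε1) I) := by
    intro I hI
    rw [mem_filter] at hI ⊢
    refine ⟨hI.1, fun hB => hI.2 ?_⟩
    have hIF := (mem_powersetCard.1 hI.1).1
    have hIk := (mem_powersetCard.1 hI.1).2
    have hkN : k ≤ N := by
      rw [← hIk]
      refine (card_le_card hIF).trans ?_
      rw [Nat.card_Icc]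
      omega
    have hNε1 : 1 ≤ (N : ℝ) ^ ε1 := Real.one_le_rpow hN1 hε1p.le
    have hB1 : 1 ≤ C1 * (N : ℝ) ^ ε1 := one_le_mul_of_one_le_of_one_le hC1 hNε1
    intro T W a hT hTQ hW hsep
    obtain ⟨G, hG⟩ : ∃ G : ℝ, G = ∑ n ∈ I, ‖a n‖ ^ 2 := ⟨_, rfl⟩
    have hG0 : 0 ≤ G := by rw [hG]; exact sum_nonneg fun _ _ => sq_nonneg _
    have hNε : 0 < (N : ℝ) ^ ε := Real.rpow_pos_of_pos hN0 _
    constructor
    · have h1 := basR_ls N Q k hN (C1 * (N : ℝ) ^ ε1) hB1 I hIk hB T hT hTQ W hW hsep a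
      rw [← hG] at h1 ⊢
      refine h1.trans ?_
      apply mul_le_mul_of_nonneg_right _ hG0
      apply mul_le_mul_of_nonneg_right _ (by positivity)
      have h2 := hab N k T hN hkN hT hTQ
      have h3 := mul_le_mul_of_nonneg_right h2 (by linarith : 0 ≤ C1 * (N : ℝ) ^ ε1)
      refine h3.trans ?_
      have hNN1 : (N : ℝ) ^ (ε / 4) * (N : ℝ) ^ ε1 ≤ (N : ℝ) ^ ε := by
        rw [← Real.rpow_add hN0]
        exact Real.rpow_le_rpow_of_exponent_le hN1 (by linarith)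
      calc C2 * (N : ℝ) ^ (ε / 4) * (C1 * (N : ℝ) ^ ε1)
          = (C1 * C2) * ((N : ℝ) ^ (ε / 4) * (N : ℝ) ^ ε1) := by ring
        _ ≤ (C1 * C2) * (N : ℝ) ^ ε := mul_le_mul_of_nonneg_left hNN1 p1
        _ ≤ C * (N : ℝ) ^ ε := by
            apply mul_le_mul_of_nonneg_right _ hNε.le
            rw [hCd]
            linarith
    · intro κ hκ1 hκQ V hV hVW
      rw [← hG]
      have hNe : (N : ℝ) ^ ε1 ≤ (N : ℝ) ^ ε := Real.rpow_le_rpow_of_exponent_le hN1 (by linarith)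
      have h3C : 3 * (C1 * (N : ℝ) ^ ε1) ≤ C * (N : ℝ) ^ ε := by
        calc 3 * (C1 * (N : ℝ) ^ ε1) = (3 * C1) * (N : ℝ) ^ ε1 := by ring
          _ ≤ C * (N : ℝ) ^ ε := by
            apply mul_le_mul _ hNe (by positivity) (by rw [hCd]; positivity)
            rw [hCd]
            linarith
      by_cases hbig : V ^ 2 ≤ 3 * (C1 * (N : ℝ) ^ ε1) * G
      · left
        exact hbig.trans (mul_le_mul_of_nonneg_right h3C hG0)
      right
      push Not at hbig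
      rcases W.eq_empty_or_nonempty with h0 | hne
      · rw [h0]
        simp only [card_empty, Nat.cast_zero]
        have : 0 ≤ C := by rw [hCd]; positivity
        positivity
      have hGV : G ≤ V ^ 2 := by
        have : G ≤ 3 * (C1 * (N : ℝ) ^ ε1) * G := by
          apply le_mul_of_one_le_left hG0
          linarith
        linarith
      rw [hG] at hGV
      obtain ⟨b, hb⟩ := hB W a V (fun t ht => ⟨(hW t ht).1, (hW t ht).2.trans hTQ⟩) hsep hne hV hGV hVW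
      have hKκ := (hK κ).le
      have hmd := moment_dual (fun (t : ℝ) (n : ℕ) => ph t n) (Icc 1 N) W κ hκ1
        (K κ * (N : ℝ) ^ (ε / 2) * (T + (N : ℝ) ^ κ))
        (fun a' => hKm κ N T hN hT W hW hsep a') (by positivity) b
      rw [← hG] at hb
      have hw1 : (1 : ℝ) ≤ W.card := by exact_mod_cast card_pos.2 hne
      have h2 := num_mom (W.card : ℝ) V G (k / N) k (C1 * (N : ℝ) ^ ε1) _ _ κ hκ1 hw1 hV hG0
        (by positivity) hk0 (by linarith) (sum_nonneg fun _ _ => sq_nonneg _) (by positivity) hb hmd hbig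
      refine h2.trans ?_
      rw [mul_add (C * (N : ℝ) ^ ε)]
      have hx : 0 ≤ k * G / V ^ 2 := by positivity
      refine add_le_add (mul_le_mul_of_nonneg_right h3C hx) ?_
      have hyy : (k : ℝ) / N * G / V ^ 2 = k * G / (N * V ^ 2) := by
        field_simp
      rw [hyy]
      obtain ⟨y, hy⟩ : ∃ y : ℝ, y = (k * G / (N * V ^ 2)) ^ κ := ⟨_, rfl⟩
      have hy0 : 0 ≤ y := by rw [hy]; positivity
      rw [← hy]
      have e1 : (3 * (C1 * (N : ℝ) ^ ε1)) ^ κ = (3 * C1) ^ κ * (N : ℝ) ^ (κ * ε1) := by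
        rw [← mul_assoc, mul_pow, ← Real.rpow_natCast ((N : ℝ) ^ ε1) κ, ← Real.rpow_mul hN0.le]
        congr 2
        ring
      rw [e1]
      have h4 : (3 * C1) ^ κ ≤ (3 * C1) ^ Q := pow_le_pow_right₀ (by linarith) hκQ
      have h5 : (N : ℝ) ^ (κ * ε1) * (N : ℝ) ^ (ε / 2) ≤ (N : ℝ) ^ ε := by
        rw [← Real.rpow_add hN0]
        apply Real.rpow_le_rpow_of_exponent_le hN1
        have h6 : (κ : ℝ) * ε1 ≤ Q * ε1 :=
          mul_le_mul_of_nonneg_right (by exact_mod_cast hκQ) hε1p.le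
        linarith
      have h6 : (3 * C1) ^ κ * K κ ≤ (3 * C1) ^ Q * K0 :=
        mul_le_mul h4 (hK0le κ hκ1 hκQ) hKκ (by positivity)
      calc (3 * C1) ^ κ * (N : ℝ) ^ (κ * ε1) * (K κ * (N : ℝ) ^ (ε / 2) * (T + (N : ℝ) ^ κ)) * y
          = ((3 * C1) ^ κ * K κ) * ((N : ℝ) ^ (κ * ε1) * (N : ℝ) ^ (ε / 2)) *
              ((T + (N : ℝ) ^ κ) * y) := by ring
        _ ≤ ((3 * C1) ^ Q * K0) * (N : ℝ) ^ ε * ((T + (N : ℝ) ^ κ) * y) := by
            apply mul_le_mul_of_nonneg_right _ (by positivity)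
            exact mul_le_mul h6 h5 (by positivity) p3
        _ ≤ C * (N : ℝ) ^ ε * ((T + (N : ℝ) ^ κ) * y) := by
            apply mul_le_mul_of_nonneg_right _ (by positivity)
            apply mul_le_mul_of_nonneg_right _ hNε.le
            rw [hCd]
            linarith
  exact_mod_cast card_le_card hsub

end Pool.Agent.Y959.Rs
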