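import Pool.Agent.Y959.Rs.ZetaL
import Pool.Agent.Y959.Rs.Det
import Pool.Agent.Y959.Smp.Mo

set_option autoImplicit false

/-!
# Separated real points: Halász–Montgomery and the moments
-/

namespace Pool.Agent.Y959.Rs

open Finset Pool.Agent.TH705.DL Pool.Agent.Y959.Her Pool.Agent.Y959.Smp

theorem harm_real (T : ℝ) (hT : 0 ≤ T) (W : Finset ℝ) (hW : ∀ t ∈ W, 0 ≤ t ∧ t ≤ T) (hsep : Sep W)
    (t : ℝ) (ht : t ∈ W) : ∑ u ∈ W.erase t, 1 / |t - u| ≤ 2 * (1 + Real.log (T + 1)) := by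
  classical
  have hH : ∑ l ∈ Ico 1 (⌊T⌋₊ + 1), (1 : ℝ) / l ≤ 1 + Real.log (T + 1) := by
    have h1 := harm_le (⌊T⌋₊ + 1)
    have h2 : Real.log ((⌊T⌋₊ + 1 : ℕ) : ℝ) ≤ Real.log (T + 1) := by
      apply Real.log_le_log (by positivity)
      push_cast
      have := Nat.floor_le hT
      linarith
    linarith
  have key : ∀ (sg : ℝ) (S : Finset ℝ), (∀ u ∈ S, u ∈ W ∧ 1 ≤ sg * (u - t)) → (sg = 1 ∨ sg = -1) →
      ∑ u ∈ S, 1 / |t - u| ≤ 1 + Real.log (T + 1) := by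
    intro sg S hS hsg
    refine le_trans ?_ hH
    have habs : ∀ u ∈ S, |t - u| = sg * (u - t) := by
      intro u hu
      have h1 := (hS u hu).2
      rcases hsg with h | h
      · rw [h] at h1 ⊢
        rw [abs_sub_comm, abs_of_pos (by linarith)]
        ring
      · rw [h] at h1 ⊢
        rw [abs_of_pos (by linarith)]
        ring
    have hinj : Set.InjOn (fun u : ℝ => ⌊sg * (u - t)⌋₊) S := by
      intro u hu v hv huv
      by_contra hne
      have h1 := hsep u (hS u hu).1 v (hS v hv).1 hne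
      have hu1 := (hS u hu).2
      have hv1 := (hS v hv).2
      have h2 : ⌊sg * (u - t)⌋₊ = ⌊sg * (v - t)⌋₊ := huv
      have h3 := Nat.floor_le (by linarith : 0 ≤ sg * (u - t))
      have h4 := Nat.lt_floor_add_one (sg * (u - t))
      have h5 := Nat.floor_le (by linarith : 0 ≤ sg * (v - t))
      have h6 := Nat.lt_floor_add_one (sg * (v - t))
      rw [← h2] at h5 h6
      have h7 : |u - v| = |sg * (u - t) - sg * (v - t)| := by
        rcases hsg with h | h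
        · rw [h]
          congr 1
          ring
        · rw [h, ← abs_neg]
          congr 1
          ring
      rw [h7] at h1
      have h8 : |sg * (u - t) - sg * (v - t)| < 1 := by
        rw [abs_lt]
        constructor <;> linarith
      linarith
    calc ∑ u ∈ S, 1 / |t - u| ≤ ∑ u ∈ S, (1 : ℝ) / ((⌊sg * (u - t)⌋₊ : ℕ) : ℝ) := by
          apply sum_le_sum
          intro u hu
          rw [habs u hu]
          have hu1 := (hS u hu).2
          have h3 := Nat.floor_le (by linarith : 0 ≤ sg * (u - t))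
          apply one_div_le_one_div_of_le _ h3
          have : 1 ≤ ⌊sg * (u - t)⌋₊ := Nat.one_le_floor_iff _ |>.2 hu1
          exact_mod_cast this
      _ = ∑ l ∈ S.image (fun u : ℝ => ⌊sg * (u - t)⌋₊), (1 : ℝ) / l := by
          rw [sum_image hinj]
      _ ≤ ∑ l ∈ Ico 1 (⌊T⌋₊ + 1), (1 : ℝ) / l := by
          apply sum_le_sum_of_subset_of_nonneg
          · intro l hl
            rw [mem_image] at hl
            obtain ⟨u, hu, rfl⟩ := hl
            have hu1 := (hS u hu).2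
            rw [mem_Ico]
            refine ⟨Nat.one_le_floor_iff _ |>.2 hu1, ?_⟩
            have h3 : sg * (u - t) ≤ T := by
              have h4 := hW u (hS u hu).1
              have h5 := hW t ht
              rcases hsg with h | h
              · rw [h]
                linarith
              · rw [h]
                linarith
            have := Nat.floor_le_floor h3
            omega
          · intro _ _ _
            positivity
  rw [← sum_filter_add_sum_filter_not (W.erase t) (fun u => t < u)]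
  have h1 := key 1 ((W.erase t).filter (fun u => t < u)) (by
    intro u hu
    rw [mem_filter, mem_erase] at hu
    refine ⟨hu.1.2, ?_⟩
    have h2 := hsep u hu.1.2 t ht hu.1.1
    rw [abs_of_pos (by linarith [hu.2])] at h2
    linarith) (Or.inl rfl)
  have h2 := key (-1) ((W.erase t).filter (fun u => ¬ t < u)) (by
    intro u hu
    rw [mem_filter, mem_erase] at hu
    refine ⟨hu.1.2, ?_⟩
    have h2 := hsep t ht u hu.1.2 (Ne.symm hu.1.1)
    have h3 : u ≤ t := not_lt.1 hu.2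
    rw [abs_of_nonneg (by linarith)] at h2
    linarith) (Or.inr rfl)
  linarith

theorem ker_real (N : ℕ) (hN : 1 ≤ N) (T : ℝ) (x : ℝ) (hx : x ≠ 0) (hxT : |x| ≤ T) :
    ‖∑ n ∈ Icc 1 N, ph x n‖ ≤
      ((Nat.log 2 N : ℝ) + 1) * (42 * N * (1 / |x|) + 14 * Real.sqrt (T * (1 + Real.log N))) := by
  have hN1 : (1 : ℝ) ≤ N := by exact_mod_cast hN
  have hl0 : 0 ≤ Real.log N := Real.log_nonneg hN1
  have hneg : ‖∑ n ∈ Icc 1 N, ph x n‖ = ‖∑ n ∈ Icc 1 N, ph |x| n‖ := by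
    rcases lt_or_gt_of_ne hx with h | h
    · rw [abs_of_neg h]
      have : ∑ n ∈ Icc 1 N, ph (-x) n = (starRingEnd ℂ) (∑ n ∈ Icc 1 N, ph x n) := by
        rw [map_sum]
        exact sum_congr rfl fun n _ => (ph_conj _ _).symm
      rw [this, Complex.norm_conj]
    · rw [abs_of_pos h]
  rw [hneg]
  refine (ker_full |x| (abs_pos.2 hx) N hN).trans ?_
  apply mul_le_mul_of_nonneg_left _ (by positivity)
  have h1 : Real.sqrt (|x| * (1 + Real.log N)) ≤ Real.sqrt (T * (1 + Real.log N)) :=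
    Real.sqrt_le_sqrt (mul_le_mul_of_nonneg_right hxT (by linarith))
  rw [mul_one_div]
  linarith

/-- **Halász–Montgomery for separated real points.** -/
theorem halaszR (N : ℕ) (hN : 1 ≤ N) (T : ℝ) (hT : 0 ≤ T) (W : Finset ℝ)
    (hW : ∀ t ∈ W, 0 ≤ t ∧ t ≤ T) (hsep : Sep W) (b : ℝ → Fin 4) :
    ∑ n ∈ Icc 1 N, ‖∑ t ∈ W, phs (b t) * ph t n‖ ^ 2 ≤
      W.card * (N + ((Nat.log 2 N : ℝ) + 1) * (84 * N * (1 + Real.log (T + 1)) +
        W.card * (14 * Real.sqrt (T * (1 + Real.log N))))) := by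
  classical
  have h1 : ((∑ n ∈ Icc 1 N, ‖∑ t ∈ W, phs (b t) * ph t n‖ ^ 2 : ℝ) : ℂ) =
      ∑ t ∈ W, ∑ u ∈ W, phs (b t) * (starRingEnd ℂ) (phs (b u)) * ∑ n ∈ Icc 1 N, ph (t - u) n := by
    push_cast
    have h2 : ∀ n ∈ Icc 1 N, ((‖∑ t ∈ W, phs (b t) * ph t n‖ : ℂ)) ^ 2 =
        ∑ t ∈ W, ∑ u ∈ W, phs (b t) * (starRingEnd ℂ) (phs (b u)) * ph (t - u) n := by
      intro n _
      rw [← Complex.mul_conj', map_sum, sum_mul_sum]
      apply sum_congr rfl
      intro i _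
      apply sum_congr rfl
      intro j _
      rw [map_mul, ← ph_sub]
      ring
    rw [sum_congr rfl h2, sum_comm]
    apply sum_congr rfl
    intro i _
    rw [sum_comm]
    apply sum_congr rfl
    intro j _
    rw [mul_sum]
  have h3 : ∑ n ∈ Icc 1 N, ‖∑ t ∈ W, phs (b t) * ph t n‖ ^ 2 ≤
      ∑ t ∈ W, ∑ u ∈ W, ‖∑ n ∈ Icc 1 N, ph (t - u) n‖ := by
    have h0 : 0 ≤ ∑ n ∈ Icc 1 N, ‖∑ t ∈ W, phs (b t) * ph t n‖ ^ 2 :=
      sum_nonneg fun _ _ => sq_nonneg _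
    rw [← Real.norm_of_nonneg h0, ← Complex.norm_real, h1]
    refine (norm_sum_le _ _).trans (sum_le_sum fun i _ => ?_)
    refine (norm_sum_le _ _).trans (sum_le_sum fun j _ => ?_)
    rw [norm_mul, norm_mul, RCLike.norm_conj, (phs_isPh _).norm, (phs_isPh _).norm, one_mul, one_mul]
  refine h3.trans ?_
  have h4 : ∀ t ∈ W, ∑ u ∈ W, ‖∑ n ∈ Icc 1 N, ph (t - u) n‖ ≤
      N + ((Nat.log 2 N : ℝ) + 1) * (84 * N * (1 + Real.log (T + 1)) +
        W.card * (14 * Real.sqrt (T * (1 + Real.log N)))) := by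
    intro t ht
    rw [← add_sum_erase W _ ht]
    have h5 : ∑ u ∈ W.erase t, ‖∑ n ∈ Icc 1 N, ph (t - u) n‖ ≤
        ∑ u ∈ W.erase t, ((Nat.log 2 N : ℝ) + 1) * (42 * N * (1 / |t - u|) +
          14 * Real.sqrt (T * (1 + Real.log N))) := by
      apply sum_le_sum
      intro u hu
      have hne := ne_of_mem_erase hu
      have huW := mem_of_mem_erase hu
      apply ker_real N hN T (t - u) (sub_ne_zero.2 (Ne.symm hne))
      have h6 := hW t ht
      have h7 := hW u huW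
      rw [abs_le]
      constructor <;> linarith
    rw [← mul_sum, sum_add_distrib, ← mul_sum, sum_const, nsmul_eq_mul] at h5
    have h6 := mul_le_mul_of_nonneg_left (harm_real T hT W hW hsep t ht)
      (by positivity : (0 : ℝ) ≤ 42 * N)
    have h7 : ‖∑ n ∈ Icc 1 N, ph (t - t) n‖ ≤ N := by
      refine (norm_sum_le _ _).trans ?_
      rw [sum_congr rfl fun n _ => ph_norm (t - t) n, sum_const, Nat.card_Icc, nsmul_eq_mul, mul_one,
        Nat.add_sub_cancel]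
    have h8 : ((W.erase t).card : ℝ) * (14 * Real.sqrt (T * (1 + Real.log N))) ≤
        W.card * (14 * Real.sqrt (T * (1 + Real.log N))) := by
      apply mul_le_mul_of_nonneg_right _ (by positivity)
      exact_mod_cast card_le_card (erase_subset _ _)
    have h9 : 42 * N * ∑ u ∈ W.erase t, 1 / |t - u| +
        ((W.erase t).card : ℝ) * (14 * Real.sqrt (T * (1 + Real.log N))) ≤
        84 * N * (1 + Real.log (T + 1)) + W.card * (14 * Real.sqrt (T * (1 + Real.log N))) := by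
      linarith
    have h10 := mul_le_mul_of_nonneg_left h9 (by positivity : (0 : ℝ) ≤ (Nat.log 2 N : ℝ) + 1)
    linarith
  calc ∑ t ∈ W, ∑ u ∈ W, ‖∑ n ∈ Icc 1 N, ph (t - u) n‖
      ≤ ∑ t ∈ W, ((N : ℝ) + ((Nat.log 2 N : ℝ) + 1) * (84 * N * (1 + Real.log (T + 1)) +
        W.card * (14 * Real.sqrt (T * (1 + Real.log N))))) := sum_le_sum h4
    _ = _ := by rw [sum_const, nsmul_eq_mul]

/-- the moments at separated real points -/
theorem moment_R (δ : ℝ) (hδ : 0 < δ) (κ : ℕ) : ∃ K : ℝ, 0 < K ∧ ∀ (N : ℕ) (T : ℝ), 1 ≤ N → 0 ≤ T →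
    ∀ (W : Finset ℝ), (∀ t ∈ W, 0 ≤ t ∧ t ≤ T) → Sep W → ∀ a : ℕ → ℂ,
      ∑ t ∈ W, ‖∑ n ∈ Icc 1 N, a n * ph t n‖ ^ (2 * κ) ≤
        K * (N : ℝ) ^ δ * (T + (N : ℝ) ^ κ) * (∑ n ∈ Icc 1 N, ‖a n‖ ^ 2) ^ κ := by
  classical
  obtain ⟨K1, hK1, hK2⟩ := consts δ hδ κ
  refine ⟨K1 * 2, by positivity, ?_⟩
  intro N T hN hT W hW hsep a
  have hN1 : (1 : ℝ) ≤ N := by exact_mod_cast hN
  have hN0 : (0 : ℝ) < N := by linarith
  obtain ⟨D, hD1, hD2⟩ := hK2 N hN
  have hY1 : 1 ≤ N ^ κ := Nat.one_le_pow _ _ hN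
  have h := block (N ^ κ) hY1 (pw N a κ) W hsep 0 T hT hW
  have h1 : ∑ t ∈ W, ‖∑ n ∈ Icc 1 N, a n * ph t n‖ ^ (2 * κ) =
      ∑ t ∈ W, ‖DP (N ^ κ) (pw N a κ) t‖ ^ 2 := by
    apply sum_congr rfl
    intro t _
    rw [← pow_eq, norm_pow, ← pow_mul, mul_comm 2 κ]
    rfl
  rw [h1]
  refine h.trans ?_
  push_cast
  have hpw := pw_l2 N a κ D hD1 hN κ le_rfl
  have hm2 := hD2 (T + 1) (by linarith)
  obtain ⟨G, hG⟩ : ∃ G : ℝ, G = ∑ n ∈ Icc 1 N, ‖a n‖ ^ 2 := ⟨_, rfl⟩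
  rw [← hG] at hpw ⊢
  have hG0 : 0 ≤ G := by rw [hG]; exact sum_nonneg fun _ _ => sq_nonneg _
  have hY1' : (1 : ℝ) ≤ (N : ℝ) ^ κ := one_le_pow₀ hN1
  have hGk : 0 ≤ G ^ κ := pow_nonneg hG0 _
  have e1 : T + 1 - 0 + 4 * (N : ℝ) ^ κ * (1 + Real.log ((N : ℝ) ^ κ)) =
      T + 1 + 4 * (N : ℝ) ^ κ * (1 + Real.log ((N : ℝ) ^ κ)) := by ring
  rw [e1]
  have h6 : 0 ≤ Real.log ((N : ℝ) ^ κ) := Real.log_nonneg hY1'
  have h7 : 0 ≤ (2 + Real.log ((N : ℝ) ^ κ) ^ 2) *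
      (T + 1 + 4 * (N : ℝ) ^ κ * (1 + Real.log ((N : ℝ) ^ κ))) := by positivity
  calc _ ≤ (2 + Real.log ((N : ℝ) ^ κ) ^ 2) *
      (T + 1 + 4 * (N : ℝ) ^ κ * (1 + Real.log ((N : ℝ) ^ κ))) * (D ^ κ * G ^ κ) :=
        mul_le_mul_of_nonneg_left hpw h7
    _ = ((2 + Real.log ((N : ℝ) ^ κ) ^ 2) *
      (T + 1 + 4 * (N : ℝ) ^ κ * (1 + Real.log ((N : ℝ) ^ κ))) * D ^ κ) * G ^ κ := by ring
    _ ≤ (K1 * (N : ℝ) ^ δ * (T + 1 + (N : ℝ) ^ κ)) * G ^ κ := mul_le_mul_of_nonneg_right hm2 hGk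
    _ ≤ _ := by
        apply mul_le_mul_of_nonneg_right _ hGk
        have h8 : T + 1 + (N : ℝ) ^ κ ≤ 2 * (T + (N : ℝ) ^ κ) := by linarith
        have := mul_le_mul_of_nonneg_left h8 (by positivity : 0 ≤ K1 * (N : ℝ) ^ δ)
        linarith

end Pool.Agent.Y959.Rs
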