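import Pool.Agent.H469R2.NK.Vdc
import Pool.Agent.TH705.DL.Core

set_option autoImplicit false

/-!
# The sums `∑_{N ≤ n ≤ 2N} n^{it}`
-/

namespace Pool.Agent.Y959.Rs

open Finset Pool.Agent.H469R2.NK Pool.Agent.TH705.DL

/-- one step of the logarithm -/
noncomputable def st (u : ℝ) : ℝ := Real.log (u + 1) - Real.log u

theorem st_eq {u : ℝ} (hu : 0 < u) : st u = Real.log (1 + 1 / u) := by
  unfold st
  rw [← Real.log_div (by linarith) hu.ne']
  congr 1
  field_simp

theorem st_le {u : ℝ} (hu : 0 < u) : st u ≤ 1 / u := by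
  rw [st_eq hu]
  have h := Real.log_le_sub_one_of_pos (x := 1 + 1 / u) (by positivity)
  linarith

theorem st_ge {u : ℝ} (hu : 0 < u) : 1 / (u + 1) ≤ st u := by
  rw [st_eq hu]
  have h := Real.one_sub_inv_le_log_of_pos (x := 1 + 1 / u) (by positivity)
  refine le_trans (le_of_eq ?_) h
  field_simp
  ring

theorem st_anti {u v : ℝ} (hu : 0 < u) (huv : u ≤ v) : st v ≤ st u := by
  rw [st_eq hu, st_eq (hu.trans_le huv)]
  apply Real.log_le_log (by have := hu.trans_le huv; positivity)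
  have := one_div_le_one_div_of_le hu huv
  linarith

/-- the second difference -/
noncomputable def dd (l u : ℝ) : ℝ := (Real.log (u + l) - Real.log u) -
  (Real.log (u + 1 + l) - Real.log (u + 1))

theorem dd_eq {l u : ℝ} (hl : 0 < l) (hu : 0 < u) :
    dd l u = Real.log (1 + l / (u * (u + 1 + l))) := by
  unfold dd
  have h1 : (0 : ℝ) < u * (u + 1 + l) := by positivity
  have e : 1 + l / (u * (u + 1 + l)) = ((u + l) * (u + 1)) / (u * (u + 1 + l)) := by
    field_simp
    ring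
  rw [e, Real.log_div (by positivity) h1.ne', Real.log_mul (by linarith) (by linarith),
    Real.log_mul hu.ne' (by linarith)]
  ring

theorem dd_anti {l u : ℝ} (hl : 0 < l) (hu : 0 < u) : dd l (u + 1) ≤ dd l u := by
  rw [dd_eq hl hu, dd_eq hl (by linarith)]
  apply Real.log_le_log (by positivity)
  have h1 : l / ((u + 1) * (u + 1 + 1 + l)) ≤ l / (u * (u + 1 + l)) := by
    apply div_le_div_of_nonneg_left hl.le (by positivity)
    apply mul_le_mul (by linarith) (by linarith) (by positivity) (by positivity)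
  linarith

theorem dd_bounds {l u N : ℝ} (hN : 1 ≤ N) (hl : 0 < l) (hu : N ≤ u) (hul : u + l + 1 ≤ 3 * N) :
    l / (12 * N ^ 2) ≤ dd l u ∧ dd l u ≤ l / N ^ 2 := by
  have hu0 : 0 < u := by linarith
  rw [dd_eq hl hu0]
  have h1 : N ^ 2 ≤ u * (u + 1 + l) := by nlinarith
  have h2 : u * (u + 1 + l) ≤ 9 * N ^ 2 := by nlinarith
  have h3 : (0 : ℝ) < u * (u + 1 + l) := by positivity
  obtain ⟨x, hx⟩ : ∃ x : ℝ, x = l / (u * (u + 1 + l)) := ⟨_, rfl⟩
  rw [← hx]
  have hx0 : 0 < x := by rw [hx]; positivity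
  have hx1 : x ≤ l / N ^ 2 := by
    rw [hx]
    exact div_le_div_of_nonneg_left hl.le (by positivity) h1
  have hx2 : l / (9 * N ^ 2) ≤ x := by
    rw [hx]
    exact div_le_div_of_nonneg_left hl.le h3 h2
  have hx3 : x ≤ 1 / 3 := by
    rw [hx, div_le_div_iff₀ h3 (by norm_num)]
    rcases le_or_gt 3 u with h3u | h3u
    · nlinarith
    · have h4 : l ≤ 2 * u - 1 := by linarith
      have h5 : l * (3 - u) ≤ (2 * u - 1) * (3 - u) := mul_le_mul_of_nonneg_right h4 (by linarith)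
      nlinarith [sq_nonneg (u - 1)]
  constructor
  · have h4 := Real.one_sub_inv_le_log_of_pos (x := 1 + x) (by positivity)
    refine le_trans ?_ h4
    have e : 1 - (1 + x)⁻¹ = x / (1 + x) := by
      field_simp
      ring
    rw [e, le_div_iff₀ (by positivity)]
    have h5 : l / (12 * N ^ 2) = 3 / 4 * (l / (9 * N ^ 2)) := by
      field_simp
      norm_num
    rw [h5]
    have h6 : 0 < l / (9 * N ^ 2) := by positivity
    nlinarith
  · have h4 := Real.log_le_sub_one_of_pos (x := 1 + x) (by positivity)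
    linarith

/-- the Kusmin–Landau range -/
theorem ker_kl {h : ℝ} (hh : 0 < h) {N : ℕ} (hN : 1 ≤ N) (hhN : 2 * h ≤ N) :
    ‖∑ n ∈ range (N + 1), e (h * Real.log ((N : ℝ) + n))‖ ≤ 6 * N / h := by
  have hN1 : (1 : ℝ) ≤ N := by exact_mod_cast hN
  have hN0 : (0 : ℝ) < N := by linarith
  have hinc : ∀ n : ℕ, h * Real.log ((N : ℝ) + ((n + 1 : ℕ) : ℝ)) - h * Real.log ((N : ℝ) + n) =
      h * st ((N : ℝ) + n) := by
    intro n
    unfold st
    push_cast
    rw [← add_assoc]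
    ring
  have hkl := kusmin_landau_anti (fun n => h * Real.log ((N : ℝ) + n)) (N + 1)
    (θ := h / (3 * (N : ℝ))) (by positivity) (by
      intro n hn
      simp only [hinc]
      have hn1 : (n : ℝ) ≤ N := by exact_mod_cast (by omega : n ≤ N)
      have hn0 : (0 : ℝ) ≤ n := Nat.cast_nonneg n
      have h1 := st_ge (u := (N : ℝ) + n) (by linarith)
      have h2 : 1 / (3 * (N : ℝ)) ≤ 1 / ((N : ℝ) + n + 1) :=
        one_div_le_one_div_of_le (by positivity) (by linarith)
      calc h / (3 * (N : ℝ)) = h * (1 / (3 * (N : ℝ))) := by ring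
        _ ≤ h * st ((N : ℝ) + n) := mul_le_mul_of_nonneg_left (h2.trans h1) hh.le) (by
      intro n hn
      simp only [hinc]
      have hn0 : (0 : ℝ) ≤ n := Nat.cast_nonneg n
      have h1 := st_le (u := (N : ℝ) + n) (by linarith)
      have h2 : 1 / ((N : ℝ) + n) ≤ 1 / (N : ℝ) := one_div_le_one_div_of_le hN0 (by linarith)
      have h3 : h * st ((N : ℝ) + n) ≤ h * (1 / (N : ℝ)) :=
        mul_le_mul_of_nonneg_left (h1.trans h2) hh.le
      have h4 : h * (1 / (N : ℝ)) ≤ 1 / 2 := by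
        rw [mul_one_div, div_le_iff₀ hN0]
        linarith
      have h5 : h / (3 * (N : ℝ)) ≤ 1 / 6 := by
        rw [div_le_iff₀ (by positivity)]
        linarith
      linarith) (by
      intro n hn
      have e2 : h * Real.log ((N : ℝ) + ((n + 2 : ℕ) : ℝ)) - h * Real.log ((N : ℝ) + ((n + 1 : ℕ) : ℝ)) =
          h * st ((N : ℝ) + n + 1) := by
        have := hinc (n + 1)
        rw [show n + 2 = n + 1 + 1 by ring, this]
        push_cast
        rw [← add_assoc]
      rw [e2, hinc]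
      have hn0 : (0 : ℝ) ≤ n := Nat.cast_nonneg n
      exact mul_le_mul_of_nonneg_left (st_anti (by linarith) (by linarith)) hh.le)
  refine hkl.trans (le_of_eq ?_)
  field_simp
  ring

theorem harm_le (H : ℕ) : ∑ l ∈ Ico 1 H, (1 : ℝ) / l ≤ 1 + Real.log H := by
  have h1 : ∑ l ∈ Ico 1 H, (1 : ℝ) / l ≤ ((harmonic H : ℚ) : ℝ) := by
    rw [harmonic_eq_sum_Icc]
    push_cast
    have : Ico 1 H ⊆ Icc 1 H := by
      intro x
      simp only [mem_Ico, mem_Icc]
      omega
    refine (sum_le_sum_of_subset_of_nonneg this (fun _ _ _ => by positivity)).trans (le_of_eq ?_)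
    exact sum_congr rfl fun x _ => by simp
  exact h1.trans (harmonic_le_one_add_log H)

/-- the van der Corput range -/
theorem ker_vdc {h : ℝ} {N : ℕ} (hN : 1 ≤ N) (hh1 : (N : ℝ) ≤ 2 * h) (hh2 : h ≤ (N : ℝ) ^ 2) :
    ‖∑ n ∈ range (N + 1), e (h * Real.log ((N : ℝ) + n))‖ ^ 2 ≤ 1200 * h * (1 + Real.log N) := by
  have hN1 : (1 : ℝ) ≤ N := by exact_mod_cast hN
  have hN0 : (0 : ℝ) < N := by linarith
  have hh : 0 < h := by linarith
  have hlog : 0 ≤ Real.log N := Real.log_nonneg hN1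
  obtain ⟨H, hH⟩ : ∃ H : ℕ, H = ⌈(N : ℝ) ^ 2 / (4 * h)⌉₊ := ⟨_, rfl⟩
  have hH1 : (N : ℝ) ^ 2 / (4 * h) ≤ H := by rw [hH]; exact Nat.le_ceil _
  have hHN : H ≤ N := by
    rw [hH, Nat.ceil_le, div_le_iff₀ (by positivity)]
    nlinarith
  have hHpos : (0 : ℝ) < H := lt_of_lt_of_le (by positivity) hH1
  have hHN' : (H : ℝ) ≤ N := by exact_mod_cast hHN
  have hz : ∀ n : ℕ, ‖e (h * Real.log ((N : ℝ) + n))‖ ≤ 1 := fun n => (norm_e _).le
  have hv := vdcH (fun n => e (h * Real.log ((N : ℝ) + n))) hz (N + 1) H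
  have hc : ∀ l ∈ Ico 1 H, ‖∑ n ∈ range (N + 1 - l), e (h * Real.log ((N : ℝ) + ((n + l : ℕ) : ℝ))) *
      (starRingEnd ℂ) (e (h * Real.log ((N : ℝ) + n)))‖ ≤ 24 * (N : ℝ) ^ 2 / h * (1 / l) := by
    intro l hl
    rw [mem_Ico] at hl
    have hl0 : (0 : ℝ) < l := by exact_mod_cast (by omega : 0 < l)
    have hlh : 4 * (h * l) ≤ (N : ℝ) ^ 2 := by
      have h1 : ((l : ℕ) : ℝ) < (N : ℝ) ^ 2 / (4 * h) := by
        have := hl.2
        rw [hH] at this
        exact Nat.lt_ceil.mp this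
      rw [lt_div_iff₀ (by positivity)] at h1
      linarith
    have e1 : ∀ n ∈ range (N + 1 - l), e (h * Real.log ((N : ℝ) + ((n + l : ℕ) : ℝ))) *
        (starRingEnd ℂ) (e (h * Real.log ((N : ℝ) + n))) =
        e (-(-(h * Real.log ((N : ℝ) + n + l) - h * Real.log ((N : ℝ) + n)))) := by
      intro n _
      rw [conj_e, ← e_add]
      congr 1
      push_cast
      rw [← add_assoc]
      ring
    rw [sum_congr rfl e1, norm_sum_neg (fun n : ℕ => -(h * Real.log ((N : ℝ) + n + l) -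
      h * Real.log ((N : ℝ) + n)))]
    have hinc : ∀ n : ℕ, -(h * Real.log ((N : ℝ) + ((n + 1 : ℕ) : ℝ) + l) -
        h * Real.log ((N : ℝ) + ((n + 1 : ℕ) : ℝ))) -
        -(h * Real.log ((N : ℝ) + n + l) - h * Real.log ((N : ℝ) + n)) = h * dd l ((N : ℝ) + n) := by
      intro n
      unfold dd
      push_cast
      rw [← add_assoc]
      ring
    have hb : ∀ n : ℕ, n < N + 1 - l → (N : ℝ) + n + l + 1 ≤ 3 * N := by
      intro n hn
      have h1 : ((N + n + l + 1 : ℕ) : ℝ) ≤ ((3 * N : ℕ) : ℝ) := by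
        exact_mod_cast (by omega : N + n + l + 1 ≤ 3 * N)
      push_cast at h1
      linarith
    have hkl := kusmin_landau_anti (fun n : ℕ => -(h * Real.log ((N : ℝ) + n + l) -
        h * Real.log ((N : ℝ) + n))) (N + 1 - l) (θ := h * l / (12 * (N : ℝ) ^ 2)) (by positivity) (by
        intro n hn
        simp only [hinc]
        have hn0 : (0 : ℝ) ≤ n := Nat.cast_nonneg n
        have h1 := (dd_bounds hN1 hl0 (by linarith : (N : ℝ) ≤ (N : ℝ) + n) (hb n hn)).1
        calc h * l / (12 * (N : ℝ) ^ 2) = h * (l / (12 * (N : ℝ) ^ 2)) := by ring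
          _ ≤ _ := mul_le_mul_of_nonneg_left h1 hh.le) (by
        intro n hn
        simp only [hinc]
        have hn0 : (0 : ℝ) ≤ n := Nat.cast_nonneg n
        have h1 := (dd_bounds hN1 hl0 (by linarith : (N : ℝ) ≤ (N : ℝ) + n) (hb n hn)).2
        have h2 : h * dd l ((N : ℝ) + n) ≤ h * (l / (N : ℝ) ^ 2) := mul_le_mul_of_nonneg_left h1 hh.le
        have h3 : h * (l / (N : ℝ) ^ 2) ≤ 1 / 4 := by
          rw [mul_div_assoc', div_le_iff₀ (by positivity)]
          linarith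
        have h4 : h * l / (12 * (N : ℝ) ^ 2) ≤ 1 / 48 := by
          rw [div_le_iff₀ (by positivity)]
          linarith
        linarith) (by
        intro n hn
        have e2 : -(h * Real.log ((N : ℝ) + ((n + 2 : ℕ) : ℝ) + l) -
            h * Real.log ((N : ℝ) + ((n + 2 : ℕ) : ℝ))) -
            -(h * Real.log ((N : ℝ) + ((n + 1 : ℕ) : ℝ) + l) -
              h * Real.log ((N : ℝ) + ((n + 1 : ℕ) : ℝ))) = h * dd l ((N : ℝ) + n + 1) := by
          have := hinc (n + 1)
          rw [show n + 2 = n + 1 + 1 by ring, this]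
          push_cast
          rw [← add_assoc]
        refine (le_of_eq e2).trans (le_trans ?_ (le_of_eq (hinc n).symm))
        apply mul_le_mul_of_nonneg_left _ hh.le
        have hn0 : (0 : ℝ) ≤ n := Nat.cast_nonneg n
        exact dd_anti hl0 (by linarith))
    refine hkl.trans (le_of_eq ?_)
    field_simp
    ring
  have hsum : ∑ l ∈ Ico 1 H, ‖∑ n ∈ range (N + 1 - l), e (h * Real.log ((N : ℝ) + ((n + l : ℕ) : ℝ))) *
      (starRingEnd ℂ) (e (h * Real.log ((N : ℝ) + n)))‖ ≤ 48 * N * (1 + Real.log N) := by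
    calc _ ≤ ∑ l ∈ Ico 1 H, 24 * (N : ℝ) ^ 2 / h * (1 / (l : ℝ)) := sum_le_sum hc
      _ = 24 * (N : ℝ) ^ 2 / h * ∑ l ∈ Ico 1 H, (1 : ℝ) / l := by rw [mul_sum]
      _ ≤ 24 * (N : ℝ) ^ 2 / h * (1 + Real.log H) :=
          mul_le_mul_of_nonneg_left (harm_le H) (by positivity)
      _ ≤ (48 * N) * (1 + Real.log N) := by
          have h1 : 24 * (N : ℝ) ^ 2 / h ≤ 48 * N := by
            rw [div_le_iff₀ hh]
            nlinarith
          have h2 : Real.log H ≤ Real.log N := Real.log_le_log hHpos hHN'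
          have h3 : 0 ≤ Real.log H := by
            have : 1 ≤ H := by
              have := hHpos
              exact_mod_cast this
            exact Real.log_nonneg (by exact_mod_cast this)
          apply mul_le_mul h1 (by linarith) (by linarith) (by positivity)
  set S := ‖∑ n ∈ range (N + 1), e (h * Real.log ((N : ℝ) + n))‖ with hS
  have h1 : (H : ℝ) * S ^ 2 ≤ (3 * N) * (2 * N + 2 * (48 * N * (1 + Real.log N))) := by
    refine hv.trans ?_
    push_cast
    have h5 : (0 : ℝ) ≤ ∑ l ∈ Ico 1 H, ‖∑ n ∈ range (N + 1 - l),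
      e (h * Real.log ((N : ℝ) + ((n : ℝ) + (l : ℝ)))) *
      (starRingEnd ℂ) (e (h * Real.log ((N : ℝ) + n)))‖ := sum_nonneg fun _ _ => norm_nonneg _
    have h6 := hsum
    push_cast at h6
    apply mul_le_mul (by linarith) (by linarith) (by positivity) (by positivity)
  have h2 : (3 * (N : ℝ)) * (2 * N + 2 * (48 * N * (1 + Real.log N))) ≤
      300 * (N : ℝ) ^ 2 * (1 + Real.log N) := by
    nlinarith [mul_nonneg (sq_nonneg (N : ℝ)) hlog]
  have h3 : (N : ℝ) ^ 2 / (4 * h) * S ^ 2 ≤ H * S ^ 2 := mul_le_mul_of_nonneg_right hH1 (sq_nonneg _)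
  have h4 : (N : ℝ) ^ 2 / (4 * h) * S ^ 2 ≤ 300 * (N : ℝ) ^ 2 * (1 + Real.log N) :=
    h3.trans (h1.trans h2)
  have h5 : S ^ 2 = (4 * h / (N : ℝ) ^ 2) * ((N : ℝ) ^ 2 / (4 * h) * S ^ 2) := by field_simp
  rw [h5]
  calc (4 * h / (N : ℝ) ^ 2) * ((N : ℝ) ^ 2 / (4 * h) * S ^ 2)
      ≤ (4 * h / (N : ℝ) ^ 2) * (300 * (N : ℝ) ^ 2 * (1 + Real.log N)) :=
        mul_le_mul_of_nonneg_left h4 (by positivity)
    _ = 1200 * h * (1 + Real.log N) := by
        field_simp
        ring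

/-- the sum over `[N, 2N]` in terms of `e` -/
theorem ph_sum (N : ℕ) (t : ℝ) :
    ∑ n ∈ Icc N (2 * N), ph t n =
      ∑ n ∈ range (N + 1), e (t / (2 * Real.pi) * Real.log ((N : ℝ) + n)) := by
  have h1 : Icc N (2 * N) = Ico N (2 * N + 1) := by
    ext n
    simp only [mem_Icc, mem_Ico]
    omega
  rw [h1, sum_Ico_eq_sum_range]
  have h2 : 2 * N + 1 - N = N + 1 := by omega
  rw [h2]
  apply sum_congr rfl
  intro n _
  rw [ph_eq]
  unfold e
  congr 1
  congr 1
  push_cast
  have hpi : (Real.pi : ℂ) ≠ 0 := by exact_mod_cast Real.pi_ne_zero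
  field_simp

theorem ph_sum_neg (N : ℕ) (t : ℝ) :
    ‖∑ n ∈ Icc N (2 * N), ph (-t) n‖ = ‖∑ n ∈ Icc N (2 * N), ph t n‖ := by
  have : ∑ n ∈ Icc N (2 * N), ph (-t) n = (starRingEnd ℂ) (∑ n ∈ Icc N (2 * N), ph t n) := by
    rw [map_sum]
    exact sum_congr rfl fun n _ => (ph_conj _ _).symm
  rw [this, Complex.norm_conj]

/-- **The sums over `[N, 2N]`**, `|t| ≤ N²`. -/
theorem ker_two (N : ℕ) (hN : 1 ≤ N) (t : ℝ) (ht : 0 < t) (ht2 : t ≤ (N : ℝ) ^ 2) :
    ‖∑ n ∈ Icc N (2 * N), ph t n‖ ≤ 42 * N / t + 14 * Real.sqrt (t * (1 + Real.log N)) := by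
  have hN1 : (1 : ℝ) ≤ N := by exact_mod_cast hN
  have hN0 : (0 : ℝ) < N := by linarith
  have hlog : 0 ≤ Real.log N := Real.log_nonneg hN1
  have hpi := Real.pi_gt_three
  have hpi2 := Real.pi_lt_d2
  rw [ph_sum]
  have hh : 0 < t / (2 * Real.pi) := by positivity
  rcases le_or_gt (2 * (t / (2 * Real.pi))) N with h1 | h1
  · have h2 := ker_kl hh hN h1
    refine h2.trans ?_
    have e : 6 * (N : ℝ) / (t / (2 * Real.pi)) = (12 * Real.pi) * N / t := by
      field_simp
      ring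
    rw [e]
    have h3 : (12 * Real.pi) * N / t ≤ 42 * N / t := by
      apply div_le_div_of_nonneg_right _ ht.le
      nlinarith
    have h4 : 0 ≤ 14 * Real.sqrt (t * (1 + Real.log N)) := by positivity
    linarith
  · have h5 : t / (2 * Real.pi) ≤ t := by
      rw [div_le_iff₀ (by positivity)]
      nlinarith
    have h2 := ker_vdc hN h1.le (h5.trans ht2)
    have h3 : 1200 * (t / (2 * Real.pi)) * (1 + Real.log N) ≤
        (14 * Real.sqrt (t * (1 + Real.log N))) ^ 2 := by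
      rw [mul_pow, Real.sq_sqrt (by positivity)]
      have h6 : 1200 * (t / (2 * Real.pi)) ≤ 196 * t := by
        rw [mul_div_assoc', div_le_iff₀ (by positivity)]
        have := Real.pi_gt_d2
        nlinarith
      have h7 : 0 ≤ 1 + Real.log N := by linarith
      have h8 := mul_le_mul_of_nonneg_right h6 h7
      linarith
    have h4 := abs_le_of_sq_le_sq' (h2.trans h3) (by positivity)
    have h9 : 0 ≤ 42 * (N : ℝ) / t := by positivity
    linarith [h4.2]

end Pool.Agent.Y959.Rs
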