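import Pool.Agent.Y959.Rs.Zeta

set_option autoImplicit false

/-!
# The sums `∑_{n ≤ N} n^{it}`
-/

namespace Pool.Agent.Y959.Rs

open Finset Pool.Agent.H469R2.NK Pool.Agent.TH705.DL

/-- the Kusmin–Landau range -/
theorem ker_klL {h : ℝ} (hh : 0 < h) {N : ℕ} (hN : 1 ≤ N) (hhN : 2 * h ≤ N) (L : ℕ) (hL : L ≤ N + 1) :
    ‖∑ n ∈ range L, e (h * Real.log ((N : ℝ) + n))‖ ≤ 6 * N / h := by
  have hN1 : (1 : ℝ) ≤ N := by exact_mod_cast hN
  have hN0 : (0 : ℝ) < N := by linarith
  have hinc : ∀ n : ℕ, h * Real.log ((N : ℝ) + ((n + 1 : ℕ) : ℝ)) - h * Real.log ((N : ℝ) + n) =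
      h * st ((N : ℝ) + n) := by
    intro n
    unfold st
    push_cast
    rw [← add_assoc]
    ring
  have hkl := kusmin_landau_anti (fun n => h * Real.log ((N : ℝ) + n)) L
    (θ := h / (3 * (N : ℝ))) (by positivity) (by
      intro n hn
      simp only [hinc]
      have hn1 : (n : ℝ) ≤ N := by exact_mod_cast (by omega : n ≤ N)
      have hn0 : (0 : ℝ) ≤ n := Nat.cast_nonneg n
      have h1 := st_ge (u := (N : ℝ) + n) (by linarith)
      have h2 : 1 / (3 * (N : ℝ)) ≤ 1 / ((N : ℝ) + n + 1) :=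
        one_div_le_one_div_of_le (by positivity) (by linarith)
      calc h / (3 * (N : ℝ)) = h * (1 / (3 * (N : ℝ))) := by ring
        _ ≤ h * st ((N : ℝ) + n) := mul_le_mul_of_nonneg_left (h2.trans h1) hh.le) (by
      intro n hn
      simp only [hinc]
      have hn0 : (0 : ℝ) ≤ n := Nat.cast_nonneg n
      have h1 := st_le (u := (N : ℝ) + n) (by linarith)
      have h2 : 1 / ((N : ℝ) + n) ≤ 1 / (N : ℝ) := one_div_le_one_div_of_le hN0 (by linarith)
      have h3 : h * st ((N : ℝ) + n) ≤ h * (1 / (N : ℝ)) :=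
        mul_le_mul_of_nonneg_left (h1.trans h2) hh.le
      have h4 : h * (1 / (N : ℝ)) ≤ 1 / 2 := by
        rw [mul_one_div, div_le_iff₀ hN0]
        linarith
      have h5 : h / (3 * (N : ℝ)) ≤ 1 / 6 := by
        rw [div_le_iff₀ (by positivity)]
        linarith
      linarith) (by
      intro n hn
      have e2 : h * Real.log ((N : ℝ) + ((n + 2 : ℕ) : ℝ)) - h * Real.log ((N : ℝ) + ((n + 1 : ℕ) : ℝ)) =
          h * st ((N : ℝ) + n + 1) := by
        have := hinc (n + 1)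
        rw [show n + 2 = n + 1 + 1 by ring, this]
        push_cast
        rw [← add_assoc]
      rw [e2, hinc]
      have hn0 : (0 : ℝ) ≤ n := Nat.cast_nonneg n
      exact mul_le_mul_of_nonneg_left (st_anti (by linarith) (by linarith)) hh.le)
  refine hkl.trans (le_of_eq ?_)
  field_simp
  ring

/-- the van der Corput range -/
theorem ker_vdcL {h : ℝ} {N : ℕ} (hN : 1 ≤ N) (hh1 : (N : ℝ) ≤ 2 * h) (hh2 : h ≤ (N : ℝ) ^ 2)
    (L : ℕ) (hL : L ≤ N + 1) :
    ‖∑ n ∈ range L, e (h * Real.log ((N : ℝ) + n))‖ ^ 2 ≤ 1200 * h * (1 + Real.log N) := by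
  have hN1 : (1 : ℝ) ≤ N := by exact_mod_cast hN
  have hN0 : (0 : ℝ) < N := by linarith
  have hh : 0 < h := by linarith
  have hlog : 0 ≤ Real.log N := Real.log_nonneg hN1
  have hLN : (L : ℝ) ≤ N + 1 := by exact_mod_cast hL
  obtain ⟨H, hH⟩ : ∃ H : ℕ, H = ⌈(N : ℝ) ^ 2 / (4 * h)⌉₊ := ⟨_, rfl⟩
  have hH1 : (N : ℝ) ^ 2 / (4 * h) ≤ H := by rw [hH]; exact Nat.le_ceil _
  have hHN : H ≤ N := by
    rw [hH, Nat.ceil_le, div_le_iff₀ (by positivity)]
    nlinarith
  have hHpos : (0 : ℝ) < H := lt_of_lt_of_le (by positivity) hH1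
  have hHN' : (H : ℝ) ≤ N := by exact_mod_cast hHN
  have hz : ∀ n : ℕ, ‖e (h * Real.log ((N : ℝ) + n))‖ ≤ 1 := fun n => (norm_e _).le
  have hv := vdcH (fun n => e (h * Real.log ((N : ℝ) + n))) hz L H
  have hc : ∀ l ∈ Ico 1 H, ‖∑ n ∈ range (L - l), e (h * Real.log ((N : ℝ) + ((n + l : ℕ) : ℝ))) *
      (starRingEnd ℂ) (e (h * Real.log ((N : ℝ) + n)))‖ ≤ 24 * (N : ℝ) ^ 2 / h * (1 / l) := by
    intro l hl
    rw [mem_Ico] at hl
    have hl0 : (0 : ℝ) < l := by exact_mod_cast (by omega : 0 < l)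
    have hlh : 4 * (h * l) ≤ (N : ℝ) ^ 2 := by
      have h1 : ((l : ℕ) : ℝ) < (N : ℝ) ^ 2 / (4 * h) := by
        have := hl.2
        rw [hH] at this
        exact Nat.lt_ceil.mp this
      rw [lt_div_iff₀ (by positivity)] at h1
      linarith
    have e1 : ∀ n ∈ range (L - l), e (h * Real.log ((N : ℝ) + ((n + l : ℕ) : ℝ))) *
        (starRingEnd ℂ) (e (h * Real.log ((N : ℝ) + n))) =
        e (-(-(h * Real.log ((N : ℝ) + n + l) - h * Real.log ((N : ℝ) + n)))) := by
      intro n _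
      rw [conj_e, ← e_add]
      congr 1
      push_cast
      rw [← add_assoc]
      ring
    rw [sum_congr rfl e1, norm_sum_neg (fun n : ℕ => -(h * Real.log ((N : ℝ) + n + l) -
      h * Real.log ((N : ℝ) + n)))]
    have hinc : ∀ n : ℕ, -(h * Real.log ((N : ℝ) + ((n + 1 : ℕ) : ℝ) + l) -
        h * Real.log ((N : ℝ) + ((n + 1 : ℕ) : ℝ))) -
        -(h * Real.log ((N : ℝ) + n + l) - h * Real.log ((N : ℝ) + n)) = h * dd l ((N : ℝ) + n) := by
      intro n
      unfold dd
      push_cast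
      rw [← add_assoc]
      ring
    have hb : ∀ n : ℕ, n < L - l → (N : ℝ) + n + l + 1 ≤ 3 * N := by
      intro n hn
      have h1 : ((N + n + l + 1 : ℕ) : ℝ) ≤ ((3 * N : ℕ) : ℝ) := by
        exact_mod_cast (by omega : N + n + l + 1 ≤ 3 * N)
      push_cast at h1
      linarith
    have hkl := kusmin_landau_anti (fun n : ℕ => -(h * Real.log ((N : ℝ) + n + l) -
        h * Real.log ((N : ℝ) + n))) (L - l) (θ := h * l / (12 * (N : ℝ) ^ 2)) (by positivity) (by
        intro n hn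
        simp only [hinc]
        have hn0 : (0 : ℝ) ≤ n := Nat.cast_nonneg n
        have h1 := (dd_bounds hN1 hl0 (by linarith : (N : ℝ) ≤ (N : ℝ) + n) (hb n hn)).1
        calc h * l / (12 * (N : ℝ) ^ 2) = h * (l / (12 * (N : ℝ) ^ 2)) := by ring
          _ ≤ _ := mul_le_mul_of_nonneg_left h1 hh.le) (by
        intro n hn
        simp only [hinc]
        have hn0 : (0 : ℝ) ≤ n := Nat.cast_nonneg n
        have h1 := (dd_bounds hN1 hl0 (by linarith : (N : ℝ) ≤ (N : ℝ) + n) (hb n hn)).2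
        have h2 : h * dd l ((N : ℝ) + n) ≤ h * (l / (N : ℝ) ^ 2) := mul_le_mul_of_nonneg_left h1 hh.le
        have h3 : h * (l / (N : ℝ) ^ 2) ≤ 1 / 4 := by
          rw [mul_div_assoc', div_le_iff₀ (by positivity)]
          linarith
        have h4 : h * l / (12 * (N : ℝ) ^ 2) ≤ 1 / 48 := by
          rw [div_le_iff₀ (by positivity)]
          linarith
        linarith) (by
        intro n hn
        have e2 : -(h * Real.log ((N : ℝ) + ((n + 2 : ℕ) : ℝ) + l) -
            h * Real.log ((N : ℝ) + ((n + 2 : ℕ) : ℝ))) -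
            -(h * Real.log ((N : ℝ) + ((n + 1 : ℕ) : ℝ) + l) -
              h * Real.log ((N : ℝ) + ((n + 1 : ℕ) : ℝ))) = h * dd l ((N : ℝ) + n + 1) := by
          have := hinc (n + 1)
          rw [show n + 2 = n + 1 + 1 by ring, this]
          push_cast
          rw [← add_assoc]
        refine (le_of_eq e2).trans (le_trans ?_ (le_of_eq (hinc n).symm))
        apply mul_le_mul_of_nonneg_left _ hh.le
        have hn0 : (0 : ℝ) ≤ n := Nat.cast_nonneg n
        exact dd_anti hl0 (by linarith))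
    refine hkl.trans (le_of_eq ?_)
    field_simp
    ring
  have hsum : ∑ l ∈ Ico 1 H, ‖∑ n ∈ range (L - l), e (h * Real.log ((N : ℝ) + ((n + l : ℕ) : ℝ))) *
      (starRingEnd ℂ) (e (h * Real.log ((N : ℝ) + n)))‖ ≤ 48 * N * (1 + Real.log N) := by
    calc _ ≤ ∑ l ∈ Ico 1 H, 24 * (N : ℝ) ^ 2 / h * (1 / (l : ℝ)) := sum_le_sum hc
      _ = 24 * (N : ℝ) ^ 2 / h * ∑ l ∈ Ico 1 H, (1 : ℝ) / l := by rw [mul_sum]
      _ ≤ 24 * (N : ℝ) ^ 2 / h * (1 + Real.log H) :=
          mul_le_mul_of_nonneg_left (harm_le H) (by positivity)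
      _ ≤ (48 * N) * (1 + Real.log N) := by
          have h1 : 24 * (N : ℝ) ^ 2 / h ≤ 48 * N := by
            rw [div_le_iff₀ hh]
            nlinarith
          have h2 : Real.log H ≤ Real.log N := Real.log_le_log hHpos hHN'
          have h3 : 0 ≤ Real.log H := by
            have : 1 ≤ H := by
              have := hHpos
              exact_mod_cast this
            exact Real.log_nonneg (by exact_mod_cast this)
          apply mul_le_mul h1 (by linarith) (by linarith) (by positivity)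
  set S := ‖∑ n ∈ range L, e (h * Real.log ((N : ℝ) + n))‖ with hS
  have h1 : (H : ℝ) * S ^ 2 ≤ (3 * N) * (2 * N + 2 * (48 * N * (1 + Real.log N))) := by
    refine hv.trans ?_
    have h5 : (0 : ℝ) ≤ ∑ l ∈ Ico 1 H, ‖∑ n ∈ range (L - l),
      e (h * Real.log ((N : ℝ) + ((n + l : ℕ) : ℝ))) *
      (starRingEnd ℂ) (e (h * Real.log ((N : ℝ) + n)))‖ := sum_nonneg fun _ _ => norm_nonneg _
    apply mul_le_mul (by linarith) (by linarith) (by positivity) (by positivity)
  have h2 : (3 * (N : ℝ)) * (2 * N + 2 * (48 * N * (1 + Real.log N))) ≤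
      300 * (N : ℝ) ^ 2 * (1 + Real.log N) := by
    nlinarith [mul_nonneg (sq_nonneg (N : ℝ)) hlog]
  have h3 : (N : ℝ) ^ 2 / (4 * h) * S ^ 2 ≤ H * S ^ 2 := mul_le_mul_of_nonneg_right hH1 (sq_nonneg _)
  have h4 : (N : ℝ) ^ 2 / (4 * h) * S ^ 2 ≤ 300 * (N : ℝ) ^ 2 * (1 + Real.log N) :=
    h3.trans (h1.trans h2)
  have h5 : S ^ 2 = (4 * h / (N : ℝ) ^ 2) * ((N : ℝ) ^ 2 / (4 * h) * S ^ 2) := by field_simp
  rw [h5]
  calc (4 * h / (N : ℝ) ^ 2) * ((N : ℝ) ^ 2 / (4 * h) * S ^ 2)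
      ≤ (4 * h / (N : ℝ) ^ 2) * (300 * (N : ℝ) ^ 2 * (1 + Real.log N)) :=
        mul_le_mul_of_nonneg_left h4 (by positivity)
    _ = 1200 * h * (1 + Real.log N) := by
        field_simp
        ring

/-- a block `[M, M + L)` -/
theorem blk (M : ℕ) (hM : 1 ≤ M) (L : ℕ) (hL : L ≤ M) (t : ℝ) (ht : 0 < t) :
    ‖∑ n ∈ Ico M (M + L), ph t n‖ ≤ 42 * M / t + 14 * Real.sqrt (t * (1 + Real.log M)) := by
  have hN1 : (1 : ℝ) ≤ M := by exact_mod_cast hM
  have hN0 : (0 : ℝ) < M := by linarith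
  have hlog : 0 ≤ Real.log M := Real.log_nonneg hN1
  have hpi := Real.pi_gt_three
  have hpi2 := Real.pi_lt_d2
  have hLM : (L : ℝ) ≤ M := by exact_mod_cast hL
  rcases le_or_gt ((M : ℝ) ^ 2) t with ht2 | ht2
  · -- trivial
    have h1 : ‖∑ n ∈ Ico M (M + L), ph t n‖ ≤ L := by
      refine (norm_sum_le _ _).trans ?_
      rw [sum_congr rfl fun n _ => ph_norm t n, sum_const, Nat.card_Ico, nsmul_eq_mul, mul_one,
        Nat.add_sub_cancel_left]
    have h2 : (M : ℝ) ≤ Real.sqrt (t * (1 + Real.log M)) := by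
      apply Real.le_sqrt_of_sq_le
      nlinarith
    have h3 : 0 ≤ 42 * (M : ℝ) / t := by positivity
    linarith
  have hsum : ∑ n ∈ Ico M (M + L), ph t n =
      ∑ n ∈ range L, e (t / (2 * Real.pi) * Real.log ((M : ℝ) + n)) := by
    rw [sum_Ico_eq_sum_range, Nat.add_sub_cancel_left]
    apply sum_congr rfl
    intro n _
    rw [ph_eq]
    unfold e
    congr 1
    congr 1
    push_cast
    have hpi : (Real.pi : ℂ) ≠ 0 := by exact_mod_cast Real.pi_ne_zero
    field_simp
  rw [hsum]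
  have hh : 0 < t / (2 * Real.pi) := by positivity
  rcases le_or_gt (2 * (t / (2 * Real.pi))) M with h1 | h1
  · have h2 := ker_klL hh hM h1 L (by omega)
    refine h2.trans ?_
    have e : 6 * (M : ℝ) / (t / (2 * Real.pi)) = (12 * Real.pi) * M / t := by
      field_simp
      ring
    rw [e]
    have h3 : (12 * Real.pi) * M / t ≤ 42 * M / t := by
      apply div_le_div_of_nonneg_right _ ht.le
      nlinarith
    have h4 : 0 ≤ 14 * Real.sqrt (t * (1 + Real.log M)) := by positivity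
    linarith
  · have h5 : t / (2 * Real.pi) ≤ t := by
      rw [div_le_iff₀ (by positivity)]
      nlinarith
    have h2 := ker_vdcL hM h1.le (h5.trans ht2.le) L (by omega)
    have h3 : 1200 * (t / (2 * Real.pi)) * (1 + Real.log M) ≤
        (14 * Real.sqrt (t * (1 + Real.log M))) ^ 2 := by
      rw [mul_pow, Real.sq_sqrt (by positivity)]
      have h6 : 1200 * (t / (2 * Real.pi)) ≤ 196 * t := by
        rw [mul_div_assoc', div_le_iff₀ (by positivity)]
        have := Real.pi_gt_d2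
        nlinarith
      have h7 : 0 ≤ 1 + Real.log M := by linarith
      have h8 := mul_le_mul_of_nonneg_right h6 h7
      linarith
    have h4 := abs_le_of_sq_le_sq' (h2.trans h3) (by positivity)
    have h9 : 0 ≤ 42 * (M : ℝ) / t := by positivity
    linarith [h4.2]

/-- **The sum over `[1, N]`.** -/
theorem ker_full (t : ℝ) (ht : 0 < t) : ∀ N : ℕ, 1 ≤ N →
    ‖∑ n ∈ Icc 1 N, ph t n‖ ≤
      ((Nat.log 2 N : ℝ) + 1) * (42 * N / t + 14 * Real.sqrt (t * (1 + Real.log N))) := by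
  intro N
  induction N using Nat.strong_induction_on with
  | _ N ih =>
    intro hN
    have hN1 : (1 : ℝ) ≤ N := by exact_mod_cast hN
    have hN0 : (0 : ℝ) < N := by linarith
    obtain ⟨m, hm⟩ : ∃ m : ℕ, m = N / 2 := ⟨_, rfl⟩
    have hmN : m < N := by omega
    have hE : ∀ M : ℕ, 1 ≤ M → M ≤ N → 42 * (M : ℝ) / t + 14 * Real.sqrt (t * (1 + Real.log M)) ≤
        42 * N / t + 14 * Real.sqrt (t * (1 + Real.log N)) := by
      intro M hM hMN
      have hM0 : (0 : ℝ) < M := by exact_mod_cast hM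
      have hMN' : (M : ℝ) ≤ N := by exact_mod_cast hMN
      have h1 : 42 * (M : ℝ) / t ≤ 42 * N / t := div_le_div_of_nonneg_right (by linarith) ht.le
      have h2 : Real.sqrt (t * (1 + Real.log M)) ≤ Real.sqrt (t * (1 + Real.log N)) := by
        apply Real.sqrt_le_sqrt
        apply mul_le_mul_of_nonneg_left _ ht.le
        have := Real.log_le_log hM0 hMN'
        linarith
      linarith
    have hE0 : 0 ≤ 42 * (N : ℝ) / t + 14 * Real.sqrt (t * (1 + Real.log N)) := by positivity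
    have hsplit : ∑ n ∈ Icc 1 N, ph t n =
        ∑ n ∈ Icc 1 m, ph t n + ∑ n ∈ Ico (m + 1) (m + 1 + (N - m)), ph t n := by
      have h1 : Icc 1 N = Icc 1 m ∪ Ico (m + 1) (m + 1 + (N - m)) := by
        ext n
        simp only [mem_union, mem_Icc, mem_Ico]
        omega
      rw [h1, sum_union]
      rw [disjoint_left]
      intro n hn hn'
      rw [mem_Icc] at hn
      rw [mem_Ico] at hn'
      omega
    have hb := blk (m + 1) (by omega) (N - m) (by omega) t ht
    have hb2 := hb.trans (hE (m + 1) (by omega) (by omega))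
    rw [hsplit]
    refine (norm_add_le _ _).trans ?_
    rcases Nat.eq_zero_or_pos m with h0 | h0
    · rw [h0] at hb2 ⊢
      simp only [Icc_eq_empty_of_lt (by norm_num : (0 : ℕ) < 1), sum_empty, norm_zero, zero_add] at hb2 ⊢
      have h2 : (0 : ℝ) ≤ (Nat.log 2 N : ℝ) := Nat.cast_nonneg _
      nlinarith
    · have h1 := ih m hmN h0
      have h2 := h1.trans (mul_le_mul_of_nonneg_left (hE m h0 hmN.le) (by positivity))
      have h3 : Nat.log 2 N = Nat.log 2 m + 1 := by
        rw [hm]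
        have h4 : 2 ≤ N := by omega
        rw [Nat.log_div_base]
        have h5 : 1 ≤ Nat.log 2 N := Nat.log_pos (by norm_num) h4
        omega
      rw [h3]
      push_cast
      linarith

end Pool.Agent.Y959.Rs
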